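import Mathlib

/-!
# The univariate marginal distribution algorithm on OneMax

Bit strings of length `n` are functions `x : Fin n → Bool`.  In each generation the algorithm samples
`l` offspring `y : Fin l → Fin n → Bool` from a frequency vector `p : Fin n → ℝ`, it selects a set
`A` of `m` offspring with the largest OneMax values, and the new frequencies are the fractions of
the selected offspring with a one, restricted to the interval `[1 / n, 1 - 1 / n]`.
-/

namespace Pool.Agent.H80.UM

open Finset

/-- The number of ones of a bit string. -/
def oneMax {n : ℕ} (x : Fin n → Bool) : ℕ := (univ.filter fun i => x i = true).card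

/-- The probability that sampling from the frequency vector `p` (with independent bits) gives the
bit string `x`. -/
noncomputable def prob {n : ℕ} (p : Fin n → ℝ) (x : Fin n → Bool) : ℝ :=
  ∏ i, if x i = true then p i else 1 - p i

/-- `A` is a set of `m` offspring with the largest OneMax values. -/
def IsBest {n l : ℕ} (m : ℕ) (y : Fin l → Fin n → Bool) (A : Finset (Fin l)) : Prop :=
  A.card = m ∧ ∀ a ∈ A, ∀ b ∉ A, oneMax (y b) ≤ oneMax (y a)

/-- The restriction of a real number to the interval `[1 / n, 1 - 1 / n]`. -/
noncomputable def clamp (n : ℕ) (r : ℝ) : ℝ := max (1 / n) (min (1 - 1 / n) r)

/-- The new frequency vector: for each position the fraction of the selected offspring with a one,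
restricted to `[1 / n, 1 - 1 / n]`. -/
noncomputable def update {n l : ℕ} (m : ℕ) (y : Fin l → Fin n → Bool) (A : Finset (Fin l)) :
    Fin n → ℝ :=
  fun i => clamp n ((A.filter fun a => y a i = true).card / m)

/-- The list of the offspring and of the selected sets of the earlier generations. -/
abbrev History (n l : ℕ) : Type := List ((Fin l → Fin n → Bool) × Finset (Fin l))

/-- A rule for breaking ties.  It may be randomised and it may depend on everything that happened
before: after the history `h` and the offspring `y` the set `A` is selected with probability
`w h y A`, and only sets of `m` best offspring are selected. -/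
structure TieRule (n l m : ℕ) where
  /-- The probability that `A` is selected. -/
  w : History n l → (Fin l → Fin n → Bool) → Finset (Fin l) → ℝ
  nonneg : ∀ h y A, 0 ≤ w h y A
  sum_eq_one : ∀ h y, ∑ A, w h y A = 1
  best : ∀ h y A, w h y A ≠ 0 → IsBest m y A

open Classical in
/-- The probability that the all-ones string is neither among the offspring of the next `t`
generations nor among the first `j` offspring of the generation after them, if the history is `h`
and the frequency vector is `p`. -/
noncomputable def miss {n l m : ℕ} (R : TieRule n l m) (j : ℕ) :
    ℕ → History n l → (Fin n → ℝ) → ℝ
  | 0, _, p => ∑ y : Fin l → Fin n → Bool, (∏ a, prob p (y a)) *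
      if ∃ a : Fin l, a.val < j ∧ y a = fun _ => true then 0 else 1
  | t + 1, h, p => ∑ y : Fin l → Fin n → Bool, (∏ a, prob p (y a)) *
      if ∃ a : Fin l, y a = fun _ => true then 0
      else ∑ A, R.w h y A * miss R j t ((y, A) :: h) (update m y A)

/-- The expected optimization time: the expected number of OneMax evaluations until the all-ones
string is sampled for the first time, if all frequencies are `1 / 2` at the start.  It is the sum
over all `s = t * l + j` with `j < l` of the probability that the first `s` evaluated strings do
not contain the all-ones string. -/
noncomputable def expectedTime {n l m : ℕ} (R : TieRule n l m) : ENNReal :=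
  ∑' t : ℕ, ∑ j ∈ range l, ENNReal.ofReal (miss R j t [] fun _ => 1 / 2)

end Pool.Agent.H80.UM
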