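import Pool.Agent.H80.UM.Def

/-!
# Expectations
-/

set_option linter.unusedSectionVars false

namespace Pool.Agent.H80.UM

open Finset Classical

variable {n l m : ℕ}

/-- The expectation over one bit string. -/
noncomputable def E1 (p : Fin n → ℝ) (g : (Fin n → Bool) → ℝ) : ℝ := ∑ x, prob p x * g x

/-- The expectation over the offspring. -/
noncomputable def Ex (p : Fin n → ℝ) (F : (Fin l → Fin n → Bool) → ℝ) : ℝ :=
  ∑ y : Fin l → Fin n → Bool, (∏ a, prob p (y a)) * F y

/-- All frequencies are between `0` and `1`. -/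
def P01 (p : Fin n → ℝ) : Prop := ∀ i, 0 ≤ p i ∧ p i ≤ 1

variable {p : Fin n → ℝ}

theorem prob_nonneg (hp : P01 p) (x : Fin n → Bool) : 0 ≤ prob p x := by
  unfold prob
  refine prod_nonneg fun i _ => ?_
  have := hp i
  split_ifs <;> linarith

theorem wt_nonneg (hp : P01 p) (y : Fin l → Fin n → Bool) : 0 ≤ ∏ a, prob p (y a) :=
  prod_nonneg fun _ _ => prob_nonneg hp _

theorem E1_prod (g : Fin n → Bool → ℝ) :
    E1 p (fun x => ∏ i, g i (x i)) = ∏ i, (p i * g i true + (1 - p i) * g i false) := by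
  have h := Finset.prod_univ_sum (fun _ : Fin n => (univ : Finset Bool))
    (fun i b => (if b = true then p i else 1 - p i) * g i b)
  rw [Fintype.piFinset_univ] at h
  unfold E1 prob
  simp_rw [← prod_mul_distrib]
  rw [← h]
  refine prod_congr rfl fun i _ => ?_
  simp

theorem Ex_prod (g : Fin l → (Fin n → Bool) → ℝ) :
    Ex p (fun y => ∏ a, g a (y a)) = ∏ a, E1 p (g a) := by
  have h := Finset.prod_univ_sum (fun _ : Fin l => (univ : Finset (Fin n → Bool)))
    (fun a x => prob p x * g a x)
  rw [Fintype.piFinset_univ] at h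
  unfold E1 Ex
  simp_rw [← prod_mul_distrib]
  rw [← h]

theorem E1_one : E1 p (fun _ => 1) = 1 := by
  have h := E1_prod (p := p) (fun _ _ => (1 : ℝ))
  simp only [prod_const_one, mul_one, add_sub_cancel] at h
  exact h

theorem Ex_one : Ex (l := l) p (fun _ => 1) = 1 := by
  have h := Ex_prod (l := l) (p := p) (fun _ _ => (1 : ℝ))
  simp only [prod_const_one, E1_one] at h
  exact h

theorem E1_const (c : ℝ) : E1 p (fun _ => c) = c := by
  have h := E1_one (p := p)
  unfold E1 at h ⊢
  rw [← sum_mul]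
  simp only [mul_one] at h
  rw [h, one_mul]

theorem Ex_const (c : ℝ) : Ex (l := l) p (fun _ => c) = c := by
  have h := Ex_one (l := l) (p := p)
  unfold Ex at h ⊢
  rw [← sum_mul]
  simp only [mul_one] at h
  rw [h, one_mul]

theorem E1_mono (hp : P01 p) {f g : (Fin n → Bool) → ℝ} (h : ∀ x, f x ≤ g x) :
    E1 p f ≤ E1 p g :=
  sum_le_sum fun x _ => mul_le_mul_of_nonneg_left (h x) (prob_nonneg hp x)

theorem Ex_mono (hp : P01 p) {F G : (Fin l → Fin n → Bool) → ℝ} (h : ∀ y, F y ≤ G y) :
    Ex p F ≤ Ex p G :=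
  sum_le_sum fun y _ => mul_le_mul_of_nonneg_left (h y) (wt_nonneg hp y)

theorem E1_nonneg (hp : P01 p) {f : (Fin n → Bool) → ℝ} (h : ∀ x, 0 ≤ f x) : 0 ≤ E1 p f :=
  sum_nonneg fun x _ => mul_nonneg (prob_nonneg hp x) (h x)

theorem Ex_nonneg (hp : P01 p) {F : (Fin l → Fin n → Bool) → ℝ} (h : ∀ y, 0 ≤ F y) :
    0 ≤ Ex p F :=
  sum_nonneg fun y _ => mul_nonneg (wt_nonneg hp y) (h y)

theorem E1_add (f g : (Fin n → Bool) → ℝ) : E1 p (fun x => f x + g x) = E1 p f + E1 p g := by
  unfold E1
  rw [← sum_add_distrib]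
  exact sum_congr rfl fun x _ => by ring

theorem E1_sub (f g : (Fin n → Bool) → ℝ) : E1 p (fun x => f x - g x) = E1 p f - E1 p g := by
  unfold E1
  rw [← sum_sub_distrib]
  exact sum_congr rfl fun x _ => by ring

theorem Ex_add (F G : (Fin l → Fin n → Bool) → ℝ) :
    Ex p (fun y => F y + G y) = Ex p F + Ex p G := by
  unfold Ex
  rw [← sum_add_distrib]
  exact sum_congr rfl fun x _ => by ring

theorem Ex_sub (F G : (Fin l → Fin n → Bool) → ℝ) :
    Ex p (fun y => F y - G y) = Ex p F - Ex p G := by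
  unfold Ex
  rw [← sum_sub_distrib]
  exact sum_congr rfl fun x _ => by ring

theorem E1_mul (c : ℝ) (f : (Fin n → Bool) → ℝ) : E1 p (fun x => c * f x) = c * E1 p f := by
  unfold E1
  rw [mul_sum]
  exact sum_congr rfl fun x _ => by ring

theorem Ex_mul (c : ℝ) (F : (Fin l → Fin n → Bool) → ℝ) :
    Ex p (fun y => c * F y) = c * Ex p F := by
  unfold Ex
  rw [mul_sum]
  exact sum_congr rfl fun x _ => by ring

theorem E1_sum {ι : Type} (s : Finset ι) (f : ι → (Fin n → Bool) → ℝ) :
    E1 p (fun x => ∑ j ∈ s, f j x) = ∑ j ∈ s, E1 p (f j) := by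
  unfold E1
  simp_rw [mul_sum]
  rw [sum_comm]

theorem Ex_sum {ι : Type} (s : Finset ι) (F : ι → (Fin l → Fin n → Bool) → ℝ) :
    Ex p (fun y => ∑ j ∈ s, F j y) = ∑ j ∈ s, Ex p (F j) := by
  unfold Ex
  simp_rw [mul_sum]
  rw [sum_comm]

/-- One offspring and the others. -/
theorem Ex_mul_prod (a : Fin l) (g h : (Fin n → Bool) → ℝ) :
    Ex p (fun y => g (y a) * ∏ b ∈ univ.erase a, h (y b)) = E1 p g * E1 p h ^ (l - 1) := by
  have h1 := Ex_prod (l := l) (p := p) (fun b => if b = a then g else h)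
  have h2 : ∀ y : Fin l → Fin n → Bool, ∏ b, (if b = a then g else h) (y b) =
      g (y a) * ∏ b ∈ univ.erase a, h (y b) := by
    intro y
    rw [← mul_prod_erase univ _ (mem_univ a), if_pos rfl]
    congr 1
    refine prod_congr rfl fun b hb => ?_
    rw [if_neg (ne_of_mem_erase hb)]
  simp_rw [h2] at h1
  rw [h1, ← mul_prod_erase univ _ (mem_univ a), if_pos rfl]
  congr 1
  rw [prod_congr rfl fun b hb => by rw [if_neg (ne_of_mem_erase hb)]]
  rw [prod_const, card_erase_of_mem (mem_univ a), card_univ, Fintype.card_fin]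

theorem Ex_single (a : Fin l) (g : (Fin n → Bool) → ℝ) :
    Ex p (fun y => g (y a)) = E1 p g := by
  have h := Ex_mul_prod (p := p) a g (fun _ => 1)
  simp only [prod_const_one, mul_one, E1_one, one_pow] at h
  exact h

theorem Ex_pow (h : (Fin n → Bool) → ℝ) : Ex p (fun y : Fin l → Fin n → Bool => ∏ b, h (y b)) =
    E1 p h ^ l := by
  rw [Ex_prod (fun _ => h), prod_const, card_univ, Fintype.card_fin]

/-! ### Zeros -/

/-- The number of zeros of a bit string in a set of positions. -/
def zo (S : Finset (Fin n)) (x : Fin n → Bool) : ℕ := (S.filter fun i => x i = false).card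

/-- The number of zeros of a bit string. -/
def zeros (x : Fin n → Bool) : ℕ := zo univ x

theorem zeros_add_oneMax (x : Fin n → Bool) : zeros x + oneMax x = n := by
  unfold zeros zo oneMax
  have h := card_filter_add_card_filter_not (s := (univ : Finset (Fin n)))
    (fun i => x i = false)
  rw [card_univ, Fintype.card_fin] at h
  simpa using h

theorem zo_le (S : Finset (Fin n)) (x : Fin n → Bool) : zo S x ≤ S.card := card_filter_le _ _

theorem zeros_le (x : Fin n → Bool) : zeros x ≤ n := by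
  have := zeros_add_oneMax x; omega

theorem zo_add (S : Finset (Fin n)) (x : Fin n → Bool) : zo S x + zo Sᶜ x = zeros x := by
  unfold zeros zo
  rw [← card_union_of_disjoint, ← filter_union, union_compl]
  exact disjoint_filter_filter disjoint_compl_right

theorem zo_eq_sum (S : Finset (Fin n)) (x : Fin n → Bool) :
    (zo S x : ℝ) = ∑ i ∈ S, if x i = false then (1 : ℝ) else 0 := by
  unfold zo
  rw [← sum_filter, sum_const, nsmul_eq_mul, mul_one]

theorem E1_coord (i : Fin n) :
    E1 p (fun x => if x i = false then (1 : ℝ) else 0) = 1 - p i := by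
  have h := E1_prod (p := p) (fun j b => if j = i then (if b = false then (1 : ℝ) else 0) else 1)
  have h1 : ∀ x : Fin n → Bool, (∏ j, if j = i then (if x j = false then (1 : ℝ) else 0) else 1) =
      if x i = false then 1 else 0 := by
    intro x
    rw [prod_ite_eq' univ i]
    simp
  simp_rw [h1] at h
  rw [h, prod_eq_single i]
  · simp
  · intro j _ hj
    simp [hj]
  · simp

theorem E1_zo (S : Finset (Fin n)) : E1 p (fun x => (zo S x : ℝ)) = ∑ i ∈ S, (1 - p i) := by
  simp_rw [zo_eq_sum]
  rw [E1_sum]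
  exact sum_congr rfl fun i _ => E1_coord i

/-- The exponential moment. -/
theorem E1_exp (S : Finset (Fin n)) (t : ℝ) : E1 p (fun x => t ^ zo S x) =
    ∏ i ∈ S, (1 + (1 - p i) * (t - 1)) := by
  have h := E1_prod (p := p) (fun i b => if i ∈ S then (if b = false then t else 1) else 1)
  have h1 : ∀ x : Fin n → Bool, (∏ i, if i ∈ S then (if x i = false then t else 1) else 1) =
      t ^ zo S x := by
    intro x
    rw [prod_ite_mem, univ_inter, prod_ite, prod_const, prod_const_one, mul_one]
    rfl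
  simp_rw [h1] at h
  rw [h]
  rw [← univ_inter S, ← prod_ite_mem]
  refine prod_congr rfl fun i _ => ?_
  rw [univ_inter]
  by_cases hi : i ∈ S
  · simp only [hi, if_true]
    simp
    ring
  · simp [hi]

/-- A set `D` of positions is without zeros. -/
theorem E1_one_ind (D : Finset (Fin n)) :
    E1 p (fun x => ∏ i ∈ D, if x i = true then (1 : ℝ) else 0) = ∏ i ∈ D, p i := by
  have h := E1_prod (p := p) (fun j b => if j ∈ D then (if b = true then (1 : ℝ) else 0) else 1)
  simp only [if_true, Bool.false_eq_true, if_false] at h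
  have h1 : ∀ x : Fin n → Bool, (∏ j, if j ∈ D then (if x j = true then (1 : ℝ) else 0) else 1) =
      ∏ i ∈ D, if x i = true then (1 : ℝ) else 0 := by
    intro x
    rw [prod_ite_mem, univ_inter]
  simp_rw [h1] at h
  rw [h]
  have h2 : ∀ j, (p j * (if j ∈ D then (1 : ℝ) else 1) +
      (1 - p j) * (if j ∈ D then (0 : ℝ) else 1)) = if j ∈ D then p j else 1 := by
    intro j
    split_ifs <;> ring
  simp_rw [h2]
  rw [prod_ite_mem, univ_inter]

/-- A set `D` of positions is without zeros. -/
theorem E1_ind (S D : Finset (Fin n)) (c : ℝ) :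
    E1 p (fun x => (∏ i ∈ D, if x i = true then (1 : ℝ) else 0) * (c - zo S x)) =
      (∏ i ∈ D, p i) * (c - ∑ i ∈ S \ D, (1 - p i)) := by
  have hj : ∀ j, E1 p (fun x => (∏ i ∈ D, if x i = true then (1 : ℝ) else 0) *
      (if x j = false then (1 : ℝ) else 0)) = if j ∈ D then 0 else (∏ i ∈ D, p i) * (1 - p j) := by
    intro j
    have h := E1_prod (p := p) (fun i b => (if i ∈ D then (if b = true then (1 : ℝ) else 0) else 1) *
      (if i = j then (if b = false then (1 : ℝ) else 0) else 1))
    have h1 : ∀ x : Fin n → Bool, (∏ i, (if i ∈ D then (if x i = true then (1 : ℝ) else 0) else 1) *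
        (if i = j then (if x i = false then (1 : ℝ) else 0) else 1)) =
        (∏ i ∈ D, if x i = true then (1 : ℝ) else 0) * (if x j = false then (1 : ℝ) else 0) := by
      intro x
      rw [prod_mul_distrib, prod_ite_mem, univ_inter, prod_ite_eq' univ j]
      simp
    simp_rw [h1] at h
    rw [h]
    by_cases hjD : j ∈ D
    · rw [if_pos hjD]
      refine prod_eq_zero (mem_univ j) ?_
      simp [hjD]
    · rw [if_neg hjD]
      calc _ = ∏ i, ((if i ∈ D then p i else 1) * (if i = j then 1 - p j else 1)) := by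
            refine prod_congr rfl fun i _ => ?_
            by_cases hi : i = j
            · subst hi
              simp [hjD]
            · by_cases hiD : i ∈ D <;> simp [hi, hiD]
        _ = _ := by
            rw [prod_mul_distrib, prod_ite_mem, univ_inter, prod_ite_eq' univ j]
            simp
  calc E1 p (fun x => (∏ i ∈ D, if x i = true then (1 : ℝ) else 0) * (c - zo S x))
      = E1 p (fun x => c * (∏ i ∈ D, if x i = true then (1 : ℝ) else 0) -
          ∑ j ∈ S, (∏ i ∈ D, if x i = true then (1 : ℝ) else 0) *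
            (if x j = false then (1 : ℝ) else 0)) := by
        congr 1
        funext x
        rw [zo_eq_sum, ← mul_sum]
        ring
    _ = c * (∏ i ∈ D, p i) - ∑ j ∈ S, (if j ∈ D then 0 else (∏ i ∈ D, p i) * (1 - p j)) := by
        rw [E1_sub, E1_mul, E1_one_ind, E1_sum]
        simp_rw [hj]
    _ = (∏ i ∈ D, p i) * (c - ∑ i ∈ S \ D, (1 - p i)) := by
        have h3 : ∑ j ∈ S, (if j ∈ D then 0 else (∏ i ∈ D, p i) * (1 - p j)) =
            ∑ j ∈ S \ D, (∏ i ∈ D, p i) * (1 - p j) := by
          rw [← sum_filter_add_sum_filter_not S (fun j => j ∈ D)]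
          rw [sum_congr rfl fun j hj => if_pos (mem_filter.1 hj).2, sum_const_zero, zero_add,
            sum_congr rfl fun j hj => if_neg (mem_filter.1 hj).2]
          refine sum_congr ?_ fun _ _ => rfl
          ext j; simp
        rw [h3, ← mul_sum]
        ring

/-- The probability that a bit string has at most `j` zeros in `S`. -/
noncomputable def Pz (p : Fin n → ℝ) (S : Finset (Fin n)) (j : ℕ) : ℝ :=
  E1 p fun x => if zo S x ≤ j then (1 : ℝ) else 0

theorem Pz_nonneg (hp : P01 p) (S : Finset (Fin n)) (j : ℕ) : 0 ≤ Pz p S j :=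
  E1_nonneg hp fun x => by split_ifs <;> norm_num

theorem Pz_le_one (hp : P01 p) (S : Finset (Fin n)) (j : ℕ) : Pz p S j ≤ 1 := by
  rw [← E1_one (p := p)]
  exact E1_mono hp fun x => by split_ifs <;> norm_num

theorem Pz_mono (hp : P01 p) (S : Finset (Fin n)) {j j' : ℕ} (h : j ≤ j') :
    Pz p S j ≤ Pz p S j' := by
  refine E1_mono hp fun x => ?_
  by_cases h1 : zo S x ≤ j
  · rw [if_pos h1, if_pos (h1.trans h)]
  · rw [if_neg h1]
    split_ifs <;> norm_num

/-- Weight `t` for the bit strings with at most `j` zeros in `S`. -/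
theorem E1_two (S : Finset (Fin n)) (j : ℕ) (t : ℝ) :
    E1 p (fun x => if zo S x ≤ j then t else 1) = 1 - Pz p S j * (1 - t) := by
  have h : ∀ x : Fin n → Bool, (if zo S x ≤ j then t else 1) =
      1 - (1 - t) * (if zo S x ≤ j then (1 : ℝ) else 0) := by
    intro x
    split_ifs <;> ring
  simp_rw [h]
  rw [E1_sub, E1_one, E1_mul]
  unfold Pz
  ring

/-- The expectation of the positive part. -/
theorem E1_pos_eq (S : Finset (Fin n)) (c : ℕ) :
    E1 p (fun x => max ((c : ℝ) - zo S x) 0) = ∑ j ∈ range c, Pz p S j := by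
  unfold Pz
  rw [← E1_sum]
  congr 1
  funext x
  rw [← sum_filter, sum_const, nsmul_eq_mul, mul_one]
  have h : (range c).filter (fun j => zo S x ≤ j) = Ico (zo S x) c := by
    ext j
    rw [mem_filter, mem_range, mem_Ico]
    omega
  rw [h, Nat.card_Ico]
  rcases le_total (zo S x) c with hc | hc
  · rw [Nat.cast_sub hc, max_eq_left]
    rw [sub_nonneg]
    exact_mod_cast hc
  · rw [Nat.sub_eq_zero_of_le hc, max_eq_right]
    · simp
    · rw [sub_nonpos]
      exact_mod_cast hc

theorem E1_pos_ge (hp : P01 p) (S D : Finset (Fin n)) (c : ℝ) :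
    (∏ i ∈ D, p i) * (c - ∑ i ∈ S \ D, (1 - p i)) ≤ E1 p (fun x => max (c - zo S x) 0) := by
  rw [← E1_ind]
  refine E1_mono hp fun x => ?_
  have h1 : (0 : ℝ) ≤ ∏ i ∈ D, if x i = true then (1 : ℝ) else 0 :=
    prod_nonneg fun i _ => by split_ifs <;> norm_num
  have h2 : (∏ i ∈ D, if x i = true then (1 : ℝ) else 0) ≤ 1 :=
    prod_le_one (fun i _ => by split_ifs <;> norm_num) fun i _ => by split_ifs <;> norm_num
  calc (∏ i ∈ D, if x i = true then (1 : ℝ) else 0) * (c - zo S x)
      ≤ (∏ i ∈ D, if x i = true then (1 : ℝ) else 0) * max (c - zo S x) 0 :=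
        mul_le_mul_of_nonneg_left (le_max_left _ _) h1
    _ ≤ 1 * max (c - zo S x) 0 := mul_le_mul_of_nonneg_right h2 (le_max_right _ _)
    _ = _ := one_mul _

theorem Pz_ge (hp : P01 p) (S D : Finset (Fin n)) (j : ℕ) :
    (∏ i ∈ D, p i) * ((j + 1 : ℕ) - ∑ i ∈ S \ D, (1 - p i)) ≤ (j + 1 : ℕ) * Pz p S j := by
  refine (E1_pos_ge hp S D _).trans ?_
  rw [E1_pos_eq]
  calc ∑ i ∈ range (j + 1), Pz p S i ≤ ∑ i ∈ range (j + 1), Pz p S j :=
        sum_le_sum fun i hi => Pz_mono hp S (by rw [mem_range] at hi; omega)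
    _ = _ := by rw [sum_const, card_range, nsmul_eq_mul]

theorem Pz_zero_ge (hp : P01 p) (S : Finset (Fin n)) (j : ℕ) :
    ∏ i ∈ S, p i ≤ Pz p S j := by
  rw [← E1_one_ind]
  refine E1_mono hp fun x => ?_
  by_cases h : ∀ i ∈ S, x i = true
  · have h1 : zo S x = 0 := by
      unfold zo
      rw [card_eq_zero, filter_eq_empty_iff]
      intro i hi
      simp [h i hi]
    rw [if_pos (by omega)]
    exact prod_le_one (fun i _ => by split_ifs <;> norm_num) fun i _ => by split_ifs <;> norm_num
  · push Not at h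
    obtain ⟨i, hi, hxi⟩ := h
    rw [prod_eq_zero hi (if_neg hxi)]
    split_ifs <;> norm_num

end Pool.Agent.H80.UM
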