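import Pool.Agent.H80.UM.LemE

/-!
# The first step from a clean state: the decrease
-/

set_option linter.unusedSectionVars false

namespace Pool.Agent.H80.UM

open Finset Classical

variable {n l m T J : ℕ} {G pm H : ℝ} {e : ℕ → ℝ}

/-- The decrease of the stopped process from a clean state. -/
theorem Par.first (P : Par n l m T J G pm H e) (R : TieRule n l m) (h : History n l)
    {x : Fin n → ℕ} (hx : Clean m x) (hx0 : ∃ i, x i = m) :
    K R (W R T) h x ≤ sv m x - 1 / (8 * (n * m)) := by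
  have hm0 := P.hm0
  have hn0 := P.hn0
  have hl0 := P.hl0
  have hH := P.hH
  have hl1 : 1 ≤ l := by have := P.hml'; have := P.hm; omega
  set L : Finset (Fin n) := univ.filter fun i => x i = m with hL
  have htop : ∀ i ∈ L, x i = m := fun i hi => (mem_filter.1 hi).2
  have hzero : ∀ i, i ∉ L → x i = 0 := by
    intro i hi
    rcases hx i with h1 | h1
    · exact h1
    · exact absurd (by rw [hL, mem_filter]; exact ⟨mem_univ _, h1⟩) hi
  have hk1 : 1 ≤ L.card := by
    obtain ⟨i, hi⟩ := hx0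
    exact card_pos.2 ⟨i, mem_filter.2 ⟨mem_univ _, hi⟩⟩
  have hX : XX m L x = 0 := by
    rw [Abv.XX_eq P.hm htop]
    refine sum_eq_zero fun i hi => ?_
    rw [hzero i (mem_compl.1 hi)]
    simp
  have hsv : sv m x = L.card := by
    unfold XX at hX
    linarith
  have hAbv : Abv m L x := ⟨htop, fun i hi => by rw [hzero i hi]; omega⟩
  have hp := freq_P01 (m := m) P.hn x
  set g : ℝ := l * L.card / n with hg
  have hg0 : 0 ≤ g := by positivity
  set E : ℝ := Real.exp (-(pm / 16 * l)) with hE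
  have hE0 : 0 < E := Real.exp_pos _
  set de : ℝ := Real.exp (-(8 * G * l)) with hde
  have hde0 : 0 < de := Real.exp_pos _
  set F : ℝ := Real.exp (-(l * H)) with hF
  have hF0 : 0 < F := Real.exp_pos _
  set e1 : ℝ := Real.exp (m - (l - 1) / 8) with he1
  have he10 : 0 < e1 := Real.exp_pos _
  have hal : 0 ≤ n * (E ^ T + T * F) := by positivity
  have hbe : 0 ≤ n * T * de + T * g * (1 + T) := by positivity
  have hc : 0 ≤ T * g := by positivity
  -- probability that there are no zeros outside of `L`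
  have hq : 1 / 4 ≤ ∏ i ∈ Lᶜ, freq m x i := quarter_le P.hn _ fun i hi =>
    freq_zero P.hn (hzero i (mem_compl.1 hi))
  have hP : 1 / 4 ≤ Pz (freq m x) Lᶜ 0 := hq.trans (Pz_zero_ge hp Lᶜ 0)
  have hP' : 1 / 4 ≤ Pz (freq m x) univ L.card := by
    refine hP.trans (E1_mono hp fun x => ?_)
    by_cases h1 : zo Lᶜ x ≤ 0
    · have h2 := zo_add L x
      have h3 := zo_le L x
      unfold zeros at h2
      rw [if_pos h1, if_pos (by omega)]
    · rw [if_neg h1]
      split_ifs <;> norm_num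
  have hcast : ((l - 1 : ℕ) : ℝ) = l - 1 := by
    rw [Nat.cast_sub hl1]
    simp
  have hexp : ∀ q : ℝ, 1 / 4 ≤ q → 2 ^ m * Real.exp (-((l - 1 : ℕ) * (q / 2))) ≤ e1 := by
    intro q hq
    calc 2 ^ m * Real.exp (-((l - 1 : ℕ) * (q / 2)))
        ≤ Real.exp m * Real.exp (-((l - 1 : ℕ) * (q / 2))) :=
          mul_le_mul_of_nonneg_right (two_pow_le_exp m) (Real.exp_pos _).le
      _ ≤ e1 := by
          rw [← Real.exp_add, he1]
          refine Real.exp_le_exp.2 ?_
          rw [hcast]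
          have h1 : (1 : ℝ) ≤ l := by exact_mod_cast hl1
          nlinarith
  -- the special offspring
  set a0 : Fin l := ⟨0, hl1⟩ with ha0
  set k : ℕ := L.card with hk
  have h1 : K R (W R T) h x ≤ Ex (l := l) (freq m x) (fun y => (k : ℝ) +
      ((-(1 / m)) * max ((k : ℝ) - zo univ (y a0)) 0 +
      (1 / m) * (max ((k : ℝ) - zo univ (y a0)) 0 * (if N univ k y < m then (1 : ℝ) else 0)) +
      (if gain L y then (1 : ℝ) else 0) * ((if N Lᶜ 0 y < m then (1 : ℝ) else 0) * Zb L y) +
      n * (if ∃ i ∈ Lᶜ, e T * l < col i y then (1 : ℝ) else 0) +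
      (n * (E ^ T + T * F)) * GG L m J H y + n * T * de +
      (T * g * (1 + T)) * (if N Lᶜ 0 y < m then (1 : ℝ) else 0) +
      (T * g) * ((if N Lᶜ 0 y < m then (1 : ℝ) else 0) * Zb L y))) := by
    refine K_le P.hn fun y A hA => ?_
    have hZ := Zb_nonneg L y
    have hGG := GG_nonneg L m J H y
    have hM : 0 ≤ max ((k : ℝ) - zo univ (y a0)) 0 := le_max_right _ _
    have ht7 : (0 : ℝ) ≤ n * (if ∃ i ∈ Lᶜ, e T * l < col i y then (1 : ℝ) else 0) := by
      split_ifs <;> simp
    have ht8 := mul_nonneg hal hGG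
    rcases lt_or_ge (N univ k y) m with hN | hN
    · have hN' : N Lᶜ 0 y < m := by
        refine lt_of_le_of_lt (card_le_card fun a ha => ?_) hN
        rw [mem_filter] at ha ⊢
        refine ⟨ha.1, ?_⟩
        have h2 := zo_add L (y a)
        have h3 := zo_le L (y a)
        have h4 := ha.2
        unfold zeros at h2
        omega
      have h2 := P.point hal hbe hc (P.claim R L T le_rfl) ((y, A) :: h) hA hN'
      rw [if_pos hN, if_pos hN']
      simp only [one_mul, mul_one]
      linarith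
    · have h2 := sv_cnt_le_pos P.hm hA hN a0
      have h3 := P.W_le_sv R T ((y, A) :: h) (val_cnt hA)
      have hI : (0 : ℝ) ≤ if N Lᶜ 0 y < m then (1 : ℝ) else 0 := by split_ifs <;> norm_num
      have h6 : 0 ≤ (if gain L y then (1 : ℝ) else 0) *
          ((if N Lᶜ 0 y < m then (1 : ℝ) else 0) * Zb L y) :=
        mul_nonneg (by split_ifs <;> norm_num) (mul_nonneg hI hZ)
      have h7 : 0 ≤ (T * g * (1 + T)) * (if N Lᶜ 0 y < m then (1 : ℝ) else 0) :=
        mul_nonneg (by positivity) hI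
      have h8 : 0 ≤ (T * g) * ((if N Lᶜ 0 y < m then (1 : ℝ) else 0) * Zb L y) :=
        mul_nonneg hc (mul_nonneg hI hZ)
      have h9 : (0 : ℝ) ≤ n * T * de := by positivity
      rw [if_neg (not_lt.2 hN), mul_zero, mul_zero]
      linarith
  rw [Ex_add, Ex_add, Ex_add, Ex_add, Ex_add, Ex_add, Ex_add, Ex_add, Ex_const, Ex_const,
    Ex_mul, Ex_mul, Ex_mul, Ex_mul, Ex_mul, Ex_mul] at h1
  set Ep : ℝ := E1 (freq m x) (fun x => max ((k : ℝ) - zo univ x) 0) with hEp
  have h2 : Ex (l := l) (freq m x) (fun y => max ((k : ℝ) - zo univ (y a0)) 0) = Ep :=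
    Ex_single a0 (fun x => max ((k : ℝ) - zo univ x) 0)
  have hEp0 : 0 ≤ Ep := E1_nonneg hp fun x => le_max_right _ _
  have hEpk : k / (4 * n) ≤ Ep := by
    refine le_trans ?_ (E1_pos_ge hp univ Lᶜ k)
    have h3 : univ \ Lᶜ = L := by
      ext i; simp
    have h4 : ∑ i ∈ L, (1 - freq m x i) = k - k / n := by
      rw [sum_congr rfl fun i hi => by rw [freq_top P.hm (htop i hi)], sum_const, nsmul_eq_mul]
      ring
    rw [h3, h4]
    have h5 : (k : ℝ) - (k - k / n) = k / n := by ring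
    rw [h5]
    calc (k : ℝ) / (4 * n) = 1 / 4 * (k / n) := by field_simp
      _ ≤ _ := mul_le_mul_of_nonneg_right hq (by positivity)
  have h3 : Ex (l := l) (freq m x) (fun y => max ((k : ℝ) - zo univ (y a0)) 0 *
      (if N univ k y < m then (1 : ℝ) else 0)) ≤ e1 * Ep :=
    (Ex_pos_lt hp k a0).trans (mul_le_mul_of_nonneg_right (hexp _ hP') hEp0)
  have hsum : ∑ i ∈ Lᶜ, (1 - freq m x i) ≤ 1 := by
    have := sum_compl_le P.hn P.hm htop
    rw [hX] at this
    linarith
  have hsum0 : 0 ≤ ∑ i ∈ Lᶜ, (1 - freq m x i) :=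
    sum_nonneg fun i _ => one_sub_freq_nonneg P.hn x i
  have h4 : Ex (l := l) (freq m x) (fun y => (if N Lᶜ 0 y < m then (1 : ℝ) else 0) * Zb L y) ≤
      e1 := by
    refine (Ex_Zb_lt hl1 hp L).trans ?_
    calc _ ≤ e1 * 1 := mul_le_mul (hexp _ hP) hsum hsum0 he10.le
      _ = e1 := mul_one _
  have h5 : Ex (l := l) (freq m x) (fun y => (if gain L y then (1 : ℝ) else 0) *
      ((if N Lᶜ 0 y < m then (1 : ℝ) else 0) * Zb L y)) ≤ g * e1 := by
    refine (Ex_gain_le hp (fun i hi => freq_top P.hm (htop i hi))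
      (fun y => (if N Lᶜ 0 y < m then (1 : ℝ) else 0) * Zb L y)
      (fun y => mul_nonneg (by split_ifs <;> norm_num) (Zb_nonneg L y))
      (fun b i hi y => ?_)).trans (mul_le_mul_of_nonneg_left h4 hg0)
    rw [Zb_flip hi, N_flip (by rw [mem_compl]; exact fun hh => hh hi)]
  have h6 : Ex (l := l) (freq m x)
      (fun y => if ∃ i ∈ Lᶜ, e T * l < col i y then (1 : ℝ) else 0) ≤ de :=
    P.tower fun i hi => by
      rw [freq_zero P.hn (hzero i (mem_compl.1 hi))]
      exact P.he3 T le_rfl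
  have h7 : Ex (l := l) (freq m x) (GG L m J H) ≤ 1 := by
    have hpm' : pm ≤ Real.exp (-(Real.log 4 * (XX m L x + 1))) := by
      refine P.hpm.trans (Real.exp_le_exp.2 (neg_le_neg ?_))
      refine mul_le_mul_of_nonneg_left ?_ (Real.log_nonneg (by norm_num))
      rw [hX, zero_add]
      exact Real.one_le_exp (by linarith)
    refine (hAbv.Ex_GG P.hn P.hm P.hmn P.hml P.hpm0 P.hpm1 hpm' P.hB H P.hJ).trans ?_
    have h8 : hh H (XX m L x) = 0 := by
      rw [hX]
      unfold hh
      rw [add_zero, Real.log_one, zero_div, min_eq_left hH]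
    rw [h8, mul_zero, Real.exp_zero, mul_one]
    refine Real.exp_le_one_iff.2 ?_
    have := P.hpm0
    have : 0 ≤ pm / 16 * l := by positivity
    linarith
  have h8 : Ex (l := l) (freq m x) (fun y => if N Lᶜ 0 y < m then (1 : ℝ) else 0) ≤ e1 := by
    refine (Ex_N_lt hp Lᶜ 0).trans ?_
    rw [he1]
    refine Real.exp_le_exp.2 ?_
    nlinarith
  rw [h2] at h1
  have hk1' : (1 : ℝ) ≤ k := by exact_mod_cast hk1
  have hfin1 := P.hfin1
  have hfin2 := P.hfin2
  have hfin3 := P.hfin3
  rw [← he1] at hfin1 hfin2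
  -- the sum of the errors
  have hm' : (0 : ℝ) < 1 / m := by positivity
  have h9 := mul_le_mul_of_nonneg_left h3 hm'.le
  have h10 := mul_le_mul_of_nonneg_left h6 hn0.le
  have h11 := mul_le_mul_of_nonneg_left h7 hal
  have h12 : (T * g * (1 + T)) * Ex (l := l) (freq m x)
      (fun y => if N Lᶜ 0 y < m then (1 : ℝ) else 0) ≤ (T * g * (1 + T)) * e1 :=
    mul_le_mul_of_nonneg_left h8 (by positivity)
  have h13 := mul_le_mul_of_nonneg_left h4 hc
  have h14 : g * e1 * (1 + T * (T + 2)) ≤ k / (32 * (n * m)) := by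
    calc g * e1 * (1 + T * (T + 2)) = k / n * (e1 * (l * (1 + T * (T + 2)))) := by
          rw [hg]; ring
      _ ≤ k / n * (1 / (32 * m)) := mul_le_mul_of_nonneg_left hfin2 (by positivity)
      _ = _ := by field_simp
  have h15 : 3 / 16 * (k / (n * m)) ≤ 1 / m * ((1 - e1) * Ep) := by
    calc 3 / 16 * ((k : ℝ) / (n * m)) = 1 / m * ((3 / 4) * (k / (4 * n))) := by
          field_simp
          norm_num
      _ ≤ _ := by
          refine mul_le_mul_of_nonneg_left ?_ hm'.le
          exact mul_le_mul (by linarith) hEpk (by positivity) (by linarith)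
  have h16 : (k : ℝ) / (32 * (n * m)) = 1 / 32 * (k / (n * m)) := by field_simp
  have h17 : (1 : ℝ) / (32 * (n * m)) = 1 / 32 * (1 / (n * m)) := by field_simp
  have h18 : (1 : ℝ) / (8 * (n * m)) = 1 / 8 * (1 / (n * m)) := by field_simp
  have h19 : (1 : ℝ) / (n * m) ≤ k / (n * m) := by
    gcongr
  rw [h16] at h14
  rw [h17] at hfin3
  rw [hsv, h18]
  linarith

end Pool.Agent.H80.UM
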