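import Pool.Agent.H80.UM.LemD

/-!
# The rare events
-/

set_option linter.unusedSectionVars false

namespace Pool.Agent.H80.UM

open Finset Classical

variable {n l m : ℕ}

/-- Flip one bit of one offspring. -/
def flip (b : Fin l) (i : Fin n) (y : Fin l → Fin n → Bool) : Fin l → Fin n → Bool :=
  Function.update y b (Function.update (y b) i (!(y b i)))

theorem flip_flip (b : Fin l) (i : Fin n) (y : Fin l → Fin n → Bool) :
    flip b i (flip b i y) = y := by
  unfold flip
  funext a j
  by_cases ha : a = b
  · subst ha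
    by_cases hj : j = i
    · subst hj; simp
    · simp
  · simp [ha]

/-- Flipping as a bijection. -/
def flipEquiv (b : Fin l) (i : Fin n) : (Fin l → Fin n → Bool) ≃ (Fin l → Fin n → Bool) where
  toFun := flip b i
  invFun := flip b i
  left_inv := flip_flip b i
  right_inv := flip_flip b i

theorem flip_weight {p : Fin n → ℝ} (b : Fin l) (i : Fin n) (y : Fin l → Fin n → Bool)
    (hy : y b i = true) :
    (1 - p i) * ∏ a, prob p (y a) = p i * ∏ a, prob p (flip b i y a) := by
  rw [← mul_prod_erase univ (fun a => prob p (y a)) (mem_univ b),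
    ← mul_prod_erase univ (fun a => prob p (flip b i y a)) (mem_univ b)]
  have h1 : ∏ a ∈ univ.erase b, prob p (flip b i y a) = ∏ a ∈ univ.erase b, prob p (y a) := by
    refine prod_congr rfl fun a ha => ?_
    unfold flip
    rw [Function.update_of_ne (ne_of_mem_erase ha)]
  have h2 : (1 - p i) * prob p (y b) = p i * prob p (flip b i y b) := by
    unfold prob flip
    rw [Function.update_self]
    rw [← mul_prod_erase univ _ (mem_univ i), ← mul_prod_erase univ
      (fun j => if Function.update (y b) i (!(y b i)) j = true then p j else 1 - p j) (mem_univ i)]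
    rw [prod_congr (g := fun j => if y b j = true then p j else 1 - p j) rfl
      (f := fun j => if Function.update (y b) i (!(y b i)) j = true then p j else 1 - p j)
      fun j hj => by rw [Function.update_of_ne (ne_of_mem_erase hj)]]
    rw [Function.update_self, hy]
    simp only [if_true, Bool.not_true, Bool.false_eq_true, if_false]
    ring
  rw [h1, ← mul_assoc, h2]
  ring

/-- A bit is independent of a function of the other bits. -/
theorem Ex_bit {p : Fin n → ℝ} (b : Fin l) (i : Fin n) (G : (Fin l → Fin n → Bool) → ℝ)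
    (hG : ∀ y, G (flip b i y) = G y) :
    Ex p (fun y => (if y b i = true then (1 : ℝ) else 0) * G y) = p i * Ex p G := by
  have h1 : (1 - p i) * Ex p (fun y => (if y b i = true then (1 : ℝ) else 0) * G y) =
      p i * Ex p (fun y => (if y b i = false then (1 : ℝ) else 0) * G y) := by
    unfold Ex
    rw [mul_sum, mul_sum]
    rw [← Equiv.sum_comp (flipEquiv b i) (fun y => p i * ((∏ a, prob p (y a)) *
      ((if y b i = false then (1 : ℝ) else 0) * G y)))]
    refine sum_congr rfl fun y _ => ?_
    have h2 : (flipEquiv b i) y = flip b i y := rfl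
    rw [h2]
    have h3 : flip b i y b i = !(y b i) := by unfold flip; simp
    rw [h3, hG]
    by_cases hy : y b i = true
    · have := flip_weight (p := p) b i y hy
      simp only [hy, if_true, Bool.not_true, one_mul]
      rw [← mul_assoc, this]
      ring
    · have hy' : y b i = false := by simpa using hy
      simp [hy']
  have h4 : Ex p (fun y => (if y b i = true then (1 : ℝ) else 0) * G y) +
      Ex p (fun y => (if y b i = false then (1 : ℝ) else 0) * G y) = Ex p G := by
    rw [← Ex_add]
    congr 1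
    funext y
    cases y b i <;> simp
  linear_combination h1 + p i * h4

/-- The number of zeros in `S` does not depend on the other positions. -/
theorem zo_flip {S : Finset (Fin n)} {b : Fin l} {i : Fin n} (hi : i ∉ S)
    (y : Fin l → Fin n → Bool) (a : Fin l) : zo S (flip b i y a) = zo S (y a) := by
  unfold zo
  congr 1
  refine filter_congr fun j hj => ?_
  unfold flip
  by_cases ha : a = b
  · subst ha
    have hji : j ≠ i := fun h => hi (h ▸ hj)
    rw [Function.update_self, Function.update_of_ne hji]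
  · rw [Function.update_of_ne ha]

theorem N_flip {S : Finset (Fin n)} {b : Fin l} {i : Fin n} (hi : i ∉ S)
    (y : Fin l → Fin n → Bool) (j : ℕ) : N S j (flip b i y) = N S j y := by
  unfold N
  congr 1
  refine filter_congr fun a _ => ?_
  rw [zo_flip hi]

/-- Some offspring has a one in `L`. -/
def gain (L : Finset (Fin n)) (y : Fin l → Fin n → Bool) : Prop := ∃ b, ∃ i ∈ L, y b i = true

/-- The average number of zeros outside of `L`. -/
noncomputable def Zb (L : Finset (Fin n)) (y : Fin l → Fin n → Bool) : ℝ :=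
  (1 / l : ℝ) * ∑ a, (zo Lᶜ (y a) : ℝ)

theorem Zb_nonneg (L : Finset (Fin n)) (y : Fin l → Fin n → Bool) : 0 ≤ Zb L y := by
  unfold Zb; positivity

theorem Zb_flip {L : Finset (Fin n)} {b : Fin l} {i : Fin n} (hi : i ∈ L)
    (y : Fin l → Fin n → Bool) : Zb L (flip b i y) = Zb L y := by
  unfold Zb
  congr 1
  refine sum_congr rfl fun a _ => ?_
  rw [zo_flip]
  rw [mem_compl]
  exact fun h => h hi

theorem Ex_gain_le {p : Fin n → ℝ} (hp : P01 p) {L : Finset (Fin n)}
    (hL : ∀ i ∈ L, p i = 1 / n) (G : (Fin l → Fin n → Bool) → ℝ) (hG0 : ∀ y, 0 ≤ G y)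
    (hG : ∀ (b : Fin l), ∀ i ∈ L, ∀ y, G (flip b i y) = G y) :
    Ex p (fun y => (if gain L y then (1 : ℝ) else 0) * G y) ≤ l * L.card / n * Ex p G := by
  calc Ex p (fun y => (if gain L y then (1 : ℝ) else 0) * G y)
      ≤ Ex p (fun y => ∑ b : Fin l, ∑ i ∈ L, (if y b i = true then (1 : ℝ) else 0) * G y) := by
        refine Ex_mono hp fun y => ?_
        have h0 : ∀ b : Fin l, ∀ i ∈ L, 0 ≤ (if y b i = true then (1 : ℝ) else 0) * G y :=
          fun b i _ => mul_nonneg (by split_ifs <;> norm_num) (hG0 y)
        by_cases hg : gain L y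
        · rw [if_pos hg, one_mul]
          obtain ⟨b, i, hi, hbi⟩ := hg
          calc G y = (if y b i = true then (1 : ℝ) else 0) * G y := by rw [if_pos hbi, one_mul]
            _ ≤ ∑ i ∈ L, (if y b i = true then (1 : ℝ) else 0) * G y :=
              single_le_sum (f := fun i => (if y b i = true then (1 : ℝ) else 0) * G y)
                (h0 b) hi
            _ ≤ _ := single_le_sum (f := fun b => ∑ i ∈ L,
                (if y b i = true then (1 : ℝ) else 0) * G y)
                (fun b _ => sum_nonneg (h0 b)) (mem_univ b)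
        · rw [if_neg hg, zero_mul]
          exact sum_nonneg fun b _ => sum_nonneg (h0 b)
    _ = ∑ b : Fin l, ∑ i ∈ L, (1 / n : ℝ) * Ex p G := by
        rw [Ex_sum]
        refine sum_congr rfl fun b _ => ?_
        rw [Ex_sum]
        refine sum_congr rfl fun i hi => ?_
        rw [Ex_bit b i G (hG b i hi), hL i hi]
    _ = _ := by
        rw [sum_const, sum_const, card_univ, Fintype.card_fin, nsmul_eq_mul, nsmul_eq_mul]
        ring

theorem Ex_Zb (hl : 1 ≤ l) {p : Fin n → ℝ} (L : Finset (Fin n)) :
    Ex (l := l) p (Zb L) = ∑ i ∈ Lᶜ, (1 - p i) := by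
  have hl0 : (l : ℝ) ≠ 0 := by positivity
  unfold Zb
  rw [Ex_mul, Ex_sum]
  have h2 : ∀ a : Fin l, Ex (l := l) p (fun y => (zo Lᶜ (y a) : ℝ)) =
      ∑ i ∈ Lᶜ, (1 - p i) := by
    intro a
    rw [Ex_single a (fun x => (zo Lᶜ x : ℝ))]
    exact E1_zo Lᶜ
  simp_rw [h2]
  rw [sum_const, card_univ, Fintype.card_fin, nsmul_eq_mul, ← mul_assoc, one_div,
    inv_mul_cancel₀ hl0, one_mul]

/-- The average number of zeros if few offspring have no zeros. -/
theorem Ex_Zb_lt (hl : 1 ≤ l) {p : Fin n → ℝ} (hp : P01 p) (L : Finset (Fin n)) :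
    Ex (l := l) p (fun y => (if N Lᶜ 0 y < m then (1 : ℝ) else 0) * Zb L y) ≤
      2 ^ m * Real.exp (-((l - 1 : ℕ) * (Pz p Lᶜ 0 / 2))) * ∑ i ∈ Lᶜ, (1 - p i) := by
  have hl0 : (l : ℝ) ≠ 0 := by positivity
  calc Ex (l := l) p (fun y => (if N Lᶜ 0 y < m then (1 : ℝ) else 0) * Zb L y)
      ≤ Ex (l := l) p (fun y => (1 / l : ℝ) * ∑ a, (zo Lᶜ (y a) : ℝ) *
          (∏ b ∈ univ.erase a, (if zo Lᶜ (y b) ≤ 0 then (1 / 2 : ℝ) else 1)) * 2 ^ m) := by
        refine Ex_mono hp fun y => ?_
        unfold Zb
        by_cases h : N Lᶜ 0 y < m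
        · rw [if_pos h, one_mul]
          refine mul_le_mul_of_nonneg_left (sum_le_sum fun a _ => ?_) (by positivity)
          have h1 := one_le_of_lt h a
          calc (zo Lᶜ (y a) : ℝ) = (zo Lᶜ (y a) : ℝ) * 1 := (mul_one _).symm
            _ ≤ (zo Lᶜ (y a) : ℝ) * (2 ^ m *
                ∏ b ∈ univ.erase a, (if zo Lᶜ (y b) ≤ 0 then (1 / 2 : ℝ) else 1)) :=
                mul_le_mul_of_nonneg_left h1 (by positivity)
            _ = _ := by ring
        · rw [if_neg h, zero_mul]
          refine mul_nonneg (by positivity) (sum_nonneg fun a _ => ?_)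
          refine mul_nonneg (mul_nonneg (by positivity) (prod_nonneg fun b _ => ?_)) (by positivity)
          split_ifs <;> norm_num
    _ ≤ (1 / l : ℝ) * ∑ _a : Fin l, 2 ^ m * Real.exp (-((l - 1 : ℕ) * (Pz p Lᶜ 0 / 2))) *
          ∑ i ∈ Lᶜ, (1 - p i) := by
        rw [Ex_mul, Ex_sum]
        refine mul_le_mul_of_nonneg_left (sum_le_sum fun a _ => ?_) (by positivity)
        refine (Ex_half_le hp Lᶜ 0 a (fun x => (zo Lᶜ x : ℝ)) (fun x => by positivity)).trans ?_
        rw [E1_zo]
    _ = _ := by
        rw [sum_const, card_univ, Fintype.card_fin, nsmul_eq_mul, ← mul_assoc, one_div,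
          inv_mul_cancel₀ hl0, one_mul]

end Pool.Agent.H80.UM
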