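import Pool.Agent.H80.UM.Tail

/-!
# The exponential potential
-/

set_option linter.unusedSectionVars false

namespace Pool.Agent.H80.UM

open Finset Classical

variable {n l m : ℕ}

/-- All positions in `L` are lost and at most half of the selected offspring have a zero at each
other position. -/
structure Abv (m : ℕ) (L : Finset (Fin n)) (z : Fin n → ℕ) : Prop where
  top : ∀ i ∈ L, z i = m
  low : ∀ i, i ∉ L → 2 * z i ≤ m

/-- The average number of zeros at positions outside of `L`. -/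
noncomputable def XX (m : ℕ) (L : Finset (Fin n)) (z : Fin n → ℕ) : ℝ := sv m z - L.card

theorem Abv.XX_eq (hm : 1 ≤ m) {L : Finset (Fin n)} {z : Fin n → ℕ} (h : ∀ i ∈ L, z i = m) :
    XX m L z = ∑ i ∈ Lᶜ, (z i : ℝ) / m := by
  have hm0 : (m : ℝ) ≠ 0 := by positivity
  unfold XX sv
  rw [sum_div, ← sum_add_sum_compl L]
  have h1 : ∑ i ∈ L, (z i : ℝ) / m = L.card := by
    rw [sum_congr rfl fun i hi => by rw [h i hi, div_self hm0], sum_const, nsmul_eq_mul,
      mul_one]
  rw [h1]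
  ring

theorem XX_nonneg (hm : 1 ≤ m) {L : Finset (Fin n)} {z : Fin n → ℕ} (h : ∀ i ∈ L, z i = m) :
    0 ≤ XX m L z := by
  rw [Abv.XX_eq hm h]
  exact sum_nonneg fun i _ => by positivity

theorem sum_compl_le (hn : 2 ≤ n) (hm : 1 ≤ m) {L : Finset (Fin n)} {z : Fin n → ℕ}
    (h : ∀ i ∈ L, z i = m) : ∑ i ∈ Lᶜ, (1 - freq m z i) ≤ XX m L z + 1 := by
  have hn0 : (0 : ℝ) < n := by exact_mod_cast (by omega : 0 < n)
  rw [Abv.XX_eq hm h]
  calc ∑ i ∈ Lᶜ, (1 - freq m z i) ≤ ∑ i ∈ Lᶜ, ((z i : ℝ) / m + 1 / n) :=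
        sum_le_sum fun i _ => one_sub_freq_le hn hm z i
    _ = ∑ i ∈ Lᶜ, (z i : ℝ) / m + (Lᶜ).card * (1 / n) := by
        rw [sum_add_distrib, sum_const, nsmul_eq_mul]
    _ ≤ _ := by
        have h1 : ((Lᶜ).card : ℝ) ≤ n := by
          have := card_le_univ (Lᶜ)
          rw [Fintype.card_fin] at this
          exact_mod_cast this
        have h2 : ((Lᶜ).card : ℝ) * (1 / n) ≤ 1 := by
          rw [mul_one_div, div_le_one hn0]
          exact h1
        linarith

theorem Abv.le_half (hn : 2 ≤ n) (hm : 1 ≤ m) (hmn : m ≤ n) {L : Finset (Fin n)} {z : Fin n → ℕ}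
    (h : Abv m L z) {i : Fin n} (hi : i ∉ L) : 1 - freq m z i ≤ 1 / 2 := by
  have hm0 : (0 : ℝ) < m := by exact_mod_cast hm
  have hn0 : (2 : ℝ) ≤ n := by exact_mod_cast hn
  have h1 := h.low i hi
  rcases Nat.eq_zero_or_pos (z i) with h0 | h0
  · rw [freq_zero hn h0]
    exact one_div_le_one_div_of_le (by norm_num) hn0
  · refine (one_sub_freq_le' hn hm hmn h0 (by omega)).trans ?_
    rw [div_le_div_iff₀ hm0 (by norm_num)]
    have : (2 : ℝ) * z i ≤ m := by exact_mod_cast h1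
    linarith

/-- The probability of no zeros outside of `L`. -/
theorem Abv.Pz_ge_exp (hn : 2 ≤ n) (hm : 1 ≤ m) (hmn : m ≤ n) {L : Finset (Fin n)} {z : Fin n → ℕ}
    (h : Abv m L z) (j : ℕ) :
    Real.exp (-(Real.log 4 * (XX m L z + 1))) ≤ Pz (freq m z) Lᶜ j := by
  refine le_trans ?_ (Pz_zero_ge (freq_P01 hn z) Lᶜ j)
  refine le_trans ?_ (prod_ge Lᶜ fun i hi => ⟨one_sub_freq_nonneg hn z i,
    h.le_half hn hm hmn (mem_compl.1 hi)⟩)
  refine Real.exp_le_exp.2 (neg_le_neg ?_)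
  exact mul_le_mul_of_nonneg_left (sum_compl_le hn hm h.top) (Real.log_nonneg (by norm_num))

theorem Abv.Pz_ge (hn : 2 ≤ n) (hm : 1 ≤ m) (hmn : m ≤ n) {L : Finset (Fin n)} {z : Fin n → ℕ}
    (h : Abv m L z) (j : ℕ) (hj : XX m L z ≤ j + 1) :
    1 / 4 * (j + 1 - XX m L z) ≤ (j + 1) * Pz (freq m z) Lᶜ j := by
  have h1 := UM.Pz_ge (freq_P01 (m := m) hn z) Lᶜ (univ.filter fun i => z i = 0) j
  push_cast at h1
  refine le_trans ?_ h1
  have h2 : 1 / 4 ≤ ∏ i ∈ univ.filter (fun i => z i = 0), freq m z i :=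
    quarter_le hn _ fun i hi => freq_zero hn (mem_filter.1 hi).2
  have h3 : ∑ i ∈ Lᶜ \ univ.filter (fun i => z i = 0), (1 - freq m z i) ≤ XX m L z := by
    rw [Abv.XX_eq hm h.top]
    calc ∑ i ∈ Lᶜ \ univ.filter (fun i => z i = 0), (1 - freq m z i)
        ≤ ∑ i ∈ Lᶜ \ univ.filter (fun i => z i = 0), (z i : ℝ) / m := by
          refine sum_le_sum fun i hi => ?_
          rw [mem_sdiff, mem_compl, mem_filter] at hi
          have h4 : z i ≠ 0 := fun hh => hi.2 ⟨mem_univ _, hh⟩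
          have h5 := h.low i hi.1
          exact one_sub_freq_le' hn hm hmn (by omega) (by omega)
      _ ≤ _ := sum_le_sum_of_subset_of_nonneg sdiff_subset fun i _ _ => by positivity
  exact mul_le_mul h2 (by linarith) (by linarith) (by linarith)

/-- The exponent of the potential. -/
noncomputable def hh (H X : ℝ) : ℝ := min (Real.log (1 + X) / 144) H

theorem hh_mono (H : ℝ) {X Y : ℝ} (hX : 0 ≤ X) (h : X ≤ Y) : hh H X ≤ hh H Y := by
  unfold hh
  refine min_le_min_right _ ?_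
  have := Real.log_le_log (by linarith : 0 < 1 + X) (by linarith : 1 + X ≤ 1 + Y)
  linarith

theorem hh_le (H X : ℝ) : hh H X ≤ H := min_le_right _ _

theorem hh_le_add (H : ℝ) {X Y : ℝ} (hX : 0 ≤ X) (h : X ≤ Y) :
    hh H Y ≤ hh H X + (Y - X) / (1 + X) / 144 := by
  have h1 : Real.log (1 + Y) ≤ Real.log (1 + X) + (Y - X) / (1 + X) := by
    have h2 : 1 + Y = (1 + X) * (1 + (Y - X) / (1 + X)) := by
      field_simp
      ring
    have h3 : 0 ≤ (Y - X) / (1 + X) := div_nonneg (by linarith) (by linarith)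
    rw [h2, Real.log_mul (by linarith) (by linarith)]
    have h4 := Real.log_le_sub_one_of_pos (by linarith : 0 < 1 + (Y - X) / (1 + X))
    linarith
  have h3 : 0 ≤ (Y - X) / (1 + X) := div_nonneg (by linarith) (by linarith)
  unfold hh
  rcases le_total (Real.log (1 + X) / 144) H with h5 | h5
  · rw [min_eq_left h5]
    refine (min_le_left _ _).trans ?_
    linarith
  · rw [min_eq_right h5]
    refine (min_le_right _ _).trans ?_
    linarith

/-- One term of the potential. -/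
theorem Abv.term (hn : 2 ≤ n) (hm : 1 ≤ m) (hmn : m ≤ n) (hml : 36 * m ≤ l)
    {L : Finset (Fin n)} {z : Fin n → ℕ} (h : Abv m L z) {pm : ℝ} (hpm0 : 0 ≤ pm)
    (hpm1 : pm ≤ 1) (hpm : pm ≤ Real.exp (-(Real.log 4 * (XX m L z + 1))))
    (hB : (m : ℝ) ≤ pm / 8 * l) (H : ℝ) (j : ℕ) :
    Real.exp (l * hh H (j + 1)) *
      Ex (l := l) (freq m z) (fun y => if N Lᶜ j y < m then (1 : ℝ) else 0) ≤
      Real.exp (l * hh H (XX m L z) - pm / 8 * l) := by
  have hl0 : (0 : ℝ) ≤ l := by positivity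
  have hp := freq_P01 (m := m) hn z
  have hX0 := XX_nonneg hm h.top
  have hP1 := hpm.trans (h.Pz_ge_exp hn hm hmn j)
  set X := XX m L z with hX
  set P := Pz (freq m z) Lᶜ j with hP
  rcases le_or_gt ((j : ℝ) + 1) X with hA | hA
  · -- few zeros
    have h1 := hh_mono H (by positivity : (0 : ℝ) ≤ (j : ℝ) + 1) hA
    refine (mul_le_mul_of_nonneg_left (Ex_N_lt hp Lᶜ j) (Real.exp_pos _).le).trans ?_
    rw [← Real.exp_add]
    refine Real.exp_le_exp.2 ?_
    have h2 := mul_le_mul_of_nonneg_left h1 hl0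
    have h3 := mul_le_mul_of_nonneg_left hP1 hl0
    rw [← hP]
    nlinarith
  · have h1 := hh_le_add H hX0 hA.le
    set y : ℝ := (j + 1 - X) / (1 + X) with hy
    have hy0 : 0 < y := div_pos (by linarith) (by linarith)
    have hyX : y * (1 + X) = j + 1 - X := by
      rw [hy]
      field_simp
    rcases le_or_gt y 8 with hy8 | hy8
    · have h2 : y / 36 ≤ P := by
        have h3 := h.Pz_ge hn hm hmn j hA.le
        rw [← hP, ← hX, ← hyX] at h3
        have h4 : (j : ℝ) + 1 ≤ 9 * (1 + X) := by nlinarith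
        have hP0 : 0 ≤ P := hpm0.trans hP1
        have h5 : ((j : ℝ) + 1) * P ≤ 9 * (1 + X) * P := mul_le_mul_of_nonneg_right h4 hP0
        have h6 : (1 + X) * (y / 36) ≤ (1 + X) * P := by linarith
        exact le_of_mul_le_mul_left h6 (by linarith)
      refine (mul_le_mul_of_nonneg_left (Ex_N_lt hp Lᶜ j) (Real.exp_pos _).le).trans ?_
      rw [← Real.exp_add]
      refine Real.exp_le_exp.2 ?_
      rw [← hP]
      have h3 := mul_le_mul_of_nonneg_left h1 hl0
      have h4 := mul_le_mul_of_nonneg_left hP1 hl0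
      have h5 := mul_le_mul_of_nonneg_left h2 hl0
      nlinarith
    · refine (mul_le_mul_of_nonneg_left (Ex_N_lt_exp hp Lᶜ j) (Real.exp_pos _).le).trans ?_
      rw [← Real.exp_add]
      refine Real.exp_le_exp.2 ?_
      have h2 : ∑ i ∈ Lᶜ, (1 - freq m z i) ≤ X + 1 := sum_compl_le hn hm h.top
      have he : Real.exp 1 - 1 ≤ 1.72 := by
        have := Real.exp_one_lt_d9
        linarith
      have he0 : 0 ≤ Real.exp 1 - 1 := by
        have := Real.exp_one_gt_d9
        linarith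
      have h3 : (Real.exp 1 - 1) * ∑ i ∈ Lᶜ, (1 - freq m z i) ≤ 1.72 * (X + 1) :=
        mul_le_mul he h2 (sum_nonneg fun i _ => one_sub_freq_nonneg hn z i) (by norm_num)
      have h4 : (35 / 36 : ℝ) * l ≤ l - m := by
        have : (36 : ℝ) * m ≤ l := by exact_mod_cast hml
        linarith
      have h5 : (j : ℝ) + 1 = y * (1 + X) + X := by linarith
      have h6 : (35 / 36 : ℝ) * l * (y * (1 + X)) ≤ (l - m) * (j + 1) := by
        refine mul_le_mul h4 (by linarith) (by nlinarith) (by nlinarith)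
      have h7 := mul_le_mul_of_nonneg_left h1 hl0
      have h8 := mul_le_mul_of_nonneg_left h3 hl0
      have h9 : pm / 8 * l ≤ 1 / 8 * l := by
        refine mul_le_mul_of_nonneg_right (by linarith) hl0
      -- everything is linear in `l`
      have h10 : 1.72 * (X + 1) + y / 144 + 1 / 8 ≤ 35 / 36 * (y * (1 + X)) := by
        nlinarith [mul_nonneg hX0 hy0.le]
      have h11 := mul_le_mul_of_nonneg_left h10 hl0
      nlinarith

/-- The potential. -/
noncomputable def GG (L : Finset (Fin n)) (m J : ℕ) (H : ℝ) (y : Fin l → Fin n → Bool) : ℝ :=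
  ∑ j ∈ range (J + 1), Real.exp (l * hh H (j + 1)) * (if N Lᶜ j y < m then (1 : ℝ) else 0)

theorem GG_nonneg (L : Finset (Fin n)) (m J : ℕ) (H : ℝ) (y : Fin l → Fin n → Bool) :
    0 ≤ GG L m J H y :=
  sum_nonneg fun j _ => mul_nonneg (Real.exp_pos _).le (by split_ifs <;> norm_num)

theorem Abv.Ex_GG (hn : 2 ≤ n) (hm : 1 ≤ m) (hmn : m ≤ n) (hml : 36 * m ≤ l)
    {L : Finset (Fin n)} {z : Fin n → ℕ} (h : Abv m L z) {pm : ℝ} (hpm0 : 0 ≤ pm)
    (hpm1 : pm ≤ 1) (hpm : pm ≤ Real.exp (-(Real.log 4 * (XX m L z + 1))))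
    (hB : (m : ℝ) ≤ pm / 8 * l) (H : ℝ) {J : ℕ} (hJ : (J : ℝ) + 1 ≤ Real.exp (pm / 16 * l)) :
    Ex (l := l) (freq m z) (GG L m J H) ≤
      Real.exp (-(pm / 16 * l)) * Real.exp (l * hh H (XX m L z)) := by
  unfold GG
  rw [Ex_sum]
  calc ∑ j ∈ range (J + 1), Ex (l := l) (freq m z) (fun y => Real.exp (l * hh H (j + 1)) *
        (if N Lᶜ j y < m then (1 : ℝ) else 0))
      ≤ ∑ _j ∈ range (J + 1), Real.exp (l * hh H (XX m L z) - pm / 8 * l) := by
        refine sum_le_sum fun j _ => ?_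
        rw [Ex_mul]
        exact h.term hn hm hmn hml hpm0 hpm1 hpm hB H j
    _ = (J + 1) * Real.exp (l * hh H (XX m L z) - pm / 8 * l) := by
        rw [sum_const, card_range, nsmul_eq_mul]
        push_cast
        ring
    _ ≤ Real.exp (pm / 16 * l) * Real.exp (l * hh H (XX m L z) - pm / 8 * l) :=
        mul_le_mul_of_nonneg_right hJ (Real.exp_pos _).le
    _ = _ := by
        rw [← Real.exp_add, ← Real.exp_add]
        congr 1
        ring

theorem sv_cnt_le_of_N {L : Finset (Fin n)} (hm : 1 ≤ m) {y : Fin l → Fin n → Bool}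
    {A : Finset (Fin l)} (hA : IsBest m y A) {j : ℕ} (hj : m ≤ N Lᶜ j y) :
    sv m (cnt y A) ≤ L.card + j := by
  have hm0 : (0 : ℝ) < m := by exact_mod_cast hm
  have h1 : m ≤ N univ (L.card + j) y := by
    refine hj.trans (card_le_card fun a ha => ?_)
    rw [mem_filter] at ha ⊢
    refine ⟨ha.1, ?_⟩
    have h2 := zo_add L (y a)
    have h3 := zo_le L (y a)
    have h4 := ha.2
    unfold zeros at h2
    omega
  rw [sv_cnt, div_le_iff₀ hm0]
  calc ∑ a ∈ A, (zeros (y a) : ℝ) ≤ ∑ _a ∈ A, ((L.card : ℝ) + j) := by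
        refine sum_le_sum fun a ha => ?_
        exact_mod_cast hA.of_le h1 ha
    _ = _ := by
        rw [sum_const, nsmul_eq_mul, hA.1]
        ring

theorem sv_cnt_le_Zb {L : Finset (Fin n)} (hm : 1 ≤ m) (hml : m ≤ l) {y : Fin l → Fin n → Bool}
    {A : Finset (Fin l)} (hA : IsBest m y A) :
    sv m (cnt y A) ≤ L.card + Zb L y := by
  have hm0 : (0 : ℝ) < m := by exact_mod_cast hm
  have hl0 : (0 : ℝ) < l := by exact_mod_cast hm.trans hml
  have h1 := hA.avg (fun k => (k : ℝ)) Nat.mono_cast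
  have h2 : ∑ a, (zeros (y a) : ℝ) ≤ l * L.card + ∑ a, (zo Lᶜ (y a) : ℝ) := by
    calc ∑ a, (zeros (y a) : ℝ) ≤ ∑ a, ((L.card : ℝ) + zo Lᶜ (y a)) := by
          refine sum_le_sum fun a _ => ?_
          have h3 := zo_add L (y a)
          have h4 := zo_le L (y a)
          have h5 : zeros (y a) ≤ L.card + zo Lᶜ (y a) := by omega
          exact_mod_cast h5
      _ = _ := by
          rw [sum_add_distrib, sum_const, card_univ, Fintype.card_fin, nsmul_eq_mul]
  have h6 : (l : ℝ) * Zb L y = ∑ a, (zo Lᶜ (y a) : ℝ) := by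
    unfold Zb
    rw [← mul_assoc, mul_one_div_cancel hl0.ne', one_mul]
  rw [sv_cnt, div_le_iff₀ hm0]
  have h7 : (l : ℝ) * ∑ a ∈ A, (zeros (y a) : ℝ) ≤ l * ((L.card + Zb L y) * m) := by
    calc (l : ℝ) * ∑ a ∈ A, (zeros (y a) : ℝ) ≤ m * ∑ a, (zeros (y a) : ℝ) := h1
      _ ≤ m * (l * L.card + ∑ a, (zo Lᶜ (y a) : ℝ)) := mul_le_mul_of_nonneg_left h2 hm0.le
      _ = _ := by rw [← h6]; ring
  exact le_of_mul_le_mul_left h7 hl0

/-- The potential bounds the exponential of the average number of zeros. -/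
theorem exp_le_GG {L : Finset (Fin n)} (hm : 1 ≤ m) (hml : m ≤ l) {y : Fin l → Fin n → Bool}
    {A : Finset (Fin l)} (hA : IsBest m y A) (h0 : N Lᶜ 0 y < m)
    (hX : 0 ≤ XX m L (cnt y A)) {H : ℝ} {J : ℕ} (hJ : hh H (J + 1) = H) :
    Real.exp (l * hh H (XX m L (cnt y A))) ≤ GG L m J H y := by
  have hl0 : (0 : ℝ) ≤ l := by positivity
  have hex : ∃ j, m ≤ N Lᶜ j y := by
    refine ⟨n, ?_⟩
    unfold N
    rw [filter_true_of_mem, card_univ, Fintype.card_fin]
    · exact hml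
    · intro a _
      refine (zo_le _ _).trans ?_
      have := card_le_univ (Lᶜ)
      rwa [Fintype.card_fin] at this
  have hj0 : Nat.find hex ≠ 0 := by
    intro hcon
    have := Nat.find_spec hex
    rw [hcon] at this
    omega
  obtain ⟨j, hj⟩ := Nat.exists_eq_succ_of_ne_zero hj0
  have h1 : m ≤ N Lᶜ (j + 1) y := by
    have := Nat.find_spec hex
    rwa [hj] at this
  have h2 : ∀ i ≤ j, N Lᶜ i y < m := fun i hi => not_le.1 (Nat.find_min hex (by rw [hj]; omega))
  have hterm : ∀ i ≤ J, N Lᶜ i y < m → Real.exp (l * hh H (i + 1)) ≤ GG L m J H y := by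
    intro i hi hN
    calc Real.exp (l * hh H (i + 1)) = Real.exp (l * hh H (i + 1)) *
          (if N Lᶜ i y < m then (1 : ℝ) else 0) := by rw [if_pos hN, mul_one]
      _ ≤ _ := single_le_sum (f := fun j : ℕ => Real.exp (l * hh H (j + 1)) *
          (if N Lᶜ j y < m then (1 : ℝ) else 0))
          (fun j _ => mul_nonneg (Real.exp_pos _).le (by split_ifs <;> norm_num))
          (mem_range.2 (by omega))
  rcases le_or_gt j J with hjJ | hjJ
  · refine le_trans ?_ (hterm j hjJ (h2 j le_rfl))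
    refine Real.exp_le_exp.2 (mul_le_mul_of_nonneg_left (hh_mono H hX ?_) hl0)
    have h3 := sv_cnt_le_of_N hm hA h1
    unfold XX
    push_cast at h3
    linarith
  · refine le_trans ?_ (hterm J le_rfl (h2 J hjJ.le))
    refine Real.exp_le_exp.2 (mul_le_mul_of_nonneg_left ?_ hl0)
    rw [hJ]
    exact hh_le _ _

end Pool.Agent.H80.UM
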