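import Pool.Agent.H80.UM.Sel

/-!
# The drift at a state that is not clean
-/

set_option linter.unusedSectionVars false

namespace Pool.Agent.H80.UM

open Finset Classical

variable {n l m : ℕ}

/-- One generation. -/
noncomputable def K (R : TieRule n l m) (f : History n l → (Fin n → ℕ) → ℝ) (h : History n l)
    (z : Fin n → ℕ) : ℝ :=
  Ex (freq m z) fun y => ∑ A, R.w h y A * f ((y, A) :: h) (cnt y A)

theorem K_le (hn : 2 ≤ n) {R : TieRule n l m} {f : History n l → (Fin n → ℕ) → ℝ}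
    {h : History n l} {z : Fin n → ℕ} {G : (Fin l → Fin n → Bool) → ℝ}
    (hG : ∀ y A, IsBest m y A → f ((y, A) :: h) (cnt y A) ≤ G y) :
    K R f h z ≤ Ex (freq m z) G := by
  refine Ex_mono (freq_P01 hn z) fun y => ?_
  calc ∑ A, R.w h y A * f ((y, A) :: h) (cnt y A) ≤ ∑ A, R.w h y A * G y := by
        refine sum_le_sum fun A _ => ?_
        by_cases hw : R.w h y A = 0
        · rw [hw, zero_mul, zero_mul]
        · exact mul_le_mul_of_nonneg_left (hG y A (R.best h y A hw)) (R.nonneg h y A)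
    _ = G y := by rw [← sum_mul, R.sum_eq_one, one_mul]

theorem K_mono (hn : 2 ≤ n) {R : TieRule n l m} {f g : History n l → (Fin n → ℕ) → ℝ}
    {h : History n l} {z : Fin n → ℕ}
    (hG : ∀ y A, IsBest m y A → f ((y, A) :: h) (cnt y A) ≤ g ((y, A) :: h) (cnt y A)) :
    K R f h z ≤ K R g h z := by
  refine Ex_mono (freq_P01 hn z) fun y => ?_
  refine sum_le_sum fun A _ => ?_
  by_cases hw : R.w h y A = 0
  · rw [hw, zero_mul, zero_mul]
  · exact mul_le_mul_of_nonneg_left (hG y A (R.best h y A hw)) (R.nonneg h y A)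

theorem K_lin {R : TieRule n l m} (f g : History n l → (Fin n → ℕ) → ℝ) (a c : ℝ)
    {h : History n l} {z : Fin n → ℕ} :
    K R (fun h z => f h z + a * g h z + c) h z = K R f h z + a * K R g h z + c := by
  unfold K
  rw [← Ex_mul, ← Ex_add]
  conv_rhs => rw [← Ex_const (l := l) (p := freq m z) c]
  rw [← Ex_add]
  congr 1
  funext y
  rw [mul_sum, ← sum_add_distrib]
  calc ∑ A, R.w h y A * (f ((y, A) :: h) (cnt y A) + a * g ((y, A) :: h) (cnt y A) + c)
      = ∑ A, (R.w h y A * f ((y, A) :: h) (cnt y A) +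
        a * (R.w h y A * g ((y, A) :: h) (cnt y A)) + c * R.w h y A) :=
        sum_congr rfl fun A _ => by ring
    _ = _ := by
        rw [sum_add_distrib, ← mul_sum, R.sum_eq_one, mul_one]

/-- The average number of zeros. -/
theorem K_sv_le_add_one (hn : 2 ≤ n) (hm : 1 ≤ m) (hml : m ≤ l) {R : TieRule n l m}
    {h : History n l} (z : Fin n → ℕ) : K R (fun _ z => sv m z) h z ≤ sv m z + 1 := by
  have hm0 : (0 : ℝ) < m := by exact_mod_cast hm
  have hl0 : (0 : ℝ) < l := by exact_mod_cast hm.trans hml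
  refine (K_le (G := fun y => (1 / l : ℝ) * ∑ a, (zeros (y a) : ℝ)) hn fun y A hA => ?_).trans ?_
  · rw [sv_cnt]
    have h1 := hA.avg (fun k => (k : ℝ)) Nat.mono_cast
    rw [div_le_iff₀ hm0]
    rw [one_div, inv_mul_eq_div, div_mul_eq_mul_div, le_div_iff₀ hl0]
    linarith
  · rw [Ex_mul, Ex_sum]
    have h2 : ∀ a : Fin l, Ex (l := l) (freq m z) (fun y => (zeros (y a) : ℝ)) =
        ∑ i, (1 - freq m z i) := by
      intro a
      rw [Ex_single a (fun x => (zeros x : ℝ))]
      exact E1_zo univ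
    simp_rw [h2]
    rw [sum_const, card_univ, Fintype.card_fin, nsmul_eq_mul, ← mul_assoc, one_div,
      inv_mul_cancel₀ hl0.ne', one_mul]
    exact sum_freq_le hn hm z

theorem exp_neg_le_half {u : ℝ} (h0 : 0 ≤ u) (h1 : u ≤ 1) : Real.exp (-u) ≤ 1 - u / 2 := by
  have h3 : Real.exp u * Real.exp (-u) = 1 := by rw [← Real.exp_add]; simp
  have h4 := Real.quadratic_le_exp_of_nonneg h0
  have h5 := Real.exp_pos (-u)
  have h6 : (1 + u + u ^ 2 / 2) * Real.exp (-u) ≤ 1 := by
    calc (1 + u + u ^ 2 / 2) * Real.exp (-u) ≤ Real.exp u * Real.exp (-u) :=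
          mul_le_mul_of_nonneg_right h4 h5.le
      _ = 1 := h3
  have h7 : 0 < 1 + u + u ^ 2 / 2 := by positivity
  by_contra hcon
  push Not at hcon
  have h8 : (1 + u + u ^ 2 / 2) * (1 - u / 2) < 1 := by
    refine lt_of_lt_of_le ?_ h6
    exact mul_lt_mul_of_pos_left hcon h7
  nlinarith [mul_nonneg h0 (sub_nonneg.2 h1), mul_nonneg (mul_nonneg h0 h0) (sub_nonneg.2 h1)]

theorem Ex_min_le (hm : 1 ≤ m) {p : Fin n → ℝ} (hp : P01 p) (S : Finset (Fin n)) (j : ℕ) :
    Ex (l := l) p (fun y => 1 - (min m (N S j y) : ℕ) / (m : ℝ)) ≤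
      Real.exp (-(l * Pz p S j / (2 * m))) := by
  have hm0 : (0 : ℝ) < m := by exact_mod_cast hm
  have hm1 : (1 : ℝ) ≤ m := by exact_mod_cast hm
  have h1 : Real.exp (-(1 / m)) ≤ 1 - 1 / m / 2 :=
    exp_neg_le_half (by positivity) (by rw [div_le_one hm0]; exact hm1)
  have hP0 := Pz_nonneg hp S j
  have hP1 := Pz_le_one hp S j
  calc Ex (l := l) p (fun y => 1 - (min m (N S j y) : ℕ) / (m : ℝ))
      ≤ Ex (l := l) p (fun y => ∏ a, if zo S (y a) ≤ j then Real.exp (-(1 / m)) else 1) := by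
        refine Ex_mono hp fun y => (one_sub_le_exp hm _).trans ?_
        rw [← pow_N, ← Real.exp_nat_mul]
        refine Real.exp_le_exp.2 (le_of_eq ?_)
        ring
    _ = (1 - Pz p S j * (1 - Real.exp (-(1 / m)))) ^ l := by
        rw [Ex_pow (fun x => if zo S x ≤ j then Real.exp (-(1 / m)) else 1), E1_two]
    _ ≤ (Real.exp (-(Pz p S j / (2 * m)))) ^ l := by
        refine pow_le_pow_left₀ ?_ ?_ l
        · have h2 := Real.exp_pos (-(1 / (m : ℝ)))
          have h3 : 1 - Real.exp (-(1 / (m : ℝ))) ≤ 1 := by linarith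
          have h4 : Pz p S j * (1 - Real.exp (-(1 / m))) ≤ Pz p S j * 1 :=
            mul_le_mul_of_nonneg_left h3 hP0
          linarith
        · have h5 := Real.add_one_le_exp (-(Pz p S j / (2 * m)))
          refine le_trans ?_ h5
          have h6 : Pz p S j * (1 / m / 2) ≤ Pz p S j * (1 - Real.exp (-(1 / m))) :=
            mul_le_mul_of_nonneg_left (by linarith) hP0
          have h7 : Pz p S j * (1 / m / 2) = Pz p S j / (2 * m) := by field_simp
          linarith
    _ = _ := by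
        rw [← Real.exp_nat_mul]
        congr 1
        ring

theorem Ex_min_le_of_le (hm : 1 ≤ m) (hml : m ≤ l) {p : Fin n → ℝ} (hp : P01 p)
    (S : Finset (Fin n)) (j : ℕ) (hP : Pz p S j ≤ 2 * m / l) :
    Ex (l := l) p (fun y => 1 - (min m (N S j y) : ℕ) / (m : ℝ)) ≤
      1 - l / (4 * m) * Pz p S j := by
  have hm0 : (0 : ℝ) < m := by exact_mod_cast hm
  have hl0 : (0 : ℝ) < l := by exact_mod_cast hm.trans hml
  have hP0 := Pz_nonneg hp S j
  refine (Ex_min_le hm hp S j).trans ((exp_neg_le_half (by positivity) ?_).trans (le_of_eq ?_))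
  · rw [div_le_one (by positivity)]
    rw [le_div_iff₀ hl0] at hP
    linarith
  · field_simp
    ring

/-- The expectation of a product with one special offspring. -/
theorem Ex_half_le {p : Fin n → ℝ} (hp : P01 p) (S : Finset (Fin n)) (j : ℕ) (a : Fin l)
    (g : (Fin n → Bool) → ℝ) (hg : ∀ x, 0 ≤ g x) :
    Ex (l := l) p (fun y => g (y a) * (∏ b ∈ univ.erase a,
      (if zo S (y b) ≤ j then (1 / 2 : ℝ) else 1)) * 2 ^ m) ≤
      2 ^ m * Real.exp (-((l - 1 : ℕ) * (Pz p S j / 2))) * E1 p g := by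
  have h1 : ∀ y : Fin l → Fin n → Bool, g (y a) * (∏ b ∈ univ.erase a,
      (if zo S (y b) ≤ j then (1 / 2 : ℝ) else 1)) * 2 ^ m = 2 ^ m * (g (y a) *
        ∏ b ∈ univ.erase a, (fun x => if zo S x ≤ j then (1 / 2 : ℝ) else 1) (y b)) := by
    intro y
    ring
  simp_rw [h1]
  rw [Ex_mul]
  rw [Ex_mul_prod a g (fun x => if zo S x ≤ j then (1 / 2 : ℝ) else 1), E1_two]
  have hP0 := Pz_nonneg hp S j
  have hP1 := Pz_le_one hp S j
  have h2 : (1 - Pz p S j * (1 - 1 / 2)) ^ (l - 1) ≤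
      Real.exp (-((l - 1 : ℕ) * (Pz p S j / 2))) := by
    have h5 := Real.add_one_le_exp (-(Pz p S j / 2))
    calc (1 - Pz p S j * (1 - 1 / 2)) ^ (l - 1) ≤ (Real.exp (-(Pz p S j / 2))) ^ (l - 1) := by
          refine pow_le_pow_left₀ (by linarith) (by linarith) _
      _ = _ := by
          rw [← Real.exp_nat_mul]
          congr 1
          ring
  have h3 : 0 ≤ E1 p g := E1_nonneg hp hg
  calc 2 ^ m * (E1 p g * (1 - Pz p S j * (1 - 1 / 2)) ^ (l - 1))
      ≤ 2 ^ m * (E1 p g * Real.exp (-((l - 1 : ℕ) * (Pz p S j / 2)))) := by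
        gcongr
    _ = _ := by ring

theorem Ex_min_le_of_ge (hm : 1 ≤ m) (hml : m ≤ l) {p : Fin n → ℝ} (hp : P01 p)
    (S : Finset (Fin n)) (j : ℕ) (hP : 2 * m / l ≤ Pz p S j) :
    Ex (l := l) p (fun y => 1 - (min m (N S j y) : ℕ) / (m : ℝ)) ≤
      2 ^ m * Real.exp (-((l - 1 : ℕ) * (m / l))) * (1 - Pz p S j) := by
  have hm0 : (0 : ℝ) < m := by exact_mod_cast hm
  have hl0 : (0 : ℝ) < l := by exact_mod_cast hm.trans hml
  have hP1 := Pz_le_one hp S j
  have hg : E1 p (fun x => if zo S x ≤ j then (0 : ℝ) else 1) = 1 - Pz p S j := by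
    rw [E1_two]; ring
  calc Ex (l := l) p (fun y => 1 - (min m (N S j y) : ℕ) / (m : ℝ))
      ≤ Ex (l := l) p (fun y => (1 / l : ℝ) * ∑ a, (if zo S (y a) ≤ j then (0 : ℝ) else 1) *
      (∏ b ∈ univ.erase a, (if zo S (y b) ≤ j then (1 / 2 : ℝ) else 1)) * 2 ^ m) :=
        Ex_mono hp fun y => one_sub_le_avg hm hml S j y
    _ ≤ (1 / l : ℝ) * ∑ _a : Fin l, 2 ^ m * Real.exp (-((l - 1 : ℕ) * (m / l))) *
          (1 - Pz p S j) := by
        rw [Ex_mul, Ex_sum]
        refine mul_le_mul_of_nonneg_left (sum_le_sum fun a _ => ?_) (by positivity)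
        refine (Ex_half_le hp S j a (fun x => if zo S x ≤ j then (0 : ℝ) else 1)
          (fun x => by split_ifs <;> norm_num)).trans ?_
        rw [hg]
        refine mul_le_mul_of_nonneg_right ?_ (by linarith)
        refine mul_le_mul_of_nonneg_left (Real.exp_le_exp.2 ?_) (by positivity)
        have h1 : (m : ℝ) / l ≤ Pz p S j / 2 := by
          have : 2 * (m : ℝ) / l = 2 * (m / l) := by ring
          linarith
        have h2 : (0 : ℝ) ≤ (l - 1 : ℕ) := by positivity
        have := mul_le_mul_of_nonneg_left h1 h2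
        linarith
    _ = _ := by
        rw [sum_const, card_univ, Fintype.card_fin, nsmul_eq_mul, ← mul_assoc, one_div,
          inv_mul_cancel₀ hl0.ne', one_mul]

theorem Pz_univ {p : Fin n → ℝ} {j : ℕ} (hj : n ≤ j) : Pz p univ j = 1 := by
  unfold Pz
  have h : (fun x : Fin n → Bool => if zo univ x ≤ j then (1 : ℝ) else 0) = fun _ => 1 := by
    funext x
    rw [if_pos]
    exact (zeros_le x).trans hj
  rw [h, E1_one]

/-- The drift at a state that is not clean. -/
theorem K_sv_le (hn : 2 ≤ n) (hm : 1 ≤ m) (hmn : m ≤ n) (hl : 36 * m ≤ l)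
    (heps : 2 ^ m * Real.exp (-((l - 1 : ℕ) * ((m : ℝ) / l))) ≤ 1 / (4 * m))
    {R : TieRule n l m} {h : History n l} {z : Fin n → ℕ} (hz : ∀ i, z i ≤ m)
    (hpoly : ∃ i, z i ≠ 0 ∧ z i ≠ m) :
    K R (fun _ z => sv m z) h z ≤ sv m z - 1 / (2 * m) := by
  have hml : m ≤ l := by omega
  have hm0 : (0 : ℝ) < m := by exact_mod_cast hm
  have hm1 : (1 : ℝ) ≤ m := by exact_mod_cast hm
  have hl0 : (0 : ℝ) < l := by exact_mod_cast hm.trans hml
  have hp := freq_P01 (m := m) hn z
  set p := freq m z with hpdef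
  set eps : ℝ := 2 ^ m * Real.exp (-((l - 1 : ℕ) * ((m : ℝ) / l))) with hepsdef
  have heps0 : 0 ≤ eps := by positivity
  -- the threshold
  have hex : ∃ j, 2 * (m : ℝ) / l ≤ Pz p univ j := by
    refine ⟨n, ?_⟩
    rw [Pz_univ le_rfl, div_le_one hl0]
    exact_mod_cast (by omega : 2 * m ≤ l)
  set θ := Nat.find hex with hθdef
  have hθ : 2 * (m : ℝ) / l ≤ Pz p univ θ := Nat.find_spec hex
  have hθ' : ∀ j < θ, Pz p univ j ≤ 2 * m / l := fun j hj => (not_le.1 (Nat.find_min hex hj)).le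
  have hθn : θ ≤ n := by
    refine Nat.find_min' hex ?_
    rw [Pz_univ le_rfl, div_le_one hl0]
    exact_mod_cast (by omega : 2 * m ≤ l)
  set κ : ℝ := l / (4 * m) with hκ
  have hκ9 : 9 ≤ κ := by
    rw [hκ, le_div_iff₀ (by positivity)]
    have : (36 : ℝ) * m ≤ l := by exact_mod_cast hl
    linarith
  set E : ℝ := E1 p (fun x => max ((θ : ℝ) - zo univ x) 0) with hE
  have hE0 : 0 ≤ E := E1_nonneg hp fun x => le_max_right _ _
  have hEs : E = ∑ j ∈ range θ, Pz p univ j := E1_pos_eq univ θ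
  -- the part above the threshold
  have hsum : ∑ j ∈ range n, (1 - Pz p univ j) ≤ sv m z + 1 := by
    have h1 : ∑ j ∈ range n, (1 - Pz p univ j) = E1 p (fun x => (zo univ x : ℝ)) := by
      rw [sum_sub_distrib, ← E1_pos_eq univ n, sum_const, card_range, nsmul_eq_mul, mul_one]
      have h3 : (fun x : Fin n → Bool => (zo univ x : ℝ)) =
          fun x => (n : ℝ) - max ((n : ℝ) - zo univ x) 0 := by
        funext x
        have h2 : (zo univ x : ℝ) ≤ n := by exact_mod_cast zeros_le x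
        rw [max_eq_left (by linarith)]
        ring
      rw [h3, E1_sub, E1_const]
    rw [h1, E1_zo]
    exact sum_freq_le hn hm z
  have hsplit : ∀ f : ℕ → ℝ, ∑ j ∈ range n, f j = ∑ j ∈ range θ, f j + ∑ j ∈ Ico θ n, f j := by
    intro f
    rw [range_eq_Ico, range_eq_Ico, sum_Ico_consecutive f (Nat.zero_le _) hθn]
  have habove : ∑ j ∈ Ico θ n, (1 - Pz p univ j) ≤ sv m z + 1 - θ + E := by
    have h1 := hsplit (fun j => 1 - Pz p univ j)
    rw [h1] at hsum
    rw [sum_sub_distrib, sum_const, card_range, nsmul_eq_mul, mul_one, ← hEs] at hsum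
    linarith
  have hmain : K R (fun _ z => sv m z) h z ≤
      θ - κ * E + eps * (sv m z + 1 - θ + E) := by
    calc K R (fun _ z => sv m z) h z
        ≤ Ex p (fun y => ∑ j ∈ range n, (1 - (min m (N univ j y) : ℕ) / (m : ℝ))) :=
          K_le hn fun y A hA => hA.layer hm
      _ = ∑ j ∈ range n, Ex (l := l) p (fun y => 1 - (min m (N univ j y) : ℕ) / (m : ℝ)) := by
          rw [Ex_sum]
      _ = ∑ j ∈ range θ, Ex (l := l) p (fun y => 1 - (min m (N univ j y) : ℕ) / (m : ℝ)) +
          ∑ j ∈ Ico θ n, Ex (l := l) p (fun y => 1 - (min m (N univ j y) : ℕ) / (m : ℝ)) :=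
          hsplit _
      _ ≤ ∑ j ∈ range θ, (1 - κ * Pz p univ j) + ∑ j ∈ Ico θ n, eps * (1 - Pz p univ j) := by
          refine add_le_add (sum_le_sum fun j hj => ?_) (sum_le_sum fun j hj => ?_)
          · exact Ex_min_le_of_le hm hml hp univ j (hθ' j (mem_range.1 hj))
          · refine Ex_min_le_of_ge hm hml hp univ j (hθ.trans (Pz_mono hp univ ?_))
            exact (mem_Ico.1 hj).1
      _ = θ - κ * E + eps * ∑ j ∈ Ico θ n, (1 - Pz p univ j) := by
          rw [sum_sub_distrib, sum_const, card_range, nsmul_eq_mul, mul_one, ← mul_sum, ← mul_sum,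
            ← hEs]
      _ ≤ _ := by
          have := mul_le_mul_of_nonneg_left habove heps0
          linarith
  -- lower bounds for `E`
  set D : Finset (Fin n) := univ.filter fun i => z i = 0 with hD
  have hDq : ∏ i ∈ D, p i ≥ 1 / 4 := quarter_le hn D fun i hi =>
    freq_zero hn (mem_filter.1 hi).2
  have hsv : sv m z = ∑ i, (z i : ℝ) / m := by
    unfold sv
    rw [sum_div]
  have hrle : ∀ i ∈ univ \ D, 1 - p i ≤ z i / m := by
    intro i hi
    rw [mem_sdiff, hD, mem_filter] at hi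
    exact one_sub_freq_le' hn hm hmn (by have := hi.2; simp at this; omega) (hz i)
  have hDsum : ∑ i ∈ univ \ D, (1 - p i) ≤ sv m z := by
    rw [hsv]
    calc ∑ i ∈ univ \ D, (1 - p i) ≤ ∑ i ∈ univ \ D, (z i : ℝ) / m := sum_le_sum hrle
      _ ≤ _ := sum_le_sum_of_subset_of_nonneg (sdiff_subset) fun i _ _ => by positivity
  have hE1 : (sv m z : ℝ) ≤ θ → 1 / 4 * (θ - sv m z) ≤ E := by
    intro hle
    refine le_trans ?_ (E1_pos_ge hp univ D θ)
    exact mul_le_mul hDq (by linarith) (by linarith) (by linarith)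
  have hgrid : ∀ k : ℕ, (sv m z : ℝ) < k → sv m z + 1 / m ≤ k := by
    intro k hk
    unfold sv at hk ⊢
    rw [div_lt_iff₀ hm0] at hk
    rw [← add_div, div_le_iff₀ hm0]
    have h1 : ∑ i, z i < k * m := by exact_mod_cast hk
    exact_mod_cast h1
  have hgrid' : ∀ k : ℕ, (k : ℝ) < sv m z → (k : ℝ) + 1 / m ≤ sv m z := by
    intro k hk
    unfold sv at hk ⊢
    rw [lt_div_iff₀ hm0] at hk
    rw [le_div_iff₀ hm0, add_mul, one_div, inv_mul_cancel₀ hm0.ne']
    have h1 : k * m < ∑ i, z i := by exact_mod_cast hk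
    exact_mod_cast h1
  have heps1 : eps * m ≤ 1 / 4 := by
    calc eps * m ≤ 1 / (4 * m) * m := mul_le_mul_of_nonneg_right heps hm0.le
      _ = 1 / 4 := by field_simp
  have heps2 : eps ≤ 1 / 4 := by
    refine le_trans ?_ heps1
    nlinarith
  have hm' : (0 : ℝ) < 1 / m := by positivity
  have hepsm : eps ≤ 1 / m / 4 := by
    refine heps.trans (le_of_eq ?_)
    field_simp
  have hhalf : (1 : ℝ) / (2 * m) = 1 / m / 2 := by field_simp
  rw [hhalf]
  set u : ℝ := 1 / m with hu
  have hu1 : u ≤ 1 := by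
    rw [hu, div_le_one hm0]
    exact hm1
  refine hmain.trans ?_
  rcases lt_trichotomy (θ : ℝ) (sv m z) with hlt | heq | hgt
  · have h1 := hgrid' θ hlt
    have h2 : 0 ≤ (κ - eps) * E := mul_nonneg (by linarith) hE0
    have h3 : (1 - eps) * u ≤ (1 - eps) * (sv m z - θ) :=
      mul_le_mul_of_nonneg_left (by linarith) (by linarith)
    nlinarith
  · obtain ⟨i0, hi0, hi0'⟩ := hpoly
    have hzi0 := hz i0
    have hmid : 1 - p i0 = z i0 / m := freq_mid hn hmn (by omega) (by omega)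
    have hi0D : i0 ∉ D := by
      rw [hD, mem_filter]
      exact fun hh => hi0 hh.2
    have h1 := E1_pos_ge hp univ (insert i0 D) θ
    rw [prod_insert hi0D] at h1
    have h2 : ∑ i ∈ univ \ insert i0 D, (1 - p i) ≤ sv m z - z i0 / m := by
      have h3 : univ \ D = insert i0 (univ \ insert i0 D) := by
        ext i
        simp only [mem_sdiff, mem_univ, true_and, mem_insert]
        by_cases hi : i = i0
        · subst hi; simp [hi0D]
        · simp [hi]
      have h4 : ∑ i ∈ univ \ D, (z i : ℝ) / m ≤ sv m z := by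
        rw [hsv]
        exact sum_le_sum_of_subset_of_nonneg (sdiff_subset) fun i _ _ => by positivity
      rw [h3, sum_insert (by simp)] at h4
      have h5 : ∑ i ∈ univ \ insert i0 D, (1 - p i) ≤ ∑ i ∈ univ \ insert i0 D, (z i : ℝ) / m := by
        refine sum_le_sum fun i hi => hrle i ?_
        rw [h3]
        exact mem_insert_of_mem hi
      linarith
    set v : ℝ := z i0 / m with hv
    have hv1 : u ≤ v := by
      rw [hu, hv]
      gcongr
      exact_mod_cast (by omega : 1 ≤ z i0)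
    have hv2 : v + u ≤ 1 := by
      rw [hu, hv, ← add_div, div_le_one hm0]
      exact_mod_cast (by omega : z i0 + 1 ≤ m)
    have hpi0 : p i0 = 1 - v := by linarith
    have h6 : 1 / 4 * (v * (1 - v)) ≤ E := by
      refine le_trans ?_ h1
      rw [hpi0, ← heq] at *
      have h7 : v ≤ θ - ∑ i ∈ univ \ insert i0 D, (1 - p i) := by linarith
      have h8 : (1 - v) * (1 / 4) ≤ (1 - v) * ∏ i ∈ D, p i :=
        mul_le_mul_of_nonneg_left hDq (by linarith)
      have hv0 : 0 ≤ v := by linarith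
      calc 1 / 4 * (v * (1 - v)) = ((1 - v) * (1 / 4)) * v := by ring
        _ ≤ ((1 - v) * ∏ i ∈ D, p i) * v := mul_le_mul_of_nonneg_right h8 hv0
        _ ≤ _ := mul_le_mul_of_nonneg_left h7 (by nlinarith)
    have h9 : u / 2 ≤ v * (1 - v) := by
      have hu2 : u ≤ 1 / 2 := by linarith
      rcases le_total v (1 / 2) with hv3 | hv3
      · nlinarith
      · nlinarith
    have h10 : (κ - eps) * (u / 8) ≤ (κ - eps) * E :=
      mul_le_mul_of_nonneg_left (by linarith) (by linarith)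
    have h11 : u ≤ (κ - eps) * (u / 8) := by nlinarith
    rw [heq]
    nlinarith
  · have h1 := hgrid θ hgt
    have h2 := hE1 hgt.le
    have h3 : (κ - eps) * (1 / 4 * (θ - sv m z)) ≤ (κ - eps) * E :=
      mul_le_mul_of_nonneg_left h2 (by linarith)
    have h4 : 2 * (θ - sv m z) ≤ (κ - eps) * (1 / 4 * (θ - sv m z)) := by
      have : 0 ≤ θ - sv m z := by linarith
      nlinarith
    have h5 : 0 ≤ eps * (θ - sv m z) := mul_nonneg heps0 (by linarith)
    nlinarith

end Pool.Agent.H80.UM
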