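import Pool.Agent.H80.UM.HLem

/-!
# The first step from a clean state
-/

set_option linter.unusedSectionVars false

namespace Pool.Agent.H80.UM

open Finset Classical

variable {n l m : ℕ}

/-- Every frequency is at a border. -/
def Clean (m : ℕ) (z : Fin n → ℕ) : Prop := ∀ i, z i = 0 ∨ z i = m

/-- The expected average number of zeros when the process is stopped at the first clean state, but
after at most `t` steps. -/
noncomputable def W (R : TieRule n l m) : ℕ → History n l → (Fin n → ℕ) → ℝ
  | 0, _, z => sv m z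
  | t + 1, h, z => if Clean m z then sv m z else K R (W R t) h z

theorem W_zero (R : TieRule n l m) (h : History n l) (z : Fin n → ℕ) : W R 0 h z = sv m z := rfl

theorem W_clean (R : TieRule n l m) (t : ℕ) (h : History n l) {z : Fin n → ℕ} (hz : Clean m z) :
    W R t h z = sv m z := by
  cases t with
  | zero => rfl
  | succ t => exact if_pos hz

theorem W_succ (R : TieRule n l m) (t : ℕ) (h : History n l) {z : Fin n → ℕ} (hz : ¬ Clean m z) :
    W R (t + 1) h z = K R (W R t) h z := if_neg hz

/-- Valid states. -/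
def Val (m : ℕ) (z : Fin n → ℕ) : Prop := ∀ i, z i ≤ m

theorem val_cnt {y : Fin l → Fin n → Bool} {A : Finset (Fin l)} (hA : IsBest m y A) :
    Val m (cnt y A) := fun i => (cnt_le i).trans hA.1.le

theorem sv_nonneg (z : Fin n → ℕ) : 0 ≤ sv m z := by
  unfold sv
  positivity

theorem sv_le (hm : 1 ≤ m) {z : Fin n → ℕ} (hz : Val m z) : sv m z ≤ n := by
  have hm0 : (0 : ℝ) < m := by exact_mod_cast hm
  unfold sv
  rw [div_le_iff₀ hm0]
  calc ∑ i, (z i : ℝ) ≤ ∑ _i : Fin n, (m : ℝ) := sum_le_sum fun i _ => by exact_mod_cast hz i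
    _ = _ := by rw [sum_const, card_univ, Fintype.card_fin, nsmul_eq_mul]

theorem K_nonneg (hn : 2 ≤ n) {R : TieRule n l m} {f : History n l → (Fin n → ℕ) → ℝ}
    {h : History n l} {z : Fin n → ℕ} (hf : ∀ h z, 0 ≤ f h z) : 0 ≤ K R f h z :=
  Ex_nonneg (freq_P01 hn z) fun y => sum_nonneg fun A _ => mul_nonneg (R.nonneg h y A) (hf _ _)

theorem W_nonneg (hn : 2 ≤ n) (R : TieRule n l m) (t : ℕ) (h : History n l) (z : Fin n → ℕ) :
    0 ≤ W R t h z := by
  induction t generalizing h z with
  | zero => exact sv_nonneg z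
  | succ t ih =>
    by_cases hz : Clean m z
    · rw [W_clean R _ h hz]
      exact sv_nonneg z
    · rw [W_succ R t h hz]
      exact K_nonneg hn ih

/-- The conditions for the parameters. -/
structure Par (n l m T J : ℕ) (G pm H : ℝ) (e : ℕ → ℝ) : Prop where
  hn : 2 ≤ n
  hm : 1 ≤ m
  hmn : m ≤ n
  hml : 36 * m ≤ l
  heps : 2 ^ m * Real.exp (-((l - 1 : ℕ) * ((m : ℝ) / l))) ≤ 1 / (4 * m)
  hpm0 : 0 ≤ pm
  hpm1 : pm ≤ 1
  hpm : pm ≤ Real.exp (-(Real.log 4 * Real.exp (144 * H)))
  hB : (m : ℝ) ≤ pm / 8 * l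
  hJ : (J : ℝ) + 1 ≤ Real.exp (pm / 16 * l)
  hJH : hh H (J + 1) = H
  hH : 0 ≤ H
  hG : 0 ≤ G
  hnG : (n : ℝ) ≤ Real.exp (G * l)
  he0 : ∀ t, 0 < e t
  he1 : ∀ t, 2 * (e t * l) ≤ m
  he2 : ∀ t < T, e (t + 1) * l / m ≤ Real.exp (-((9 * G + 1) / e t))
  he3 : ∀ t ≤ T, 1 / (n : ℝ) ≤ Real.exp (-((9 * G + 1) / e t))
  hfin1 : Real.exp (m - (l - 1) / 8) ≤ 1 / 4
  hfin2 : Real.exp (m - (l - 1) / 8) * (l * (1 + T * (T + 2))) ≤ 1 / (32 * m)
  hfin3 : n * (Real.exp (-(pm / 16 * l)) ^ T + T * Real.exp (-(l * H)) +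
    (T + 1) * Real.exp (-(8 * G * l))) ≤ 1 / (32 * (n * m))
  hT : 1 ≤ T

variable {T J : ℕ} {G pm H : ℝ} {e : ℕ → ℝ}

theorem Par.hml' (P : Par n l m T J G pm H e) : m ≤ l := by
  have := P.hml
  omega

theorem Par.hm0 (P : Par n l m T J G pm H e) : (0 : ℝ) < m := by exact_mod_cast P.hm

theorem Par.hn0 (P : Par n l m T J G pm H e) : (0 : ℝ) < n := by
  have := P.hn
  exact_mod_cast (by omega : 0 < n)

theorem Par.hl0 (P : Par n l m T J G pm H e) : (0 : ℝ) < l := by
  have h1 := P.hml'
  have h2 := P.hm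
  exact_mod_cast (by omega : 0 < l)

theorem not_clean {z : Fin n → ℕ} (hz : ¬ Clean m z) : ∃ i, z i ≠ 0 ∧ z i ≠ m := by
  unfold Clean at hz
  push Not at hz
  exact hz

theorem Par.K_sv (P : Par n l m T J G pm H e) {R : TieRule n l m} {h : History n l}
    {z : Fin n → ℕ} (hz : Val m z) (hc : ¬ Clean m z) :
    K R (fun _ z => sv m z) h z ≤ sv m z - 1 / (2 * m) :=
  K_sv_le P.hn P.hm P.hmn P.hml P.heps hz (not_clean hc)

theorem Par.W_le_sv (P : Par n l m T J G pm H e) (R : TieRule n l m) (t : ℕ) (h : History n l)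
    {z : Fin n → ℕ} (hz : Val m z) : W R t h z ≤ sv m z := by
  induction t generalizing h z with
  | zero => exact le_rfl
  | succ t ih =>
    by_cases hc : Clean m z
    · rw [W_clean R _ h hc]
    · rw [W_succ R t h hc]
      refine (K_mono (g := fun _ z => sv m z) P.hn fun y A hA => ih _ (val_cnt hA)).trans ?_
      have h1 := P.K_sv (R := R) (h := h) hz hc
      have h2 : (0 : ℝ) ≤ 1 / (2 * m) := by positivity
      linarith

theorem Par.W_succ_le (P : Par n l m T J G pm H e) (R : TieRule n l m) (t : ℕ) (h : History n l)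
    {z : Fin n → ℕ} (hz : Val m z) : W R (t + 1) h z ≤ W R t h z := by
  induction t generalizing h z with
  | zero => exact P.W_le_sv R 1 h hz
  | succ t ih =>
    by_cases hc : Clean m z
    · rw [W_clean R _ h hc, W_clean R _ h hc]
    · rw [W_succ R _ h hc, W_succ R _ h hc]
      exact K_mono P.hn fun y A hA => ih _ (val_cnt hA)

/-- The pointwise bound. -/
theorem Par.point (P : Par n l m T J G pm H e) {R : TieRule n l m} {L : Finset (Fin n)} {t : ℕ}
    {al be c : ℝ} (hal : 0 ≤ al) (hbe : 0 ≤ be) (hc : 0 ≤ c)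
    (ih : ∀ h z, Val m z → (∀ i ∈ L, z i = m) → (∀ i, i ∉ L → (z i : ℝ) ≤ e t * l) →
      W R t h z ≤ L.card + (al * Real.exp (l * hh H (XX m L z)) + be + c * XX m L z))
    (h : History n l) {y : Fin l → Fin n → Bool} {A : Finset (Fin l)} (hA : IsBest m y A)
    (hN : N Lᶜ 0 y < m) :
    W R t h (cnt y A) ≤ L.card + ((if gain L y then (1 : ℝ) else 0) * Zb L y +
      n * (if ∃ i ∈ Lᶜ, e t * l < col i y then (1 : ℝ) else 0) + al * GG L m J H y + be +
      c * Zb L y) := by
  have hv := val_cnt hA
  have h1 : W R t h (cnt y A) ≤ sv m (cnt y A) := P.W_le_sv R t h hv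
  have h2 : sv m (cnt y A) ≤ L.card + Zb L y := sv_cnt_le_Zb P.hm P.hml' hA
  have h3 := Zb_nonneg L y
  have h4 := GG_nonneg L m J H y
  have h5 : 0 ≤ al * GG L m J H y := mul_nonneg hal h4
  have h6 : 0 ≤ c * Zb L y := mul_nonneg hc h3
  have hn0 := P.hn0
  have h7 : (0 : ℝ) ≤ n * (if ∃ i ∈ Lᶜ, e t * l < col i y then (1 : ℝ) else 0) := by
    split_ifs <;> simp
  by_cases hg : gain L y
  · rw [if_pos hg, one_mul]
    linarith
  · rw [if_neg hg, zero_mul]
    by_cases ht : ∃ i ∈ Lᶜ, e t * l < col i y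
    · rw [if_pos ht]
      have h8 := sv_le P.hm hv
      have h9 : (0 : ℝ) ≤ L.card := by positivity
      linarith
    · have htop : ∀ i ∈ L, cnt y A i = m := by
        intro i hi
        unfold cnt
        rw [filter_true_of_mem, hA.1]
        intro a _
        by_contra hcon
        exact hg ⟨a, i, hi, by simpa using hcon⟩
      have hlow : ∀ i, i ∉ L → (cnt y A i : ℝ) ≤ e t * l := by
        intro i hi
        push Not at ht
        refine le_trans ?_ (ht i (mem_compl.2 hi))
        exact_mod_cast cnt_le_col y A i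
      have h8 := ih h (cnt y A) hv htop hlow
      have hX0 := XX_nonneg P.hm htop
      have hXZ : XX m L (cnt y A) ≤ Zb L y := by
        unfold XX
        linarith
      have h9 := exp_le_GG P.hm P.hml' hA hN hX0 P.hJH
      have h10 := mul_le_mul_of_nonneg_left h9 hal
      have h11 := mul_le_mul_of_nonneg_left hXZ hc
      linarith

theorem Par.Abv_of (P : Par n l m T J G pm H e) {L : Finset (Fin n)} {z : Fin n → ℕ} {t : ℕ}
    (htop : ∀ i ∈ L, z i = m) (hlow : ∀ i, i ∉ L → (z i : ℝ) ≤ e t * l) : Abv m L z := by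
  refine ⟨htop, fun i hi => ?_⟩
  have h1 := hlow i hi
  have h2 := P.he1 t
  have h3 : (2 : ℝ) * z i ≤ m := by linarith
  exact_mod_cast h3

theorem hh_nonneg {X : ℝ} (hX : 0 ≤ X) (hH : 0 ≤ H) : 0 ≤ hh H X := by
  unfold hh
  have := Real.log_nonneg (by linarith : 1 ≤ 1 + X)
  exact le_min (by linarith) hH

/-- The tower bound. -/
theorem Par.tower (P : Par n l m T J G pm H e) {z : Fin n → ℕ} {S : Finset (Fin n)} {t : ℕ}
    (hS : ∀ i ∈ S, 1 - freq m z i ≤ Real.exp (-((9 * G + 1) / e t))) :
    Ex (l := l) (freq m z) (fun y => if ∃ i ∈ S, e t * l < col i y then (1 : ℝ) else 0) ≤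
      Real.exp (-(8 * G * l)) := by
  have he := P.he0 t
  have hG := P.hG
  refine (Ex_tower (freq_P01 P.hn z) (div_nonneg (by linarith) he.le) S hS).trans ?_
  have h1 : (9 * G + 1) / e t * (e t * l) = (9 * G + 1) * l := by
    field_simp
  rw [h1]
  calc (n : ℝ) * Real.exp (l - (9 * G + 1) * l) ≤ Real.exp (G * l) * Real.exp (l - (9 * G + 1) * l) :=
        mul_le_mul_of_nonneg_right P.hnG (Real.exp_pos _).le
    _ = _ := by
        rw [← Real.exp_add]
        congr 1
        ring

theorem Par.freq_low (P : Par n l m T J G pm H e) {L : Finset (Fin n)} {z : Fin n → ℕ} {t : ℕ}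
    (ht : t < T) (hlow : ∀ i, i ∉ L → (z i : ℝ) ≤ e (t + 1) * l) {i : Fin n} (hi : i ∉ L) :
    1 - freq m z i ≤ Real.exp (-((9 * G + 1) / e t)) := by
  have hm0 := P.hm0
  rcases Nat.eq_zero_or_pos (z i) with h0 | h0
  · rw [freq_zero P.hn h0]
    exact P.he3 t ht.le
  · have h1 := hlow i hi
    have h2 := P.he1 (t + 1)
    have h3 : (2 : ℝ) * z i ≤ m := by linarith
    have h4 : 2 * z i ≤ m := by exact_mod_cast h3
    refine (one_sub_freq_le' P.hn P.hm P.hmn h0 (by omega)).trans (le_trans ?_ (P.he2 t ht))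
    gcongr

/-- The bound for the stopped process. -/
theorem Par.claim (P : Par n l m T J G pm H e) (R : TieRule n l m) (L : Finset (Fin n)) (t : ℕ)
    (ht : t ≤ T) : ∀ h z, Val m z → (∀ i ∈ L, z i = m) → (∀ i, i ∉ L → (z i : ℝ) ≤ e t * l) →
      W R t h z ≤ L.card + (n * (Real.exp (-(pm / 16 * l)) ^ t + t * Real.exp (-(l * H))) *
        Real.exp (l * hh H (XX m L z)) +
        (n * t * Real.exp (-(8 * G * l)) + t * (l * L.card / n) * (1 + t)) +
        t * (l * L.card / n) * XX m L z) := by
  have hm0 := P.hm0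
  have hn0 := P.hn0
  have hl0 := P.hl0
  have hH := P.hH
  set g : ℝ := l * L.card / n with hg
  have hg0 : 0 ≤ g := by positivity
  set E : ℝ := Real.exp (-(pm / 16 * l)) with hE
  have hE0 : 0 < E := Real.exp_pos _
  set de : ℝ := Real.exp (-(8 * G * l)) with hde
  have hde0 : 0 < de := Real.exp_pos _
  set F : ℝ := Real.exp (-(l * H)) with hF
  have hF0 : 0 < F := Real.exp_pos _
  induction t with
  | zero =>
    intro h z hz htop hlow
    have hX0 := XX_nonneg P.hm htop
    have h1 : 1 ≤ Real.exp (l * hh H (XX m L z)) :=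
      Real.one_le_exp (mul_nonneg hl0.le (hh_nonneg hX0 hH))
    have h2 := sv_le P.hm hz
    have h3 : (n : ℝ) * 1 ≤ n * Real.exp (l * hh H (XX m L z)) :=
      mul_le_mul_of_nonneg_left h1 hn0.le
    have h4 : (0 : ℝ) ≤ L.card := by positivity
    rw [W_zero]
    simp only [pow_zero, Nat.cast_zero, zero_mul, add_zero, mul_one, mul_zero]
    linarith
  | succ t ih =>
    intro h z hz htop hlow
    have hX0 := XX_nonneg P.hm htop
    have hWs := P.W_le_sv R (t + 1) h hz
    have hsn := sv_le P.hm hz
    have hL0 : (0 : ℝ) ≤ L.card := by positivity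
    have hrest : 0 ≤ (n * (t + 1 : ℕ) * de + (t + 1 : ℕ) * g * (1 + (t + 1 : ℕ))) +
        (t + 1 : ℕ) * g * XX m L z := by positivity
    by_cases hXm : Real.exp (144 * H) ≤ 1 + XX m L z
    · -- the average number of zeros is large
      have h1 : hh H (XX m L z) = H := by
        unfold hh
        refine min_eq_right ?_
        rw [le_div_iff₀ (by norm_num)]
        have := Real.log_le_log (Real.exp_pos _) hXm
        rw [Real.log_exp] at this
        linarith
      have h2 : (n : ℝ) ≤ n * (E ^ (t + 1) + (t + 1 : ℕ) * F) * Real.exp (l * hh H (XX m L z)) := by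
        rw [h1]
        have h3 : F * Real.exp (l * H) = 1 := by
          rw [hF, ← Real.exp_add]
          simp
        have h4 : (1 : ℝ) ≤ (t + 1 : ℕ) := by exact_mod_cast Nat.succ_le_succ (Nat.zero_le t)
        have h5 : 0 ≤ E ^ (t + 1) * Real.exp (l * H) := by positivity
        calc (n : ℝ) = n * (1 * (F * Real.exp (l * H))) := by rw [h3]; ring
          _ ≤ n * ((t + 1 : ℕ) * (F * Real.exp (l * H))) := by
              refine mul_le_mul_of_nonneg_left ?_ hn0.le
              exact mul_le_mul_of_nonneg_right h4 (by rw [h3]; norm_num)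
          _ ≤ n * (E ^ (t + 1) * Real.exp (l * H) + (t + 1 : ℕ) * (F * Real.exp (l * H))) := by
              refine mul_le_mul_of_nonneg_left ?_ hn0.le
              linarith
          _ = _ := by ring
      linarith
    · push Not at hXm
      by_cases hcl : Clean m z
      · have h1 : sv m z = L.card := by
          have h2 := Abv.XX_eq P.hm htop
          have h3 : ∑ i ∈ Lᶜ, (z i : ℝ) / m = 0 := by
            refine sum_eq_zero fun i hi => ?_
            have h4 := (P.Abv_of htop hlow).low i (mem_compl.1 hi)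
            have h5 := P.hm
            rcases hcl i with h6 | h6
            · rw [h6]; simp
            · omega
          unfold XX at h2
          linarith
        rw [W_clean R _ h hcl, h1]
        have h7 : 0 ≤ n * (E ^ (t + 1) + (t + 1 : ℕ) * F) * Real.exp (l * hh H (XX m L z)) := by
          positivity
        linarith
      · rw [W_succ R t h hcl]
        have hAbv := P.Abv_of htop hlow
        have hp := freq_P01 (m := m) P.hn z
        have ih' := ih (by omega)
        have hal : 0 ≤ n * (E ^ t + t * F) := by positivity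
        have hbe : 0 ≤ n * t * de + t * g * (1 + t) := by positivity
        have hc : 0 ≤ t * g := by positivity
        set al : ℝ := n * (E ^ t + t * F) with hal'
        set be : ℝ := n * t * de + t * g * (1 + t) with hbe'
        set c : ℝ := t * g with hc'
        have h1 : K R (W R t) h z ≤ Ex (l := l) (freq m z) (fun y => (L.card : ℝ) +
            ((if gain L y then (1 : ℝ) else 0) * Zb L y +
            n * (if ∃ i ∈ Lᶜ, e t * l < col i y then (1 : ℝ) else 0) + al * GG L m J H y + be +
            c * Zb L y)) := by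
          refine K_le P.hn fun y A hA => ?_
          rcases lt_or_ge (N Lᶜ 0 y) m with hN | hN
          · exact P.point hal hbe hc ih' _ hA hN
          · have h2 := sv_cnt_le_of_N P.hm hA hN
            have h3 := P.W_le_sv R t ((y, A) :: h) (val_cnt hA)
            have h4 := Zb_nonneg L y
            have h5 := GG_nonneg L m J H y
            have h6 : 0 ≤ (if gain L y then (1 : ℝ) else 0) * Zb L y :=
              mul_nonneg (by split_ifs <;> norm_num) h4
            have h7 : (0 : ℝ) ≤ n * (if ∃ i ∈ Lᶜ, e t * l < col i y then (1 : ℝ) else 0) := by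
              split_ifs <;> simp
            have h8 := mul_nonneg hal h5
            have h9 := mul_nonneg hc h4
            simp only [Nat.cast_zero, add_zero] at h2
            linarith
        rw [Ex_add, Ex_add, Ex_add, Ex_add, Ex_add, Ex_const, Ex_const, Ex_mul, Ex_mul, Ex_mul] at h1
        have h2 : Ex (l := l) (freq m z) (Zb L) ≤ XX m L z + 1 := by
          rw [Ex_Zb (by have := P.hml'; have := P.hm; omega)]
          exact sum_compl_le P.hn P.hm htop
        have h3 : Ex (l := l) (freq m z) (fun y => (if gain L y then (1 : ℝ) else 0) * Zb L y) ≤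
            g * (XX m L z + 1) := by
          refine (Ex_gain_le hp (fun i hi => freq_top P.hm (htop i hi)) (Zb L) (Zb_nonneg L)
            (fun b i hi y => Zb_flip hi y)).trans ?_
          exact mul_le_mul_of_nonneg_left h2 hg0
        have h4 : Ex (l := l) (freq m z)
            (fun y => if ∃ i ∈ Lᶜ, e t * l < col i y then (1 : ℝ) else 0) ≤ de :=
          P.tower fun i hi => P.freq_low (by omega) hlow (mem_compl.1 hi)
        have hpm' : pm ≤ Real.exp (-(Real.log 4 * (XX m L z + 1))) := by
          refine P.hpm.trans (Real.exp_le_exp.2 (neg_le_neg ?_))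
          exact mul_le_mul_of_nonneg_left (by linarith) (Real.log_nonneg (by norm_num))
        have h5 : Ex (l := l) (freq m z) (GG L m J H) ≤
            E * Real.exp (l * hh H (XX m L z)) :=
          hAbv.Ex_GG P.hn P.hm P.hmn P.hml P.hpm0 P.hpm1 hpm' P.hB H P.hJ
        set X := XX m L z with hX
        set Q : ℝ := Real.exp (l * hh H X) with hQ
        have hQ0 : 0 < Q := Real.exp_pos _
        have h6 := mul_le_mul_of_nonneg_left h4 hn0.le
        have h7 := mul_le_mul_of_nonneg_left h5 hal
        have h8 := mul_le_mul_of_nonneg_left h2 hc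
        have hE1 : E ≤ 1 := by
          rw [hE]
          refine Real.exp_le_one_iff.2 ?_
          have := P.hpm0
          have : 0 ≤ pm / 16 * l := by positivity
          linarith
        have h9 : al * (E * Q) ≤ n * (E ^ (t + 1) + (t + 1 : ℕ) * F) * Q := by
          rw [hal']
          have h10 : (t : ℝ) * F * E ≤ (t + 1 : ℕ) * F := by
            have h11 : (t : ℝ) * F * E ≤ t * F * 1 :=
              mul_le_mul_of_nonneg_left hE1 (by positivity)
            push_cast
            linarith
          calc n * (E ^ t + t * F) * (E * Q) = n * (E ^ (t + 1) + t * F * E) * Q := by ring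
            _ ≤ _ := by
                refine mul_le_mul_of_nonneg_right (mul_le_mul_of_nonneg_left ?_ hn0.le) hQ0.le
                linarith
        have h12 : 0 ≤ g * t := by positivity
        refine h1.trans ?_
        push_cast at h9 ⊢
        nlinarith

/-- The best offspring are good if many offspring are good. -/
theorem sv_cnt_le_pos (hm : 1 ≤ m) {y : Fin l → Fin n → Bool} {A : Finset (Fin l)}
    (hA : IsBest m y A) {k : ℕ} (hN : m ≤ N univ k y) (a : Fin l) :
    sv m (cnt y A) ≤ k - 1 / m * max ((k : ℝ) - zo univ (y a)) 0 := by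
  have hm0 : (0 : ℝ) < m := by exact_mod_cast hm
  have hle : ∀ b ∈ A, (zeros (y b) : ℝ) ≤ k := fun b hb => by exact_mod_cast hA.of_le hN hb
  have hcard : (A.card : ℝ) = m := by exact_mod_cast hA.1
  rw [sv_cnt, div_le_iff₀ hm0]
  have h1 : (k - 1 / m * max ((k : ℝ) - zo univ (y a)) 0) * m =
      k * m - max ((k : ℝ) - zo univ (y a)) 0 := by
    field_simp
  rw [h1]
  have hall : ∑ b ∈ A, (zeros (y b) : ℝ) ≤ k * m := by
    calc ∑ b ∈ A, (zeros (y b) : ℝ) ≤ ∑ _b ∈ A, (k : ℝ) := sum_le_sum hle
      _ = _ := by rw [sum_const, nsmul_eq_mul, hcard]; ring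
  rcases le_or_gt (k : ℝ) (zo univ (y a)) with h2 | h2
  · rw [max_eq_right (by linarith)]
    linarith
  · rw [max_eq_left (by linarith)]
    by_cases ha : a ∈ A
    · rw [← add_sum_erase A _ ha]
      have h3 : ∑ b ∈ A.erase a, (zeros (y b) : ℝ) ≤ k * (m - 1) := by
        calc ∑ b ∈ A.erase a, (zeros (y b) : ℝ) ≤ ∑ _b ∈ A.erase a, (k : ℝ) :=
              sum_le_sum fun b hb => hle b (mem_of_mem_erase hb)
          _ = _ := by
              rw [sum_const, nsmul_eq_mul, card_erase_of_mem ha, hA.1, Nat.cast_sub hm]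
              push_cast
              ring
      have h4 : (zeros (y a) : ℝ) = zo univ (y a) := rfl
      linarith
    · have h3 : ∑ b ∈ A, (zeros (y b) : ℝ) ≤ zo univ (y a) * m := by
        calc ∑ b ∈ A, (zeros (y b) : ℝ) ≤ ∑ _b ∈ A, (zo univ (y a) : ℝ) :=
              sum_le_sum fun b hb => by exact_mod_cast hA.zeros_le hb ha
          _ = _ := by rw [sum_const, nsmul_eq_mul, hcard]; ring
      have h4 : (1 : ℝ) ≤ m := by exact_mod_cast hm
      nlinarith

end Pool.Agent.H80.UM
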