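import Pool.Agent.H80.UM.First

/-!
# The Lyapunov function
-/

set_option linter.unusedSectionVars false

namespace Pool.Agent.H80.UM

open Finset Classical

variable {n l m T J : ℕ} {G pm H : ℝ} {e : ℕ → ℝ}

/-- The optimum is among the offspring. -/
def opt (y : Fin l → Fin n → Bool) : Prop := ∃ a, y a = fun _ => true

/-- One generation of the process that is killed when the optimum is found. -/
noncomputable def KK (R : TieRule n l m) (f : History n l → (Fin n → ℕ) → ℝ) (h : History n l)
    (z : Fin n → ℕ) : ℝ :=
  Ex (freq m z) fun y => if opt y then 0 else ∑ A, R.w h y A * f ((y, A) :: h) (cnt y A)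

theorem KK_le_K (hn : 2 ≤ n) {R : TieRule n l m} {f : History n l → (Fin n → ℕ) → ℝ}
    {h : History n l} {z : Fin n → ℕ} (hf : ∀ h z, 0 ≤ f h z) : KK R f h z ≤ K R f h z := by
  refine Ex_mono (freq_P01 hn z) fun y => ?_
  split_ifs
  · exact sum_nonneg fun A _ => mul_nonneg (R.nonneg h y A) (hf _ _)
  · exact le_rfl

/-- The Lyapunov function. -/
noncomputable def V (R : TieRule n l m) (T : ℕ) (h : History n l) (z : Fin n → ℕ) : ℝ :=
  W R T h z + 1 / (16 * (n * m)) * sv m z + 12

theorem V_nonneg (hn : 2 ≤ n) (R : TieRule n l m) (T : ℕ) (h : History n l) (z : Fin n → ℕ) :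
    0 ≤ V R T h z := by
  unfold V
  have h1 := W_nonneg hn R T h z
  have h2 := sv_nonneg (m := m) z
  have h3 : (0 : ℝ) ≤ 1 / (16 * (n * m)) := by positivity
  have h4 := mul_nonneg h3 h2
  linarith

theorem Par.V_le (P : Par n l m T J G pm H e) (R : TieRule n l m) (h : History n l)
    {z : Fin n → ℕ} (hz : Val m z) : V R T h z ≤ 2 * n + 12 := by
  have h1 := P.W_le_sv R T h hz
  have h2 := sv_le P.hm hz
  have hm0 := P.hm0
  have hn0 := P.hn0
  have hm1 : (1 : ℝ) ≤ m := by exact_mod_cast P.hm
  have hn1 : (1 : ℝ) ≤ n := by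
    have := P.hn
    exact_mod_cast (by omega : 1 ≤ n)
  have h3 : (1 : ℝ) / (16 * (n * m)) ≤ 1 := by
    rw [div_le_one (by positivity)]
    nlinarith
  have h4 : 1 / (16 * (n * m)) * sv m z ≤ 1 * n :=
    mul_le_mul h3 h2 (sv_nonneg z) (by norm_num)
  unfold V
  linarith

/-- The drift of the Lyapunov function. -/
theorem Par.drift (P : Par n l m T J G pm H e) (R : TieRule n l m) (h : History n l)
    {z : Fin n → ℕ} (hz : Val m z) :
    KK R (V R T) h z ≤ V R T h z - 1 / (32 * (n * m ^ 2)) := by
  have hm0 := P.hm0
  have hn0 := P.hn0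
  have hl0 := P.hl0
  have hm1 : (1 : ℝ) ≤ m := by exact_mod_cast P.hm
  have hn1 : (1 : ℝ) ≤ n := by
    have := P.hn
    exact_mod_cast (by omega : 1 ≤ n)
  have hd : (1 : ℝ) / (32 * (n * m ^ 2)) = 1 / (16 * (n * m)) * (1 / (2 * m)) := by
    field_simp
    norm_num
  have hka0 : (0 : ℝ) < 1 / (16 * (n * m)) := by positivity
  have hka1 : (1 : ℝ) / (16 * (n * m)) ≤ 1 / 16 := by
    refine one_div_le_one_div_of_le (by norm_num) ?_
    nlinarith
  have hka2 : (1 : ℝ) / (8 * (n * m)) = 2 * (1 / (16 * (n * m))) := by
    field_simp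
    norm_num
  have h2m : (1 : ℝ) / (2 * m) ≤ 1 := by
    rw [div_le_one (by positivity)]
    linarith
  have h2m0 : (0 : ℝ) ≤ 1 / (2 * m) := by positivity
  set ka : ℝ := 1 / (16 * (n * m)) with hka
  rw [hd]
  have hKV : K R (V R T) h z = K R (W R T) h z + ka * K R (fun _ z => sv m z) h z + 12 := by
    have := K_lin (R := R) (h := h) (z := z) (W R T) (fun _ z => sv m z) ka 12
    exact this
  by_cases hc : Clean m z
  · by_cases htop : ∃ i, z i = m
    · have h1 := P.first R h hc htop
      have h2 := K_sv_le_add_one (R := R) (h := h) P.hn P.hm P.hml' z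
      have h3 : KK R (V R T) h z ≤ K R (V R T) h z := KK_le_K P.hn (V_nonneg P.hn R T)
      have h4 := mul_le_mul_of_nonneg_left h2 hka0.le
      have h5 := mul_le_mul_of_nonneg_left h2m hka0.le
      unfold V at h3 ⊢
      rw [W_clean R T h hc]
      unfold V at hKV
      rw [hka2] at h1
      linarith
    · -- the all-zero state
      have hz0 : ∀ i, z i = 0 := by
        intro i
        rcases hc i with h1 | h1
        · exact h1
        · exact absurd ⟨i, h1⟩ htop
      have hsv : sv m z = 0 := by
        unfold sv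
        rw [sum_eq_zero fun i _ => by rw [hz0 i, Nat.cast_zero], zero_div]
      have hl1 : 1 ≤ l := by have := P.hml'; have := P.hm; omega
      set a0 : Fin l := ⟨0, hl1⟩ with ha0
      have hp := freq_P01 (m := m) P.hn z
      have h1 : KK R (V R T) h z ≤ Ex (l := l) (freq m z) (fun y =>
          (∑ A, R.w h y A * ((1 + ka) * sv m (cnt y A))) +
            12 * (fun x => if zo univ x ≤ 0 then (0 : ℝ) else 1) (y a0)) := by
        refine Ex_mono hp fun y => ?_
        have h0 : 0 ≤ ∑ A, R.w h y A * ((1 + ka) * sv m (cnt y A)) :=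
          sum_nonneg fun A _ => mul_nonneg (R.nonneg h y A)
            (mul_nonneg (by linarith) (sv_nonneg _))
        have h0' : (0 : ℝ) ≤ (fun x => if zo univ x ≤ 0 then (0 : ℝ) else 1) (y a0) := by
          dsimp only
          split_ifs <;> norm_num
        by_cases ho : opt y
        · rw [if_pos ho]
          linarith
        · rw [if_neg ho]
          have h2 : (fun x => if zo univ x ≤ 0 then (0 : ℝ) else 1) (y a0) = 1 := by
            dsimp only
            rw [if_neg]
            intro hcon
            refine ho ⟨a0, ?_⟩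
            funext i
            have h3 : zo univ (y a0) = 0 := by omega
            unfold zo at h3
            rw [card_eq_zero, filter_eq_empty_iff] at h3
            have := h3 (mem_univ i)
            simpa using this
          rw [h2, mul_one]
          have h3 : ∑ A, R.w h y A * V R T ((y, A) :: h) (cnt y A) ≤
              ∑ A, R.w h y A * ((1 + ka) * sv m (cnt y A) + 12) := by
            refine sum_le_sum fun A _ => ?_
            by_cases hw : R.w h y A = 0
            · rw [hw, zero_mul, zero_mul]
            · refine mul_le_mul_of_nonneg_left ?_ (R.nonneg h y A)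
              have h4 := P.W_le_sv R T ((y, A) :: h) (val_cnt (R.best h y A hw))
              unfold V
              linarith
          have h4 : ∑ A, R.w h y A * ((1 + ka) * sv m (cnt y A) + 12) =
              (∑ A, R.w h y A * ((1 + ka) * sv m (cnt y A))) + 12 := by
            simp_rw [mul_add]
            rw [sum_add_distrib, ← sum_mul, R.sum_eq_one, one_mul]
          linarith
      rw [Ex_add, Ex_mul, Ex_single a0 (fun x => if zo univ x ≤ 0 then (0 : ℝ) else 1),
        E1_two] at h1
      have h2 : Ex (l := l) (freq m z) (fun y => ∑ A, R.w h y A * ((1 + ka) * sv m (cnt y A))) =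
          (1 + ka) * K R (fun _ z => sv m z) h z := by
        unfold K
        rw [← Ex_mul]
        congr 1
        funext y
        rw [mul_sum]
        exact sum_congr rfl fun A _ => by ring
      rw [h2] at h1
      have h3 := K_sv_le_add_one (R := R) (h := h) P.hn P.hm P.hml' z
      rw [hsv, zero_add] at h3
      have h4 : 1 / 4 ≤ Pz (freq m z) univ 0 :=
        (quarter_le P.hn univ fun i _ => freq_zero P.hn (hz0 i)).trans (Pz_zero_ge hp univ 0)
      have h5 := mul_le_mul_of_nonneg_left h3 (by linarith : 0 ≤ 1 + ka)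
      have h6 := mul_le_mul_of_nonneg_left h2m hka0.le
      unfold V
      rw [W_clean R T h hc, hsv]
      unfold V at h1
      linarith
  · have h1 := P.K_sv (R := R) (h := h) hz hc
    have h3 : KK R (V R T) h z ≤ K R (V R T) h z := KK_le_K P.hn (V_nonneg P.hn R T)
    have h4 := mul_le_mul_of_nonneg_left h1 hka0.le
    have h5 : K R (W R T) h z ≤ W R T h z := by
      rw [← W_succ R T h hc]
      exact P.W_succ_le R T h hz
    unfold V at h3 ⊢
    unfold V at hKV
    linarith

theorem miss_nonneg {p : Fin n → ℝ} (hn : 2 ≤ n) (hm : 1 ≤ m) (hp : P01 p) (R : TieRule n l m)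
    (j t : ℕ) (h : History n l) : 0 ≤ miss R j t h p := by
  induction t generalizing h p with
  | zero =>
    refine Ex_nonneg hp fun y => ?_
    split_ifs <;> norm_num
  | succ t ih =>
    refine Ex_nonneg hp fun y => ?_
    split_ifs
    · exact le_rfl
    · refine sum_nonneg fun A _ => ?_
      by_cases hw : R.w h y A = 0
      · rw [hw, zero_mul]
      · refine mul_nonneg (R.nonneg h y A) (ih ?_ _)
        rw [update_eq hm (R.best h y A hw).1]
        exact freq_P01 hn _

theorem miss_zero_le {p : Fin n → ℝ} (hp : P01 p) (R : TieRule n l m) (j : ℕ)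
    (h : History n l) : miss R j 0 h p ≤ 1 := by
  refine le_trans (Ex_mono hp fun y => ?_) (Ex_one (l := l) (p := p)).le
  split_ifs <;> norm_num

/-- The sum of the probabilities that the optimum is not found. -/
theorem sum_miss_succ (hm : 1 ≤ m) {p : Fin n → ℝ} (R : TieRule n l m)
    (j N : ℕ) (h : History n l) : ∑ t ∈ range N, miss R j (t + 1) h p =
      Ex p (fun y => if opt y then 0 else ∑ A, R.w h y A *
        ∑ t ∈ range N, miss R j t ((y, A) :: h) (freq m (cnt y A))) := by
  have h1 : ∀ t, miss R j (t + 1) h p = Ex p (fun y => if opt y then 0 else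
      ∑ A, R.w h y A * miss R j t ((y, A) :: h) (freq m (cnt y A))) := by
    intro t
    unfold Ex
    rw [miss]
    refine sum_congr rfl fun y _ => ?_
    congr 1
    unfold opt
    dsimp only
    by_cases ho : ∃ a, y a = fun _ => true
    · rw [if_pos ho, if_pos ho]
    · rw [if_neg ho, if_neg ho]
      refine sum_congr rfl fun A _ => ?_
      by_cases hw : R.w h y A = 0
      · rw [hw, zero_mul, zero_mul]
      · rw [update_eq hm (R.best h y A hw).1]
  simp_rw [h1]
  rw [← Ex_sum]
  congr 1
  funext y
  by_cases ho : opt y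
  · simp [ho]
  · simp only [if_neg ho]
    rw [sum_comm]
    refine sum_congr rfl fun A _ => ?_
    rw [mul_sum]

theorem Par.sum_miss (P : Par n l m T J G pm H e) (R : TieRule n l m) (j N : ℕ)
    (h : History n l) {z : Fin n → ℕ} (hz : Val m z) :
    ∑ t ∈ range N, miss R j t h (freq m z) ≤ V R T h z * (32 * (n * m ^ 2)) := by
  have hm0 := P.hm0
  have hn0 := P.hn0
  have hd0 : (0 : ℝ) < 32 * (n * m ^ 2) := by positivity
  induction N generalizing h z with
  | zero =>
    rw [range_zero, sum_empty]
    exact mul_nonneg (V_nonneg P.hn R T h z) hd0.le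
  | succ N ih =>
    rw [sum_range_succ', sum_miss_succ P.hm]
    have h1 := miss_zero_le (freq_P01 (m := m) P.hn z) R j h
    have h2 : Ex (freq m z) (fun y => if opt y then 0 else ∑ A, R.w h y A *
        ∑ t ∈ range N, miss R j t ((y, A) :: h) (freq m (cnt y A))) ≤
        (32 * (n * m ^ 2)) * KK R (V R T) h z := by
      unfold KK
      rw [← Ex_mul]
      refine Ex_mono (freq_P01 P.hn z) fun y => ?_
      by_cases ho : opt y
      · rw [if_pos ho, if_pos ho, mul_zero]
      · rw [if_neg ho, if_neg ho, mul_sum]
        refine sum_le_sum fun A _ => ?_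
        by_cases hw : R.w h y A = 0
        · rw [hw, zero_mul, zero_mul, mul_zero]
        · have h3 := ih ((y, A) :: h) (val_cnt (R.best h y A hw))
          have h4 := mul_le_mul_of_nonneg_left h3 (R.nonneg h y A)
          linarith
    have h3 := mul_le_mul_of_nonneg_left (P.drift R h hz) hd0.le
    have h4 : 32 * (n * m ^ 2) * (1 / (32 * (n * m ^ 2)) : ℝ) = 1 := by
      field_simp
    rw [mul_sub, h4] at h3
    linarith

/-- The bound for the expected optimization time. -/
theorem Par.time (P : Par n l m T J G pm H e) (R : TieRule n l m) :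
    expectedTime R ≤ ENNReal.ofReal (l * (1 + (2 * n + 12) * (32 * (n * m ^ 2)))) := by
  have hm0 := P.hm0
  have hn0 := P.hn0
  have hl0 := P.hl0
  have hd0 : (0 : ℝ) < 32 * (n * m ^ 2) := by positivity
  have hp : P01 (fun _ : Fin n => (1 / 2 : ℝ)) := fun i => by norm_num
  have hb0 : (0 : ℝ) ≤ (2 * n + 12) * (32 * (n * m ^ 2)) := by positivity
  have hj : ∀ j N : ℕ, ∑ t ∈ range N, miss R j t [] (fun _ => 1 / 2) ≤
      1 + (2 * n + 12) * (32 * (n * m ^ 2)) := by
    intro j N
    cases N with
    | zero =>
      rw [range_zero, sum_empty]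
      linarith
    | succ N =>
      rw [sum_range_succ', sum_miss_succ P.hm]
      have h1 := miss_zero_le hp R j []
      have h2 : Ex (fun _ : Fin n => (1 / 2 : ℝ)) (fun y : Fin l → Fin n → Bool => if opt y then 0
          else ∑ A, R.w [] y A *
            ∑ t ∈ range N, miss R j t ((y, A) :: []) (freq m (cnt y A))) ≤
          (2 * n + 12) * (32 * (n * m ^ 2)) := by
        rw [← Ex_const (l := l) (p := fun _ : Fin n => (1 / 2 : ℝ))
          ((2 * n + 12) * (32 * (n * m ^ 2)))]
        refine Ex_mono hp fun y => ?_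
        by_cases ho : opt y
        · rw [if_pos ho]
          exact hb0
        · rw [if_neg ho]
          calc ∑ A, R.w [] y A * ∑ t ∈ range N, miss R j t ((y, A) :: []) (freq m (cnt y A))
              ≤ ∑ A, R.w [] y A * ((2 * n + 12) * (32 * (n * m ^ 2))) := by
                refine sum_le_sum fun A _ => ?_
                by_cases hw : R.w [] y A = 0
                · rw [hw, zero_mul, zero_mul]
                · refine mul_le_mul_of_nonneg_left ?_ (R.nonneg [] y A)
                  have hv := val_cnt (R.best [] y A hw)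
                  refine (P.sum_miss R j N ((y, A) :: []) hv).trans ?_
                  exact mul_le_mul_of_nonneg_right (P.V_le R _ hv) hd0.le
            _ = _ := by rw [← sum_mul, R.sum_eq_one, one_mul]
      linarith
  unfold expectedTime
  refine ENNReal.tsum_le_of_sum_range_le fun N => ?_
  have h1 : ∑ t ∈ range N, ∑ j ∈ range l, ENNReal.ofReal (miss R j t [] fun _ => 1 / 2) =
      ENNReal.ofReal (∑ j ∈ range l, ∑ t ∈ range N, miss R j t [] fun _ => 1 / 2) := by
    rw [sum_comm, ENNReal.ofReal_sum_of_nonneg]
    · refine sum_congr rfl fun j _ => ?_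
      rw [ENNReal.ofReal_sum_of_nonneg]
      intro t _
      exact miss_nonneg P.hn P.hm hp R j t []
    · intro j _
      exact sum_nonneg fun t _ => miss_nonneg P.hn P.hm hp R j t []
  rw [h1]
  refine ENNReal.ofReal_le_ofReal ?_
  calc ∑ j ∈ range l, ∑ t ∈ range N, miss R j t [] (fun _ => 1 / 2)
      ≤ ∑ _j ∈ range l, ((1 : ℝ) + (2 * n + 12) * (32 * (n * m ^ 2))) :=
        sum_le_sum fun j _ => hj j N
    _ = _ := by rw [sum_const, card_range, nsmul_eq_mul]

end Pool.Agent.H80.UM
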