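import Pool.Agent.H80.UM.Lyap

/-!
# The choice of the parameters
-/

set_option linter.unusedSectionVars false

namespace Pool.Agent.H80.UM

open Finset Classical Filter Topology

/-- The tower of thresholds. -/
noncomputable def tow (B G : ℝ) : ℕ → ℝ
  | 0 => 1 / (4 * B)
  | t + 1 => 1 / (4 * B) * Real.exp (-((9 * G + 1) / tow B G t))

theorem tow_pos {B G : ℝ} (hB : 0 < B) (t : ℕ) : 0 < tow B G t := by
  cases t with
  | zero => unfold tow; positivity
  | succ t => unfold tow; positivity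

theorem tow_le {B G : ℝ} (hB : 0 < B) (hG : 0 ≤ G) (t : ℕ) : tow B G t ≤ 1 / (4 * B) := by
  cases t with
  | zero => exact le_rfl
  | succ t =>
    have h1 := tow_pos (G := G) hB t
    have h2 : 0 ≤ (9 * G + 1) / tow B G t := div_nonneg (by linarith) h1.le
    have h3 : Real.exp (-((9 * G + 1) / tow B G t)) ≤ 1 := Real.exp_le_one_iff.2 (by linarith)
    unfold tow
    calc 1 / (4 * B) * Real.exp (-((9 * G + 1) / tow B G t)) ≤ 1 / (4 * B) * 1 :=
          mul_le_mul_of_nonneg_left h3 (by positivity)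
      _ = _ := mul_one _

theorem ev_heps : ∀ᶠ m : ℕ in atTop, ∀ l : ℕ, m ≤ l → 1 ≤ m →
    2 ^ m * Real.exp (-((l - 1 : ℕ) * ((m : ℝ) / l))) ≤ 1 / (4 * m) := by
  have he := Real.exp_one_gt_d9
  have hr0 : (0 : ℝ) ≤ 2 * Real.exp (-1) := by positivity
  have hr1 : 2 * Real.exp (-1) < 1 := by
    rw [Real.exp_neg, ← div_eq_mul_inv, div_lt_one (Real.exp_pos _)]
    linarith
  have h1 := tendsto_self_mul_const_pow_of_lt_one hr0 hr1
  have hc : (0 : ℝ) < 1 / (4 * Real.exp 1) := by positivity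
  filter_upwards [h1.eventually (gt_mem_nhds hc)] with m hm l hml hm1
  have hm0 : (0 : ℝ) < m := by exact_mod_cast hm1
  have hl1 : 1 ≤ l := hm1.trans hml
  have hl0 : (0 : ℝ) < l := by exact_mod_cast hl1
  have hcast : ((l - 1 : ℕ) : ℝ) = l - 1 := by
    rw [Nat.cast_sub hl1]
    simp
  have h2 : (m : ℝ) - 1 ≤ (l - 1 : ℕ) * ((m : ℝ) / l) := by
    rw [hcast]
    have h3 : ((l : ℝ) - 1) * (m / l) = m - m / l := by field_simp
    have h4 : (m : ℝ) / l ≤ 1 := by
      rw [div_le_one hl0]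
      exact_mod_cast hml
    linarith
  calc 2 ^ m * Real.exp (-((l - 1 : ℕ) * ((m : ℝ) / l)))
      ≤ 2 ^ m * Real.exp (1 - m) := by
        refine mul_le_mul_of_nonneg_left (Real.exp_le_exp.2 (by linarith)) (by positivity)
    _ = Real.exp 1 * (2 * Real.exp (-1)) ^ m := by
        rw [mul_pow, ← Real.exp_nat_mul, mul_left_comm, ← Real.exp_add]
        congr 2
        ring
    _ ≤ 1 / (4 * m) := by
        rw [le_div_iff₀ (by positivity)]
        rw [lt_div_iff₀ (by positivity)] at hm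
        nlinarith

theorem ev_hfin (C : ℝ) : ∀ᶠ l : ℕ in atTop, ∀ m : ℕ, 1 ≤ m → 36 * m ≤ l →
    Real.exp (m - (l - 1) / 8) ≤ 1 / 4 ∧
      Real.exp (m - (l - 1) / 8) * (l * C) ≤ 1 / (32 * m) := by
  set r : ℝ := Real.exp (-(7 / 72)) with hr
  have hr0 : 0 < r := Real.exp_pos _
  have hr1 : r < 1 := by
    rw [hr]
    rw [← Real.exp_zero]
    exact Real.exp_lt_exp.2 (by norm_num)
  have h1 := tendsto_pow_atTop_nhds_zero_of_lt_one hr0.le hr1
  have h2 := tendsto_pow_const_mul_const_pow_of_abs_lt_one 2 (r := r)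
    (by rw [abs_of_pos hr0]; exact hr1)
  have hc1 : (0 : ℝ) < 1 / (4 * Real.exp (1 / 8)) := by positivity
  have hc2 : (0 : ℝ) < 1 / (32 * Real.exp (1 / 8) * (|C| + 1)) := by positivity
  filter_upwards [h1.eventually (gt_mem_nhds hc1), h2.eventually (gt_mem_nhds hc2)] with l h3 h4
    m hm hml
  have hm0 : (0 : ℝ) < m := by exact_mod_cast hm
  have hl0 : (0 : ℝ) < l := by exact_mod_cast (by omega : 0 < l)
  have hml' : (36 : ℝ) * m ≤ l := by exact_mod_cast hml
  have h5 : Real.exp (m - (l - 1) / 8) ≤ Real.exp (1 / 8) * r ^ l := by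
    rw [hr, ← Real.exp_nat_mul, ← Real.exp_add]
    refine Real.exp_le_exp.2 ?_
    linarith
  have he8 : 0 < Real.exp (1 / 8) := Real.exp_pos _
  have hrl : 0 < r ^ l := by positivity
  constructor
  · refine h5.trans ?_
    rw [lt_div_iff₀ (by positivity)] at h3
    nlinarith
  · rw [lt_div_iff₀ (by positivity)] at h4
    rw [le_div_iff₀ (by positivity)]
    have hC : C ≤ |C| + 1 := by
      have := le_abs_self C
      linarith
    have hC0 : 0 < |C| + 1 := by positivity
    calc Real.exp (m - (l - 1) / 8) * (l * C) * (32 * m)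
        ≤ Real.exp (m - (l - 1) / 8) * (l * (|C| + 1)) * (32 * m) := by
          gcongr
      _ ≤ (Real.exp (1 / 8) * r ^ l) * (l * (|C| + 1)) * (32 * l) := by
          have : (m : ℝ) ≤ l := by linarith
          gcongr
      _ = (l : ℝ) ^ 2 * r ^ l * (32 * Real.exp (1 / 8) * (|C| + 1)) := by ring
      _ ≤ 1 := h4.le

theorem ev_exp (D : ℝ) {a : ℝ} (ha : 0 < a) : ∀ᶠ l : ℕ in atTop, D ≤ Real.exp (a * l) := by
  have h1 : Tendsto (fun l : ℕ => Real.exp (a * l)) atTop atTop :=
    Real.tendsto_exp_atTop.comp (tendsto_natCast_atTop_atTop.const_mul_atTop ha)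
  exact h1.eventually_ge_atTop D

/-- The number of offspring. -/
noncomputable def lam (c : ℝ) (n : ℕ) : ℕ := ⌊c * Real.log n⌋₊

theorem lam_le {c : ℝ} (hc : 0 ≤ c) (n : ℕ) : (lam c n : ℝ) ≤ c * Real.log n := by
  refine Nat.floor_le (mul_nonneg hc (Real.log_natCast_nonneg n))

theorem tendsto_log_nat : Tendsto (fun n : ℕ => Real.log n) atTop atTop :=
  Real.tendsto_log_atTop.comp tendsto_natCast_atTop_atTop

theorem tendsto_lam {c : ℝ} (hc : 0 < c) : Tendsto (lam c) atTop atTop :=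
  tendsto_nat_floor_atTop.comp (tendsto_log_nat.const_mul_atTop hc)

theorem ev_hnG {c : ℝ} (hc : 0 < c) : ∀ᶠ n : ℕ in atTop, (n : ℝ) ≤ Real.exp (2 / c * lam c n) := by
  filter_upwards [tendsto_log_nat.eventually_ge_atTop (2 / c), eventually_ge_atTop 1] with n hn hn1
  have hn0 : (0 : ℝ) < n := by exact_mod_cast hn1
  have h1 : c * Real.log n - 1 < lam c n := by
    have := Nat.lt_floor_add_one (c * Real.log n)
    unfold lam
    linarith
  calc (n : ℝ) = Real.exp (Real.log n) := (Real.exp_log hn0).symm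
    _ ≤ _ := by
        refine Real.exp_le_exp.2 ?_
        have h2 : 2 / c * (c * Real.log n - 1) ≤ 2 / c * lam c n :=
          mul_le_mul_of_nonneg_left h1.le (by positivity)
        have h3 : 2 / c * (c * Real.log n - 1) = 2 * Real.log n - 2 / c := by
          field_simp
        linarith

theorem ev_cube {c : ℝ} (hc : 0 < c) (D : ℝ) :
    ∀ᶠ n : ℕ in atTop, D * (lam c n : ℝ) ^ 3 ≤ n := by
  have h1 := (Real.isLittleO_pow_log_id_atTop (n := 3)).def
    (c := 1 / ((|D| + 1) * c ^ 3)) (by positivity)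
  have h2 := tendsto_natCast_atTop_atTop (R := ℝ) |>.eventually h1
  filter_upwards [h2] with n hn
  have hlog : 0 ≤ Real.log n := Real.log_natCast_nonneg n
  have h3 := lam_le hc.le n
  have h4 : (lam c n : ℝ) ^ 3 ≤ (c * Real.log n) ^ 3 :=
    pow_le_pow_left₀ (by positivity) h3 3
  rw [Real.norm_of_nonneg (by positivity), id, Real.norm_of_nonneg (by positivity)] at hn
  have hD : D ≤ |D| + 1 := by
    have := le_abs_self D
    linarith
  calc D * (lam c n : ℝ) ^ 3 ≤ (|D| + 1) * (lam c n : ℝ) ^ 3 := by gcongr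
    _ ≤ (|D| + 1) * (c * Real.log n) ^ 3 := by gcongr
    _ = (|D| + 1) * c ^ 3 * Real.log n ^ 3 := by ring
    _ ≤ (|D| + 1) * c ^ 3 * (1 / ((|D| + 1) * c ^ 3) * n) :=
        mul_le_mul_of_nonneg_left hn (by positivity)
    _ = n := by field_simp

/-- The parameters exist. -/
theorem ev_Par {c : ℝ} (hc : 0 < c) : ∃ B : ℕ, ∃ T J : ℕ, ∃ G pm H : ℝ, ∃ e : ℕ → ℝ,
    ∀ᶠ n : ℕ in atTop, Par n (lam c n) (lam c n / B) T J G pm H e := by
  set G : ℝ := 2 / c with hG
  have hG0 : 0 < G := by positivity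
  set H : ℝ := 8 * G with hH
  have hH0 : 0 < H := by positivity
  set pm : ℝ := Real.exp (-(Real.log 4 * Real.exp (144 * H))) with hpm
  have hpm0 : 0 < pm := Real.exp_pos _
  have hpm1 : pm ≤ 1 := by
    rw [hpm]
    refine Real.exp_le_one_iff.2 ?_
    have := mul_nonneg (Real.log_nonneg (by norm_num : (1 : ℝ) ≤ 4)) (Real.exp_pos (144 * H)).le
    linarith
  set J : ℕ := ⌈Real.exp (144 * H)⌉₊ with hJ
  set B : ℕ := ⌈8 / pm⌉₊ + 36 with hB
  have hB36 : 36 ≤ B := by omega
  have hB8 : 8 / pm ≤ B := by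
    rw [hB]
    push_cast
    have := Nat.le_ceil (8 / pm)
    linarith
  have hB0 : (0 : ℝ) < B := by exact_mod_cast (by omega : 0 < B)
  set T : ℕ := ⌈128 * G / pm⌉₊ + 1 with hT
  have hT' : 128 * G / pm ≤ T := by
    rw [hT]
    push_cast
    have := Nat.le_ceil (128 * G / pm)
    linarith
  have hlam := tendsto_lam hc
  have hmu : Tendsto (fun n => lam c n / B) atTop atTop :=
    (Nat.tendsto_div_const_atTop (by omega)).comp hlam
  refine ⟨B, T, J, G, pm, H, tow B G, ?_⟩
  have hhe3 : ∀ᶠ n : ℕ in atTop, ∀ t ∈ range (T + 1),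
      Real.exp ((9 * G + 1) / tow B G t) ≤ (n : ℝ) := by
    rw [Filter.eventually_all_finset]
    intro t _
    exact tendsto_natCast_atTop_atTop.eventually_ge_atTop _
  filter_upwards [eventually_ge_atTop 2, hmu.eventually_ge_atTop 1, hmu.eventually ev_heps,
    hlam.eventually (ev_hfin (1 + T * (T + 2))),
    hlam.eventually (ev_exp ((J : ℝ) + 1) (by positivity : 0 < pm / 16)), hhe3, ev_hnG hc,
    ev_cube hc 1, eventually_ge_atTop (32 * (2 * T + 2))] with n hn hm hheps hfin hhJ hhe3 hhnG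
    hcube hnT
  set l := lam c n with hl
  have hml : l / B * B ≤ l := Nat.div_mul_le_self l B
  have hlm : l < (l / B + 1) * B := by
    have := Nat.lt_mul_div_succ l (show 0 < B by omega)
    rwa [mul_comm] at this
  set m := l / B with hm'
  have hm0 : (0 : ℝ) < m := by exact_mod_cast hm
  have hn0 : (0 : ℝ) < n := by exact_mod_cast (by omega : 0 < n)
  have h36 : 36 * m ≤ l := by nlinarith
  have hml1 : m ≤ l := by omega
  have hl1 : 1 ≤ l := by omega
  have hl0 : (0 : ℝ) < l := by exact_mod_cast hl1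
  have hBm : (m : ℝ) * B ≤ l := by exact_mod_cast hml
  have hBl : (l : ℝ) ≤ 2 * B * m := by
    have h1 : l ≤ 2 * B * m := by nlinarith
    exact_mod_cast h1
  have hln : (l : ℝ) ≤ n := by
    have h1 : (1 : ℝ) ≤ l := by exact_mod_cast hl1
    have h2 : (l : ℝ) ≤ 1 * (l : ℝ) ^ 3 := by
      nlinarith [mul_nonneg (by linarith : (0 : ℝ) ≤ l - 1) (by positivity : (0 : ℝ) ≤ (l : ℝ) * l)]
    linarith
  have hmn : m ≤ n := by
    have h1 : l ≤ n := by exact_mod_cast hln
    omega
  have hmn' : (m : ℝ) ≤ n := by exact_mod_cast hmn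
  have htp := fun t => tow_pos (G := G) hB0 t
  have htl := fun t => tow_le (G := G) hB0 hG0.le t
  obtain ⟨hfin1, hfin2⟩ := hfin m hm h36
  refine ⟨hn, hm, hmn, h36, hheps l hml1 hm, hpm0.le, hpm1, le_rfl, ?_, hhJ, ?_, hH0.le, hG0.le,
    hhnG, htp, ?_, ?_, ?_, hfin1, hfin2, ?_, by omega⟩
  · -- hB
    have h1 : 8 ≤ B * pm := by
      rwa [div_le_iff₀ hpm0] at hB8
    have h2 : (m : ℝ) * 8 ≤ m * (B * pm) := mul_le_mul_of_nonneg_left h1 hm0.le
    have h3 : (m : ℝ) * B * pm ≤ l * pm := mul_le_mul_of_nonneg_right hBm hpm0.le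
    linarith
  · -- hJH
    unfold hh
    refine min_eq_right ?_
    rw [le_div_iff₀ (by norm_num)]
    have h1 : Real.exp (144 * H) ≤ 1 + ((J : ℝ) + 1) := by
      have := Nat.le_ceil (Real.exp (144 * H))
      rw [hJ]
      linarith
    have h2 := Real.log_le_log (Real.exp_pos _) h1
    rw [Real.log_exp] at h2
    linarith
  · -- he1
    intro t
    have h1 : tow B G t * l ≤ 1 / (4 * B) * (2 * B * m) :=
      mul_le_mul (htl t) hBl hl0.le (by positivity)
    have h2 : 1 / (4 * (B : ℝ)) * (2 * B * m) = m / 2 := by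
      field_simp
      norm_num
    linarith
  · -- he2
    intro t _
    have h0 : tow B G (t + 1) = 1 / (4 * B) * Real.exp (-((9 * G + 1) / tow B G t)) := rfl
    rw [h0, div_le_iff₀ hm0]
    have h1 := Real.exp_pos (-((9 * G + 1) / tow B G t))
    calc 1 / (4 * B) * Real.exp (-((9 * G + 1) / tow B G t)) * l
        ≤ 1 / (4 * B) * Real.exp (-((9 * G + 1) / tow B G t)) * (2 * B * m) := by gcongr
      _ = Real.exp (-((9 * G + 1) / tow B G t)) * (m / 2) := by
          field_simp
          norm_num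
      _ ≤ _ := by
          refine mul_le_mul_of_nonneg_left (by linarith) h1.le
  · -- he3
    intro t ht
    have h1 := hhe3 t (by rw [mem_range]; omega)
    rw [Real.exp_neg, ← one_div]
    exact one_div_le_one_div_of_le (Real.exp_pos _) h1
  · -- hfin3
    have hE : Real.exp (-(pm / 16 * l)) ^ T ≤ Real.exp (-(8 * G * l)) := by
      rw [← Real.exp_nat_mul]
      refine Real.exp_le_exp.2 ?_
      rw [div_le_iff₀ hpm0] at hT'
      have := mul_le_mul_of_nonneg_right hT' hl0.le
      linarith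
    have hF : Real.exp (-(l * H)) = Real.exp (-(8 * G * l)) := by
      congr 1
      rw [hH]
      ring
    rw [hF]
    have h8 : (n : ℝ) ^ 8 ≤ Real.exp (8 * G * l) := by
      calc (n : ℝ) ^ 8 ≤ Real.exp (G * l) ^ 8 := pow_le_pow_left₀ hn0.le hhnG 8
        _ = _ := by
            rw [← Real.exp_nat_mul]
            congr 1
            push_cast
            ring
    have h9 : Real.exp (-(8 * G * l)) ≤ 1 / (n : ℝ) ^ 8 := by
      rw [Real.exp_neg, ← one_div]
      exact one_div_le_one_div_of_le (by positivity) h8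
    have hT0 : (0 : ℝ) ≤ T := by positivity
    calc n * (Real.exp (-(pm / 16 * l)) ^ T + T * Real.exp (-(8 * G * l)) +
          (T + 1) * Real.exp (-(8 * G * l)))
        ≤ n * ((2 * T + 2) * (1 / (n : ℝ) ^ 8)) := by
          refine mul_le_mul_of_nonneg_left ?_ hn0.le
          nlinarith [Real.exp_pos (-(8 * G * l))]
      _ ≤ 1 / (32 * (n * m)) := by
          rw [le_div_iff₀ (by positivity)]
          have hnT' : (32 : ℝ) * (2 * T + 2) ≤ n := by exact_mod_cast hnT
          have hn1 : (1 : ℝ) ≤ n := by exact_mod_cast (by omega : 1 ≤ n)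
          calc n * ((2 * T + 2) * (1 / (n : ℝ) ^ 8)) * (32 * (n * m))
              = (32 * (2 * T + 2)) * m / (n : ℝ) ^ 6 := by field_simp
            _ ≤ n * n / (n : ℝ) ^ 6 := by gcongr
            _ ≤ 1 := by
                rw [div_le_one (by positivity)]
                calc (n : ℝ) * n = n ^ 2 := by ring
                  _ ≤ n ^ 6 := pow_le_pow_right₀ hn1 (by norm_num)

/-- The expected optimization time is polynomial. -/
theorem ev_time {c : ℝ} (hc : 0 < c) : ∃ B : ℕ, ∀ᶠ n : ℕ in atTop, 1 ≤ lam c n / B ∧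
    ∀ R : TieRule n (lam c n) (lam c n / B), expectedTime R ≤ (n : ENNReal) ^ 3 := by
  obtain ⟨B, T, J, G, pm, H, e, hP⟩ := ev_Par hc
  refine ⟨B, ?_⟩
  filter_upwards [hP, ev_cube hc 449] with n P hcube
  refine ⟨P.hm, fun R => (P.time R).trans ?_⟩
  set l := lam c n with hl
  set m := l / B with hm'
  have hm0 := P.hm0
  have hn0 := P.hn0
  have hl0 := P.hl0
  have hml : (m : ℝ) ≤ l := by exact_mod_cast P.hml'
  have hn1 : (1 : ℝ) ≤ n := by
    have := P.hn
    exact_mod_cast (by omega : 1 ≤ n)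
  have hl1 : (1 : ℝ) ≤ l := by
    have h1 := P.hml'
    have h2 := P.hm
    exact_mod_cast (by omega : 1 ≤ l)
  have h1 : (2 : ℝ) * n + 12 ≤ 14 * n := by linarith
  have h2 : (l : ℝ) * (1 + (2 * n + 12) * (32 * (n * m ^ 2))) ≤ (n : ℝ) ^ 3 := by
    calc (l : ℝ) * (1 + (2 * n + 12) * (32 * (n * m ^ 2)))
        ≤ l * (n ^ 2 * l ^ 2 + (14 * n) * (32 * (n * l ^ 2))) := by
          have h3 : (1 : ℝ) ≤ n ^ 2 * l ^ 2 := by
            have h4 : (1 : ℝ) ≤ (n : ℝ) ^ 2 := one_le_pow₀ hn1
            have h5 : (1 : ℝ) ≤ (l : ℝ) ^ 2 := one_le_pow₀ hl1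
            nlinarith
          gcongr
      _ = (n : ℝ) ^ 2 * (449 * (l : ℝ) ^ 3) := by ring
      _ ≤ (n : ℝ) ^ 2 * n := mul_le_mul_of_nonneg_left hcube (by positivity)
      _ = (n : ℝ) ^ 3 := by ring
  calc ENNReal.ofReal (l * (1 + (2 * n + 12) * (32 * (n * m ^ 2))))
      ≤ ENNReal.ofReal ((n : ℝ) ^ 3) := ENNReal.ofReal_le_ofReal h2
    _ = (n : ENNReal) ^ 3 := by
        rw [ENNReal.ofReal_pow (by positivity), ENNReal.ofReal_natCast]

/-- A best set exists. -/
theorem exists_best {n l m : ℕ} (hml : m ≤ l) (y : Fin l → Fin n → Bool) :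
    ∃ A, IsBest m y A := by
  induction m with
  | zero => exact ⟨∅, rfl, fun a ha => absurd ha (notMem_empty a)⟩
  | succ m ih =>
    obtain ⟨A, hA1, hA2⟩ := ih (by omega)
    have hne : (Aᶜ).Nonempty := by
      rw [← card_pos, card_compl, Fintype.card_fin, hA1]
      omega
    obtain ⟨a, ha, hmax⟩ := exists_max_image Aᶜ (fun b => oneMax (y b)) hne
    rw [mem_compl] at ha
    refine ⟨insert a A, ?_, ?_⟩
    · rw [card_insert_of_notMem ha, hA1]
    · intro b hb d hd
      rw [mem_insert, not_or] at hd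
      rcases mem_insert.1 hb with rfl | hb
      · exact hmax d (mem_compl.2 hd.2)
      · exact hA2 b hb d hd.2

/-- A tie-breaking rule exists. -/
theorem nonempty_tieRule {n l m : ℕ} (hml : m ≤ l) : Nonempty (TieRule n l m) := by
  choose f hf using fun y : Fin l → Fin n → Bool => exists_best (n := n) hml y
  refine ⟨⟨fun _ y A => if A = f y then 1 else 0, ?_, ?_, ?_⟩⟩
  · intro h y A
    split_ifs <;> norm_num
  · intro h y
    simp
  · intro h y A hA
    have : A = f y := by
      by_contra hcon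
      exact hA (if_neg hcon)
    rw [this]
    exact hf y

end Pool.Agent.H80.UM
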