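import Pool.Agent.H80.UM.Ex

/-!
# Selection
-/

set_option linter.unusedSectionVars false

namespace Pool.Agent.H80.UM

open Finset Classical

variable {n l m : ℕ}

/-- The numbers of zeros of the selected offspring at the positions. -/
def cnt (y : Fin l → Fin n → Bool) (A : Finset (Fin l)) : Fin n → ℕ :=
  fun i => (A.filter fun a => y a i = false).card

/-- The frequency vector of a state. -/
noncomputable def freq (m : ℕ) (z : Fin n → ℕ) : Fin n → ℝ := fun i => clamp n (1 - z i / m)

/-- The average number of zeros of the selected offspring. -/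
noncomputable def sv (m : ℕ) (z : Fin n → ℕ) : ℝ := (∑ i, (z i : ℝ)) / m

theorem cnt_le {y : Fin l → Fin n → Bool} {A : Finset (Fin l)} (i : Fin n) : cnt y A i ≤ A.card :=
  card_filter_le _ _

theorem update_eq (hm : 1 ≤ m) {y : Fin l → Fin n → Bool} {A : Finset (Fin l)} (hA : A.card = m) :
    update m y A = freq m (cnt y A) := by
  funext i
  unfold update freq cnt
  congr 1
  have h := card_filter_add_card_filter_not (s := A) (fun a => y a i = false)
  rw [hA] at h
  have h1 : (A.filter fun a => ¬ y a i = false) = A.filter fun a => y a i = true := by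
    ext a; simp
  rw [h1] at h
  have hm0 : (m : ℝ) ≠ 0 := by positivity
  have h2 : ((A.filter fun a => y a i = false).card : ℝ) +
      (A.filter fun a => y a i = true).card = m := by exact_mod_cast h
  rw [eq_sub_iff_add_eq, ← add_div, add_comm, h2, div_self hm0]

theorem sum_cnt (y : Fin l → Fin n → Bool) (A : Finset (Fin l)) :
    ∑ i, cnt y A i = ∑ a ∈ A, zeros (y a) := by
  unfold cnt zeros zo
  simp_rw [card_filter]
  rw [sum_comm]

theorem sv_cnt (y : Fin l → Fin n → Bool) (A : Finset (Fin l)) :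
    sv m (cnt y A) = (∑ a ∈ A, (zeros (y a) : ℝ)) / m := by
  unfold sv
  congr 1
  exact_mod_cast sum_cnt y A

theorem IsBest.zeros_le {y : Fin l → Fin n → Bool} {A : Finset (Fin l)} (h : IsBest m y A) {a b : Fin l}
    (ha : a ∈ A) (hb : b ∉ A) : zeros (y a) ≤ zeros (y b) := by
  have h1 := h.2 a ha b hb
  have h2 := zeros_add_oneMax (y a)
  have h3 := zeros_add_oneMax (y b)
  omega

/-- The selected offspring are better than the average. -/
theorem IsBest.avg {y : Fin l → Fin n → Bool} {A : Finset (Fin l)} (h : IsBest m y A)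
    (f : ℕ → ℝ) (hf : Monotone f) :
    (l : ℝ) * ∑ a ∈ A, f (zeros (y a)) ≤ m * ∑ a, f (zeros (y a)) := by
  have h1 : ∑ a ∈ A, ∑ _b ∈ Aᶜ, f (zeros (y a)) ≤ ∑ _a ∈ A, ∑ b ∈ Aᶜ, f (zeros (y b)) :=
    sum_le_sum fun a ha => sum_le_sum fun b hb => hf (h.zeros_le ha (mem_compl.1 hb))
  simp only [sum_const, nsmul_eq_mul] at h1
  rw [← mul_sum] at h1
  have h2 : (A.card : ℝ) = m := by exact_mod_cast h.1
  have h3 : ((Aᶜ).card : ℝ) = l - m := by
    have := card_compl_add_card A
    rw [Fintype.card_fin] at this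
    have h4 : ((Aᶜ).card : ℝ) + A.card = l := by exact_mod_cast this
    linarith
  rw [h2, h3] at h1
  rw [← sum_add_sum_compl A]
  linarith

/-- The number of offspring with at most `j` zeros in `S`. -/
def N (S : Finset (Fin n)) (j : ℕ) (y : Fin l → Fin n → Bool) : ℕ :=
  (univ.filter fun a => zo S (y a) ≤ j).card

theorem N_mono (S : Finset (Fin n)) {j j' : ℕ} (h : j ≤ j') (y : Fin l → Fin n → Bool) :
    N S j y ≤ N S j' y :=
  card_le_card fun a ha => by
    rw [mem_filter] at ha ⊢
    exact ⟨ha.1, ha.2.trans h⟩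

theorem IsBest.of_le {y : Fin l → Fin n → Bool} {A : Finset (Fin l)} (h : IsBest m y A) {j : ℕ}
    (hj : m ≤ N univ j y) {a : Fin l} (ha : a ∈ A) : zeros (y a) ≤ j := by
  by_contra hcon
  have h1 : (univ.filter fun a => zeros (y a) ≤ j) ⊆ A.erase a := by
    intro b hb
    rw [mem_filter] at hb
    rw [mem_erase]
    refine ⟨fun hh => hcon (hh ▸ hb.2), ?_⟩
    by_contra hbA
    exact hcon ((h.zeros_le ha hbA).trans hb.2)
  have h2 := card_le_card h1
  rw [card_erase_of_mem ha, h.1] at h2
  have h3 : 0 < m := by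
    rw [← h.1]
    exact card_pos.2 ⟨a, ha⟩
  unfold N at hj
  unfold zeros at h2
  omega

theorem IsBest.min_le {y : Fin l → Fin n → Bool} {A : Finset (Fin l)} (h : IsBest m y A) (j : ℕ) :
    min m (N univ j y) ≤ (A.filter fun a => zeros (y a) ≤ j).card := by
  rcases le_or_gt m (N univ j y) with hj | hj
  · rw [min_eq_left hj]
    have h1 : (A.filter fun a => zeros (y a) ≤ j) = A :=
      filter_true_of_mem fun a ha => h.of_le hj ha
    rw [h1, h.1]
  · rw [min_eq_right hj.le]
    by_cases hall : ∀ a ∈ A, zeros (y a) ≤ j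
    · exfalso
      have h1 : A ⊆ univ.filter fun a => zeros (y a) ≤ j :=
        fun a ha => mem_filter.2 ⟨mem_univ _, hall a ha⟩
      have h2 := card_le_card h1
      rw [h.1] at h2
      unfold N at hj
      unfold zeros at h2
      omega
    · push Not at hall
      obtain ⟨a, ha, hja⟩ := hall
      refine card_le_card fun b hb => ?_
      rw [mem_filter] at hb ⊢
      refine ⟨?_, hb.2⟩
      by_contra hbA
      have := h.zeros_le ha hbA
      unfold zeros at this hja
      omega

/-- The layer cake formula. -/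
theorem IsBest.layer (hm : 1 ≤ m) {y : Fin l → Fin n → Bool} {A : Finset (Fin l)}
    (h : IsBest m y A) :
    sv m (cnt y A) ≤ ∑ j ∈ range n, (1 - (min m (N univ j y) : ℕ) / (m : ℝ)) := by
  have hm0 : (0 : ℝ) < m := by exact_mod_cast hm
  rw [sv_cnt, div_le_iff₀ hm0, sum_mul]
  have h1 : ∑ a ∈ A, (zeros (y a) : ℝ) =
      ∑ j ∈ range n, ((A.card : ℝ) - (A.filter fun a => zeros (y a) ≤ j).card) := by
    have h2 : ∀ a, (zeros (y a) : ℝ) = ∑ j ∈ range n, if ¬ zeros (y a) ≤ j then (1 : ℝ) else 0 := by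
      intro a
      rw [← sum_filter, sum_const, nsmul_eq_mul, mul_one]
      have h3 : (range n).filter (fun j => ¬ zeros (y a) ≤ j) = range (zeros (y a)) := by
        ext j
        rw [mem_filter, mem_range, mem_range]
        have := Pool.Agent.H80.UM.zeros_le (y a)
        omega
      rw [h3, card_range]
    simp_rw [h2]
    rw [sum_comm]
    refine sum_congr rfl fun j _ => ?_
    rw [← sum_filter, sum_const, nsmul_eq_mul, mul_one]
    have h4 := card_filter_add_card_filter_not (s := A) (fun a => zeros (y a) ≤ j)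
    have h5 : ((A.filter fun a => zeros (y a) ≤ j).card : ℝ) +
      (A.filter fun a => ¬ zeros (y a) ≤ j).card = A.card := by exact_mod_cast h4
    linarith
  rw [h1]
  refine sum_le_sum fun j _ => ?_
  have h6 : ((min m (N univ j y) : ℕ) : ℝ) ≤ (A.filter fun a => zeros (y a) ≤ j).card := by
    exact_mod_cast h.min_le j
  rw [sub_mul, one_mul, div_mul_cancel₀ _ hm0.ne', h.1]
  linarith

theorem one_sub_le_exp (hm : 1 ≤ m) (k : ℕ) :
    1 - (min m k : ℕ) / (m : ℝ) ≤ Real.exp (-(k / m)) := by
  have hm0 : (0 : ℝ) < m := by exact_mod_cast hm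
  rcases le_total m k with h | h
  · rw [min_eq_left h, div_self hm0.ne', sub_self]
    exact (Real.exp_pos _).le
  · rw [min_eq_right h]
    have := Real.add_one_le_exp (-((k : ℝ) / m))
    linarith

/-- The number of offspring with at most `j` zeros as a product. -/
theorem pow_N (S : Finset (Fin n)) (t : ℝ) (j : ℕ) (y : Fin l → Fin n → Bool) :
    t ^ N S j y = ∏ a, if zo S (y a) ≤ j then t else 1 := by
  unfold N
  rw [prod_ite, prod_const, prod_const_one, mul_one]

/-- If fewer than `m` offspring have at most `j` zeros. -/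
theorem one_le_of_lt' {S : Finset (Fin n)} {j : ℕ} {y : Fin l → Fin n → Bool} (h : N S j y < m) :
    1 ≤ 2 ^ m * ∏ b, (if zo S (y b) ≤ j then (1 / 2 : ℝ) else 1) := by
  rw [← pow_N]
  calc (1 : ℝ) = 2 ^ m * (1 / 2) ^ m := by rw [← mul_pow]; norm_num
    _ ≤ _ := by
        refine mul_le_mul_of_nonneg_left ?_ (by positivity)
        exact pow_le_pow_of_le_one (by norm_num) (by norm_num) h.le

/-- If fewer than `m` offspring have at most `j` zeros. -/
theorem one_le_of_lt {S : Finset (Fin n)} {j : ℕ} {y : Fin l → Fin n → Bool} (h : N S j y < m)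
    (a : Fin l) :
    1 ≤ 2 ^ m * ∏ b ∈ univ.erase a, (if zo S (y b) ≤ j then (1 / 2 : ℝ) else 1) := by
  rw [prod_ite, prod_const, prod_const_one, mul_one]
  have h1 : ((univ.erase a).filter fun b => zo S (y b) ≤ j).card ≤ m := by
    refine le_trans (card_le_card ?_) h.le
    exact filter_subset_filter _ (erase_subset _ _)
  calc (1 : ℝ) = 2 ^ m * (1 / 2) ^ m := by rw [← mul_pow]; norm_num
    _ ≤ _ := by
        refine mul_le_mul_of_nonneg_left ?_ (by positivity)
        exact pow_le_pow_of_le_one (by norm_num) (by norm_num) h1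

theorem one_sub_le_avg (hm : 1 ≤ m) (hml : m ≤ l) (S : Finset (Fin n)) (j : ℕ)
    (y : Fin l → Fin n → Bool) :
    1 - (min m (N S j y) : ℕ) / (m : ℝ) ≤ (1 / l : ℝ) * ∑ a, (if zo S (y a) ≤ j then (0 : ℝ) else 1) *
      (∏ b ∈ univ.erase a, (if zo S (y b) ≤ j then (1 / 2 : ℝ) else 1)) * 2 ^ m := by
  have hm0 : (0 : ℝ) < m := by exact_mod_cast hm
  have hl0 : (0 : ℝ) < l := by exact_mod_cast hm.trans hml
  rcases le_or_gt m (N S j y) with h | h
  · rw [min_eq_left h, div_self hm0.ne', sub_self]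
    refine mul_nonneg (by positivity) (sum_nonneg fun a _ => ?_)
    refine mul_nonneg (mul_nonneg ?_ (prod_nonneg fun b _ => ?_)) (by positivity)
    · split_ifs <;> norm_num
    · split_ifs <;> norm_num
  · rw [min_eq_right h.le]
    have h1 : ∑ a, (if zo S (y a) ≤ j then (0 : ℝ) else 1) = l - N S j y := by
      have h2 := card_filter_add_card_filter_not (s := (univ : Finset (Fin l)))
        (fun a => zo S (y a) ≤ j)
      rw [card_univ, Fintype.card_fin] at h2
      have h3 : ((univ.filter fun a => zo S (y a) ≤ j).card : ℝ) +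
        (univ.filter fun a => ¬ zo S (y a) ≤ j).card = l := by exact_mod_cast h2
      have h4 : ∑ a, (if zo S (y a) ≤ j then (0 : ℝ) else 1) =
          (univ.filter fun a => ¬ zo S (y a) ≤ j).card := by
        rw [card_filter]
        push_cast
        refine sum_congr rfl fun a _ => ?_
        split_ifs <;> simp_all
      rw [h4]
      unfold N
      linarith
    calc 1 - (N S j y : ℝ) / m ≤ 1 - N S j y / l := by
          have : (N S j y : ℝ) / l ≤ N S j y / m := by
            gcongr
          linarith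
      _ = (1 / l) * ∑ a, (if zo S (y a) ≤ j then (0 : ℝ) else 1) := by
          rw [h1]; field_simp
      _ ≤ _ := by
          refine mul_le_mul_of_nonneg_left (sum_le_sum fun a _ => ?_) (by positivity)
          have h5 := one_le_of_lt h a
          have h6 : (0 : ℝ) ≤ if zo S (y a) ≤ j then (0 : ℝ) else 1 := by
            split_ifs <;> norm_num
          calc (if zo S (y a) ≤ j then (0 : ℝ) else 1)
              = (if zo S (y a) ≤ j then (0 : ℝ) else 1) * 1 := (mul_one _).symm
            _ ≤ (if zo S (y a) ≤ j then (0 : ℝ) else 1) * (2 ^ m *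
                ∏ b ∈ univ.erase a, (if zo S (y b) ≤ j then (1 / 2 : ℝ) else 1)) :=
                mul_le_mul_of_nonneg_left h5 h6
            _ = _ := by ring

/-! ### The frequencies -/

theorem freq_zero (hn : 2 ≤ n) {z : Fin n → ℕ} {i : Fin n} (hi : z i = 0) :
    1 - freq m z i = 1 / n := by
  have hn0 : (2 : ℝ) ≤ n := by exact_mod_cast hn
  have h1 : (1 : ℝ) / n ≤ 1 / 2 := one_div_le_one_div_of_le (by norm_num) hn0
  have h0 : (0 : ℝ) ≤ 1 / n := by positivity
  unfold freq clamp
  rw [hi, Nat.cast_zero, zero_div, sub_zero, min_eq_left (by linarith), max_eq_right (by linarith)]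
  ring

theorem freq_top (hm : 1 ≤ m) {z : Fin n → ℕ} {i : Fin n} (hi : z i = m) :
    freq m z i = 1 / n := by
  have hm0 : (m : ℝ) ≠ 0 := by positivity
  have h0 : (0 : ℝ) ≤ 1 / n := by positivity
  unfold freq clamp
  rw [hi, div_self hm0, sub_self, max_eq_left]
  exact (min_le_right _ _).trans h0

theorem freq_mid (hn : 2 ≤ n) (hmn : m ≤ n) {z : Fin n → ℕ} {i : Fin n} (h1 : 1 ≤ z i)
    (h2 : z i + 1 ≤ m) : 1 - freq m z i = z i / m := by
  have hm1 : 1 ≤ m := by omega
  have hm0 : (0 : ℝ) < m := by exact_mod_cast hm1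
  have hn0 : (0 : ℝ) < n := by exact_mod_cast (by omega : 0 < n)
  have h3 : (1 : ℝ) / n ≤ 1 / m := one_div_le_one_div_of_le hm0 (by exact_mod_cast hmn)
  have h4 : (1 : ℝ) / m ≤ z i / m := by
    gcongr
    exact_mod_cast h1
  have h5 : (z i : ℝ) / m + 1 / m ≤ 1 := by
    rw [← add_div, div_le_one hm0]
    exact_mod_cast h2
  unfold freq clamp
  rw [min_eq_right (by linarith), max_eq_right (by linarith)]
  ring

theorem freq_P01 (hn : 2 ≤ n) (z : Fin n → ℕ) : P01 (freq m z) := by
  have hn0 : (2 : ℝ) ≤ n := by exact_mod_cast hn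
  have h1 : (1 : ℝ) / n ≤ 1 / 2 := one_div_le_one_div_of_le (by norm_num) hn0
  have h0 : (0 : ℝ) ≤ 1 / n := by positivity
  intro i
  unfold freq clamp
  refine ⟨le_max_of_le_left h0, max_le (by linarith) ((min_le_left _ _).trans (by linarith))⟩

theorem one_sub_freq_le (hn : 2 ≤ n) (hm : 1 ≤ m) (z : Fin n → ℕ) (i : Fin n) :
    1 - freq m z i ≤ z i / m + 1 / n := by
  have h0 : (0 : ℝ) ≤ 1 / n := by positivity
  have h2 : (0 : ℝ) ≤ z i / m := by positivity
  have h3 := le_max_right (1 / (n : ℝ)) (min (1 - 1 / n) (1 - z i / m : ℝ))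
  unfold freq clamp
  rcases le_total (1 - 1 / (n : ℝ)) (1 - z i / m : ℝ) with h | h
  · rw [min_eq_left h] at h3 ⊢
    linarith
  · rw [min_eq_right h] at h3 ⊢
    linarith

theorem one_sub_freq_le' (hn : 2 ≤ n) (hm : 1 ≤ m) (hmn : m ≤ n) {z : Fin n → ℕ} {i : Fin n}
    (hz : 1 ≤ z i) (hz' : z i ≤ m) : 1 - freq m z i ≤ z i / m := by
  rcases eq_or_lt_of_le hz' with h | h
  · rw [freq_top hm h, h, div_self (by positivity)]
    have h0 : (0 : ℝ) ≤ 1 / n := by positivity
    linarith
  · rw [freq_mid hn hmn hz h]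

theorem one_sub_freq_nonneg (hn : 2 ≤ n) (z : Fin n → ℕ) (i : Fin n) : 0 ≤ 1 - freq m z i := by
  have := (freq_P01 (m := m) hn z i).2
  linarith

/-- The sum of the probabilities of zeros. -/
theorem sum_freq_le (hn : 2 ≤ n) (hm : 1 ≤ m) (z : Fin n → ℕ) :
    ∑ i, (1 - freq m z i) ≤ sv m z + 1 := by
  have hn0 : (n : ℝ) ≠ 0 := by positivity
  calc ∑ i, (1 - freq m z i) ≤ ∑ i : Fin n, ((z i : ℝ) / m + 1 / n) :=
        sum_le_sum fun i _ => one_sub_freq_le hn hm z i
    _ = _ := by
        rw [sum_add_distrib, ← sum_div, sum_const, card_univ, Fintype.card_fin, nsmul_eq_mul]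
        unfold sv
        congr 1
        field_simp

/-! ### Products -/

theorem exp_le_one_sub {u : ℝ} (h0 : 0 ≤ u) (h1 : u ≤ 1 / 2) :
    Real.exp (-(Real.log 4 * u)) ≤ 1 - u := by
  have h := rpow_one_add_le_one_add_mul_self (s := (-1 / 2 : ℝ)) (by norm_num)
    (p := 2 * u) (by linarith) (by linarith)
  have h2 : (1 + -1 / 2 : ℝ) ^ (2 * u) = Real.exp (-(Real.log 4 * u)) := by
    rw [Real.rpow_def_of_pos (by norm_num)]
    congr 1
    have h3 : Real.log (1 + -1 / 2) = - Real.log 2 := by
      rw [← Real.log_inv]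
      norm_num
    have h4 : Real.log 4 = 2 * Real.log 2 := by
      rw [show (4 : ℝ) = 2 ^ 2 by norm_num, Real.log_pow]
      norm_num
    rw [h3, h4]
    ring
  rw [h2] at h
  linarith

/-- A lower bound for the probability that there are no zeros in `D`. -/
theorem prod_ge {p : Fin n → ℝ} (D : Finset (Fin n)) (h : ∀ i ∈ D, 0 ≤ 1 - p i ∧ 1 - p i ≤ 1 / 2) :
    Real.exp (-(Real.log 4 * ∑ i ∈ D, (1 - p i))) ≤ ∏ i ∈ D, p i := by
  rw [mul_sum, ← sum_neg_distrib, Real.exp_sum]
  refine prod_le_prod (fun i _ => (Real.exp_pos _).le) fun i hi => ?_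
  have := exp_le_one_sub (h i hi).1 (h i hi).2
  linarith

theorem exp_log4_neg : Real.exp (-Real.log 4) = 1 / 4 := by
  rw [Real.exp_neg, Real.exp_log (by norm_num)]
  norm_num

/-- The probability that there are no zeros at positions with frequency `1 - 1 / n`. -/
theorem quarter_le (hn : 2 ≤ n) {p : Fin n → ℝ} (D : Finset (Fin n))
    (h : ∀ i ∈ D, 1 - p i = 1 / n) : 1 / 4 ≤ ∏ i ∈ D, p i := by
  have hn0 : (2 : ℝ) ≤ n := by exact_mod_cast hn
  have h1 : (1 : ℝ) / n ≤ 1 / 2 := one_div_le_one_div_of_le (by norm_num) hn0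
  have h0 : (0 : ℝ) ≤ 1 / n := by positivity
  refine le_trans ?_ (prod_ge D fun i hi => by rw [h i hi]; exact ⟨h0, h1⟩)
  rw [← exp_log4_neg]
  refine Real.exp_le_exp.2 ?_
  have h2 : ∑ i ∈ D, (1 - p i) ≤ 1 := by
    rw [sum_congr rfl h, sum_const, nsmul_eq_mul]
    have h3 : D.card ≤ n := by
      have := card_le_univ D
      rwa [Fintype.card_fin] at this
    have h4 : (D.card : ℝ) ≤ n := by exact_mod_cast h3
    rw [mul_one_div, div_le_one (by linarith)]
    exact h4
  have h3 : 0 ≤ Real.log 4 := Real.log_nonneg (by norm_num)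
  nlinarith

end Pool.Agent.H80.UM
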