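import Pool.Agent.H80.UM.Gain

/-!
# Tail bounds
-/

set_option linter.unusedSectionVars false

namespace Pool.Agent.H80.UM

open Finset Classical

variable {n l m : ℕ}

theorem two_pow_le_exp (m : ℕ) : (2 : ℝ) ^ m ≤ Real.exp m := by
  have h := Real.exp_one_gt_d9
  calc (2 : ℝ) ^ m ≤ (Real.exp 1) ^ m := pow_le_pow_left₀ (by norm_num) (by linarith) m
    _ = Real.exp m := by rw [← Real.exp_nat_mul, mul_one]

/-- Few offspring with at most `j` zeros. -/
theorem Ex_N_lt {p : Fin n → ℝ} (hp : P01 p) (S : Finset (Fin n)) (j : ℕ) :
    Ex (l := l) p (fun y => if N S j y < m then (1 : ℝ) else 0) ≤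
      Real.exp (m - l * (Pz p S j / 2)) := by
  have hP0 := Pz_nonneg hp S j
  have hP1 := Pz_le_one hp S j
  calc Ex (l := l) p (fun y => if N S j y < m then (1 : ℝ) else 0)
      ≤ Ex (l := l) p (fun y => 2 ^ m * ∏ b, (fun x => if zo S x ≤ j then (1 / 2 : ℝ) else 1)
          (y b)) := by
        refine Ex_mono hp fun y => ?_
        by_cases h : N S j y < m
        · rw [if_pos h]
          exact one_le_of_lt' h
        · rw [if_neg h]
          refine mul_nonneg (by positivity) (prod_nonneg fun b _ => ?_)
          dsimp only
          split_ifs <;> norm_num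
    _ = 2 ^ m * (1 - Pz p S j * (1 - 1 / 2)) ^ l := by
        rw [Ex_mul, Ex_pow (fun x => if zo S x ≤ j then (1 / 2 : ℝ) else 1), E1_two]
    _ ≤ Real.exp m * (Real.exp (-(Pz p S j / 2))) ^ l := by
        have h5 := Real.add_one_le_exp (-(Pz p S j / 2))
        refine mul_le_mul (two_pow_le_exp m) (pow_le_pow_left₀ (by linarith) (by linarith) l)
          (pow_nonneg (by linarith) l) (Real.exp_pos _).le
    _ = _ := by
        rw [← Real.exp_nat_mul, ← Real.exp_add]
        congr 1
        ring

/-- Many offspring with more than `j` zeros. -/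
theorem Ex_N_lt_exp {p : Fin n → ℝ} (hp : P01 p) (S : Finset (Fin n)) (j : ℕ) :
    Ex (l := l) p (fun y => if N S j y < m then (1 : ℝ) else 0) ≤
      Real.exp (l * ((Real.exp 1 - 1) * ∑ i ∈ S, (1 - p i)) - (l - m) * (j + 1)) := by
  calc Ex (l := l) p (fun y => if N S j y < m then (1 : ℝ) else 0)
      ≤ Ex (l := l) p (fun y => Real.exp (-((l - m) * (j + 1))) *
          ∏ b, (fun x => (Real.exp 1) ^ zo S x) (y b)) := by
        refine Ex_mono hp fun y => ?_
        by_cases h : N S j y < m
        · rw [if_pos h]
          have h1 : ((l : ℝ) - m) * (j + 1) ≤ ∑ b, (zo S (y b) : ℝ) := by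
            have h2 : ∑ b : Fin l, (if zo S (y b) ≤ j then (0 : ℝ) else (j + 1)) ≤
                ∑ b, (zo S (y b) : ℝ) := by
              refine sum_le_sum fun b _ => ?_
              split_ifs with hb
              · positivity
              · push Not at hb
                exact_mod_cast hb
            have h3 : ∑ b : Fin l, (if zo S (y b) ≤ j then (0 : ℝ) else (j + 1)) =
                (l - N S j y) * (j + 1) := by
              have h4 := card_filter_add_card_filter_not (s := (univ : Finset (Fin l)))
                (fun a => zo S (y a) ≤ j)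
              rw [card_univ, Fintype.card_fin] at h4
              have h5 : ((univ.filter fun a => zo S (y a) ≤ j).card : ℝ) +
                (univ.filter fun a => ¬ zo S (y a) ≤ j).card = l := by exact_mod_cast h4
              rw [sum_ite, sum_const_zero, zero_add, sum_const, nsmul_eq_mul]
              unfold N
              congr 1
              linarith
            rw [h3] at h2
            refine le_trans ?_ h2
            have h6 : (N S j y : ℝ) ≤ m := by exact_mod_cast h.le
            have h7 : (0 : ℝ) ≤ (j : ℝ) + 1 := by positivity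
            exact mul_le_mul_of_nonneg_right (by linarith) h7
          have h8 : ∏ b, (fun x => (Real.exp 1) ^ zo S x) (y b) =
              Real.exp (∑ b, (zo S (y b) : ℝ)) := by
            rw [Real.exp_sum]
            refine prod_congr rfl fun b _ => ?_
            dsimp only
            rw [← Real.exp_nat_mul, mul_one]
          rw [h8, ← Real.exp_add]
          exact Real.one_le_exp (by linarith)
        · rw [if_neg h]
          exact mul_nonneg (Real.exp_pos _).le (prod_nonneg fun b _ => by positivity)
    _ = Real.exp (-((l - m) * (j + 1))) * (∏ i ∈ S, (1 + (1 - p i) * (Real.exp 1 - 1))) ^ l := by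
        rw [Ex_mul, Ex_pow (fun x => (Real.exp 1) ^ zo S x), E1_exp]
    _ ≤ Real.exp (-((l - m) * (j + 1))) *
          (Real.exp (∑ i ∈ S, (1 - p i) * (Real.exp 1 - 1))) ^ l := by
        have h9 := Real.exp_one_gt_d9
        have h0 : ∀ i, 0 ≤ (1 - p i) * (Real.exp 1 - 1) := fun i =>
          mul_nonneg (by have := (hp i).2; linarith) (by linarith)
        refine mul_le_mul_of_nonneg_left (pow_le_pow_left₀ ?_ ?_ l) (Real.exp_pos _).le
        · exact prod_nonneg fun i _ => by have := h0 i; linarith
        · rw [Real.exp_sum]
          refine prod_le_prod (fun i _ => by have := h0 i; linarith) fun i _ => ?_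
          have := Real.add_one_le_exp ((1 - p i) * (Real.exp 1 - 1))
          linarith
    _ = _ := by
        rw [← Real.exp_nat_mul, ← Real.exp_add, ← sum_mul]
        congr 1
        ring

/-- The number of offspring with a zero at a position. -/
def col (i : Fin n) (y : Fin l → Fin n → Bool) : ℕ := (univ.filter fun a => y a i = false).card

theorem cnt_le_col (y : Fin l → Fin n → Bool) (A : Finset (Fin l)) (i : Fin n) :
    cnt y A i ≤ col i y := card_le_card (filter_subset_filter _ (subset_univ _))

/-- Many zeros at a position of high frequency. -/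
theorem Ex_col_lt {p : Fin n → ℝ} (hp : P01 p) {L e : ℝ} (hL : 0 ≤ L) (i : Fin n)
    (hpi : 1 - p i ≤ Real.exp (-L)) :
    Ex (l := l) p (fun y => if e < col i y then (1 : ℝ) else 0) ≤ Real.exp (l - L * e) := by
  calc Ex (l := l) p (fun y => if e < col i y then (1 : ℝ) else 0)
      ≤ Ex (l := l) p (fun y => Real.exp (-(L * e)) *
          ∏ b, (fun x => (Real.exp L) ^ zo {i} x) (y b)) := by
        refine Ex_mono hp fun y => ?_
        by_cases h : e < col i y
        · rw [if_pos h]
          have h1 : ∏ b, (fun x => (Real.exp L) ^ zo {i} x) (y b) = Real.exp (L * col i y) := by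
            have h2 : ∀ b, zo {i} (y b) = if y b i = false then 1 else 0 := by
              intro b
              unfold zo
              rw [filter_singleton]
              split_ifs <;> simp
            have h3 : (col i y : ℝ) = ∑ b, (zo {i} (y b) : ℝ) := by
              unfold col
              rw [card_filter]
              push_cast
              refine sum_congr rfl fun b _ => ?_
              rw [h2]
              split_ifs <;> simp
            rw [h3, mul_sum, Real.exp_sum]
            refine prod_congr rfl fun b _ => ?_
            dsimp only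
            rw [← Real.exp_nat_mul, mul_comm]
          rw [h1, ← Real.exp_add]
          refine Real.one_le_exp ?_
          have := mul_le_mul_of_nonneg_left h.le hL
          linarith
        · rw [if_neg h]
          exact mul_nonneg (Real.exp_pos _).le (prod_nonneg fun b _ => by positivity)
    _ = Real.exp (-(L * e)) * (1 + (1 - p i) * (Real.exp L - 1)) ^ l := by
        rw [Ex_mul, Ex_pow (fun x => (Real.exp L) ^ zo {i} x), E1_exp, prod_singleton]
    _ ≤ Real.exp (-(L * e)) * 2 ^ l := by
        have h1 : 1 ≤ Real.exp L := Real.one_le_exp hL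
        have h2 : 0 ≤ 1 - p i := by have := (hp i).2; linarith
        refine mul_le_mul_of_nonneg_left (pow_le_pow_left₀ ?_ ?_ l) (Real.exp_pos _).le
        · have := mul_nonneg h2 (by linarith : 0 ≤ Real.exp L - 1)
          linarith
        · have h3 := mul_le_mul_of_nonneg_right hpi (by linarith : 0 ≤ Real.exp L - 1)
          have h4 : Real.exp (-L) * (Real.exp L - 1) = 1 - Real.exp (-L) := by
            rw [mul_sub, ← Real.exp_add]
            simp
          have := Real.exp_pos (-L)
          linarith
    _ ≤ Real.exp (-(L * e)) * Real.exp l :=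
        mul_le_mul_of_nonneg_left (two_pow_le_exp l) (Real.exp_pos _).le
    _ = _ := by
        rw [← Real.exp_add]
        congr 1
        ring

theorem Ex_tower {p : Fin n → ℝ} (hp : P01 p) {L e : ℝ} (hL : 0 ≤ L) (S : Finset (Fin n))
    (hpi : ∀ i ∈ S, 1 - p i ≤ Real.exp (-L)) :
    Ex (l := l) p (fun y => if ∃ i ∈ S, e < col i y then (1 : ℝ) else 0) ≤
      n * Real.exp (l - L * e) := by
  calc Ex (l := l) p (fun y => if ∃ i ∈ S, e < col i y then (1 : ℝ) else 0)
      ≤ Ex (l := l) p (fun y => ∑ i ∈ S, if e < col i y then (1 : ℝ) else 0) := by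
        refine Ex_mono hp fun y => ?_
        have h0 : ∀ i ∈ S, (0 : ℝ) ≤ if e < col i y then (1 : ℝ) else 0 :=
          fun i _ => by split_ifs <;> norm_num
        by_cases h : ∃ i ∈ S, e < col i y
        · rw [if_pos h]
          obtain ⟨i, hi, hei⟩ := h
          calc (1 : ℝ) = if e < col i y then (1 : ℝ) else 0 := by rw [if_pos hei]
            _ ≤ _ := single_le_sum (f := fun i => if e < col i y then (1 : ℝ) else 0) h0 hi
        · rw [if_neg h]
          exact sum_nonneg h0
    _ = ∑ i ∈ S, Ex (l := l) p (fun y => if e < col i y then (1 : ℝ) else 0) := by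
        rw [Ex_sum]
    _ ≤ ∑ _i ∈ S, Real.exp (l - L * e) := sum_le_sum fun i hi => Ex_col_lt hp hL i (hpi i hi)
    _ ≤ _ := by
        rw [sum_const, nsmul_eq_mul]
        refine mul_le_mul_of_nonneg_right ?_ (Real.exp_pos _).le
        have := card_le_univ S
        rw [Fintype.card_fin] at this
        exact_mod_cast this

/-- A special offspring is good but few offspring are good. -/
theorem Ex_pos_lt {p : Fin n → ℝ} (hp : P01 p) (k : ℕ) (a : Fin l) :
    Ex (l := l) p (fun y => max ((k : ℝ) - zo univ (y a)) 0 *
      (if N univ k y < m then (1 : ℝ) else 0)) ≤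
      2 ^ m * Real.exp (-((l - 1 : ℕ) * (Pz p univ k / 2))) *
        E1 p (fun x => max ((k : ℝ) - zo univ x) 0) := by
  refine le_trans ?_ (Ex_half_le (m := m) hp univ k a (fun x => max ((k : ℝ) - zo univ x) 0)
    fun x => le_max_right _ _)
  refine Ex_mono hp fun y => ?_
  have h0 : 0 ≤ max ((k : ℝ) - zo univ (y a)) 0 := le_max_right _ _
  by_cases h : N univ k y < m
  · rw [if_pos h, mul_assoc]
    refine mul_le_mul_of_nonneg_left ?_ h0
    rw [mul_comm]
    exact one_le_of_lt h a
  · rw [if_neg h, mul_zero]
    refine mul_nonneg (mul_nonneg h0 (prod_nonneg fun b _ => ?_)) (by positivity)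
    split_ifs <;> norm_num

end Pool.Agent.H80.UM
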